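import Pool.Agent.H55.SA.Git1
open Matrix Polynomial Filter Topology
namespace Pool.Agent.SimpleAnosov

section bdd
variable {𝕜 : Type*} [RCLike 𝕜] {d : ℕ}

/-- energy of a finite family of matrices -/
noncomputable def energy {ι : Type*} [Fintype ι] (A : ι → Matrix (Fin d) (Fin d) 𝕜) : ℝ :=
  ∑ i : ι, nsq (A i)

lemma energy_nonneg {ι : Type*} [Fintype ι] (A : ι → Matrix (Fin d) (Fin d) 𝕜) :
    0 ≤ energy A := Finset.sum_nonneg fun i _ => nsq_nonneg _

lemma nsq_smul (c : 𝕜) (A : Matrix (Fin d) (Fin d) 𝕜) : nsq (c • A) = ‖c‖ ^ 2 * nsq A := by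
  simp only [nsq, Matrix.smul_apply, norm_smul, mul_pow, Finset.mul_sum]

lemma energy_smul {ι : Type*} [Fintype ι] (c : 𝕜) (A : ι → Matrix (Fin d) (Fin d) 𝕜) :
    energy (fun i => c • A i) = ‖c‖ ^ 2 * energy A := by
  simp only [energy, nsq_smul, Finset.mul_sum]

lemma norm_le_of_energy {ι : Type*} [Fintype ι] {A : ι → Matrix (Fin d) (Fin d) 𝕜} {B : ℝ}
    (h : energy A ≤ B ^ 2) (hB : 0 ≤ B) (i : ι) (a b : Fin d) : ‖A i a b‖ ≤ B := by
  have h1 : ‖A i a b‖ ^ 2 ≤ energy A := by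
    calc ‖A i a b‖ ^ 2 ≤ ∑ b', ‖A i a b'‖ ^ 2 :=
          Finset.single_le_sum (f := fun b' => ‖A i a b'‖ ^ 2) (fun _ _ => by positivity)
            (Finset.mem_univ b)
      _ ≤ nsq (A i) := Finset.single_le_sum (f := fun a' => ∑ b', ‖A i a' b'‖ ^ 2)
            (fun _ _ => Finset.sum_nonneg fun _ _ => by positivity) (Finset.mem_univ a)
      _ ≤ energy A := Finset.single_le_sum (f := fun i => nsq (A i)) (fun _ _ => nsq_nonneg _)
            (Finset.mem_univ i)
  exact abs_le_of_sq_le_sq' (h1.trans h) hB |>.2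

lemma continuous_energy {ι : Type*} [Fintype ι] :
    Continuous (fun A : ι → Matrix (Fin d) (Fin d) 𝕜 => energy A) := by
  unfold energy nsq
  fun_prop

/-- conjugation of a family by a unit -/
def cj {ι : Type*} (u : (Matrix (Fin d) (Fin d) 𝕜)ˣ) (A : ι → Matrix (Fin d) (Fin d) 𝕜) :
    ι → Matrix (Fin d) (Fin d) 𝕜 :=
  fun i => (u : Matrix (Fin d) (Fin d) 𝕜) * A i * ((u⁻¹ : (Matrix (Fin d) (Fin d) 𝕜)ˣ) :
    Matrix (Fin d) (Fin d) 𝕜)

lemma continuous_cj {ι : Type*} (u : (Matrix (Fin d) (Fin d) 𝕜)ˣ) :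
    Continuous (fun A : ι → Matrix (Fin d) (Fin d) 𝕜 => cj u A) := by
  unfold cj
  fun_prop

lemma cj_cj {ι : Type*} (u v : (Matrix (Fin d) (Fin d) 𝕜)ˣ)
    (A : ι → Matrix (Fin d) (Fin d) 𝕜) : cj u (cj v A) = cj (u * v) A := by
  funext i
  simp only [cj, _root_.mul_inv_rev, Units.val_mul]
  noncomm_ring

lemma exists_near_min {ι : Type*} [Fintype ι] (A : ι → Matrix (Fin d) (Fin d) 𝕜) {ε : ℝ}
    (hε : 0 < ε) : ∃ u : (Matrix (Fin d) (Fin d) 𝕜)ˣ, ∀ v : (Matrix (Fin d) (Fin d) 𝕜)ˣ,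
      energy (cj u A) ≤ energy (cj v (cj u A)) + ε := by
  have hb : BddBelow (Set.range fun u : (Matrix (Fin d) (Fin d) 𝕜)ˣ => energy (cj u A)) :=
    ⟨0, by rintro _ ⟨u, rfl⟩; exact energy_nonneg _⟩
  obtain ⟨u, hu⟩ := exists_lt_of_ciInf_lt (f := fun u : (Matrix (Fin d) (Fin d) 𝕜)ˣ =>
    energy (cj u A)) (lt_add_of_pos_right _ hε)
  refine ⟨u, fun v => ?_⟩
  rw [cj_cj]
  have := ciInf_le hb (v * u)
  linarith

lemma exists_subseq {ι : Type*} [Fintype ι] (A : ℕ → ι → Matrix (Fin d) (Fin d) 𝕜) (B : ℝ)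
    (hA : ∀ n i a b, ‖A n i a b‖ ≤ B) :
    ∃ (C : ι → Matrix (Fin d) (Fin d) 𝕜) (φ : ℕ → ℕ), StrictMono φ ∧
      Tendsto (fun n => A (φ n)) atTop (𝓝 C) := by
  have hK : IsCompact (Set.univ.pi fun _ : ι => Set.univ.pi fun _ : Fin d =>
      Set.univ.pi fun _ : Fin d => Metric.closedBall (0 : 𝕜) B) :=
    isCompact_univ_pi fun _ => isCompact_univ_pi fun _ => isCompact_univ_pi fun _ =>
      isCompact_closedBall _ _
  let x : ℕ → (ι → Fin d → Fin d → 𝕜) := A
  have hx : ∀ n, x n ∈ (Set.univ.pi fun _ : ι => Set.univ.pi fun _ : Fin d =>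
      Set.univ.pi fun _ : Fin d => Metric.closedBall (0 : 𝕜) B) := by
    intro n
    simp only [Set.mem_univ_pi]
    intro i a b
    rw [mem_closedBall_zero_iff]
    exact hA n i a b
  obtain ⟨C, _, φ, hφ, hlim⟩ := hK.tendsto_subseq hx
  exact ⟨C, φ, hφ, hlim⟩

lemma minimal_of_limit {ι : Type*} [Fintype ι] {A : ℕ → ι → Matrix (Fin d) (Fin d) 𝕜}
    {C : ι → Matrix (Fin d) (Fin d) 𝕜} {ε : ℕ → ℝ} (hlim : Tendsto A atTop (𝓝 C))
    (hε : Tendsto ε atTop (𝓝 0))
    (hmin : ∀ n, ∀ v : (Matrix (Fin d) (Fin d) 𝕜)ˣ, energy (A n) ≤ energy (cj v (A n)) + ε n) :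
    OrthSS C := by
  apply orthSS_of_minimal
  intro g gi h1 h2
  set v : (Matrix (Fin d) (Fin d) 𝕜)ˣ := ⟨g, gi, h1, h2⟩
  have hl : Tendsto (fun n => energy (A n)) atTop (𝓝 (energy C)) :=
    (continuous_energy.tendsto C).comp hlim
  have hr : Tendsto (fun n => energy (cj v (A n)) + ε n) atTop (𝓝 (energy (cj v C) + 0)) :=
    (((continuous_energy.comp (continuous_cj v)).tendsto C).comp hlim).add hε
  have := le_of_tendsto_of_tendsto' hl hr (fun n => hmin n v)
  rw [add_zero] at this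
  exact this

lemma tendsto_word {ι : Type*} {A : ℕ → ι → Matrix (Fin d) (Fin d) 𝕜}
    {C : ι → Matrix (Fin d) (Fin d) 𝕜} (hlim : Tendsto A atTop (𝓝 C)) (w : List ι) :
    Tendsto (fun n => (w.map (A n)).prod) atTop (𝓝 (w.map C).prod) := by
  induction w with
  | nil => simp
  | cons i w ih =>
    simp only [List.map_cons, List.prod_cons]
    exact (((continuous_apply i).tendsto C).comp hlim).mul ih

lemma list_prod_smul {ι : Type*} (c : 𝕜) (A : ι → Matrix (Fin d) (Fin d) 𝕜) (w : List ι) :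
    (w.map (fun i => c • A i)).prod = c ^ w.length • (w.map A).prod := by
  induction w with
  | nil => simp
  | cons i w ih =>
    rw [List.map_cons, List.prod_cons, ih, List.map_cons, List.prod_cons, List.length_cons,
      smul_mul_assoc, mul_smul_comm, smul_smul, pow_succ']

/-- Near-minimal families with bounded word traces have bounded energy. -/
lemma energy_bdd {κ ι : Type*} [Fintype ι] (A : κ → ι → Matrix (Fin d) (Fin d) 𝕜)
    (htr : ∀ w : List ι, ∃ B : ℝ, ∀ k, ‖((w.map (A k)).prod).trace‖ ≤ B)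
    (hmin : ∀ k, ∀ v : (Matrix (Fin d) (Fin d) 𝕜)ˣ, energy (A k) ≤ energy (cj v (A k)) + 1) :
    ∃ B : ℝ, ∀ k, energy (A k) ≤ B := by
  by_contra hcon
  push Not at hcon
  choose k hk using fun n : ℕ => hcon ((n : ℝ) + 1)
  have hE : ∀ n, 1 ≤ energy (A (k n)) := fun n => by
    have : (0 : ℝ) ≤ n := Nat.cast_nonneg n
    linarith [hk n]
  set r : ℕ → ℝ := fun n => Real.sqrt (energy (A (k n))) with hr
  have hr1 : ∀ n, 1 ≤ r n := fun n => Real.one_le_sqrt.mpr (hE n)
  have hr2 : ∀ n, r n ^ 2 = energy (A (k n)) := fun n => Real.sq_sqrt (energy_nonneg _)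
  have hrlim : Tendsto r atTop atTop := by
    apply Real.tendsto_sqrt_atTop.comp
    refine tendsto_atTop_mono (fun n => (hk n).le) ?_
    exact tendsto_atTop_add_const_right _ _ tendsto_natCast_atTop_atTop
  have hrinv : Tendsto (fun n => (r n)⁻¹) atTop (𝓝 0) := hrlim.inv_tendsto_atTop
  set D : ℕ → ι → Matrix (Fin d) (Fin d) 𝕜 := fun n i => (((r n)⁻¹ : ℝ) : 𝕜) • A (k n) i with hD
  have hnorm : ∀ n, ‖(((r n)⁻¹ : ℝ) : 𝕜)‖ = (r n)⁻¹ := fun n => by
    rw [RCLike.norm_ofReal, abs_of_pos (inv_pos.mpr (by linarith [hr1 n]))]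
  have hDe : ∀ n, energy (D n) = 1 := by
    intro n
    have hpos : 0 < r n := by linarith [hr1 n]
    rw [hD]
    change energy (fun i => (((r n)⁻¹ : ℝ) : 𝕜) • A (k n) i) = 1
    rw [energy_smul, hnorm, ← hr2 n]
    field_simp
  obtain ⟨C, φ, hφ, hlim⟩ := exists_subseq D 1 (fun n i a b =>
    norm_le_of_energy (by rw [hDe n]; norm_num) (by norm_num) i a b)
  have hCss : OrthSS C := by
    refine minimal_of_limit (ε := fun n => (r (φ n))⁻¹ ^ 2) hlim ?_ ?_
    · have := (hrinv.comp hφ.tendsto_atTop).pow 2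
      simpa using this
    · intro n v
      have h1 := hmin (k (φ n)) v
      have h2 : cj v (D (φ n)) = fun i => (((r (φ n))⁻¹ : ℝ) : 𝕜) • cj v (A (k (φ n))) i := by
        funext i
        simp only [cj, hD, mul_smul_comm, smul_mul_assoc]
      have h4 : energy (D (φ n)) = (r (φ n))⁻¹ ^ 2 * energy (A (k (φ n))) := by
        change energy (fun i => (((r (φ n))⁻¹ : ℝ) : 𝕜) • A (k (φ n)) i) = _
        rw [energy_smul, hnorm]
      rw [h2, h4, energy_smul, hnorm]
      have h3 : 0 ≤ (r (φ n))⁻¹ ^ 2 := by positivity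
      nlinarith
  have hCe : energy C = 1 := by
    have h1 : Tendsto (fun n => energy (D (φ n))) atTop (𝓝 (energy C)) :=
      (continuous_energy.tendsto C).comp hlim
    have h2 : (fun n => energy (D (φ n))) = fun _ => 1 := funext fun n => hDe _
    rw [h2] at h1
    exact tendsto_nhds_unique h1 tendsto_const_nhds
  have hCtr : ∀ w : List ι, w ≠ [] → ((w.map C).prod).trace = 0 := by
    intro w hw
    obtain ⟨B, hB⟩ := htr w
    have h1 : Tendsto (fun n => ((w.map (D (φ n))).prod).trace) atTop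
        (𝓝 ((w.map C).prod).trace) :=
      ((continuous_id.matrix_trace).tendsto _).comp (tendsto_word hlim w)
    have h2 : Tendsto (fun n => ((w.map (D (φ n))).prod).trace) atTop (𝓝 0) := by
      rw [tendsto_zero_iff_norm_tendsto_zero]
      have hB0 : 0 ≤ B := (norm_nonneg _).trans (hB (k 0))
      refine squeeze_zero (fun _ => norm_nonneg _) (g := fun n => (r (φ n))⁻¹ * B) ?_ ?_
      · intro n
        change ‖((w.map (fun i => (((r (φ n))⁻¹ : ℝ) : 𝕜) • A (k (φ n)) i)).prod).trace‖ ≤ _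
        rw [list_prod_smul, trace_smul, norm_smul, norm_pow, hnorm]
        have hpos : 0 < r (φ n) := by linarith [hr1 (φ n)]
        have h3 : (r (φ n))⁻¹ ≤ 1 := inv_le_one_of_one_le₀ (hr1 _)
        have h4 : (r (φ n))⁻¹ ^ w.length ≤ (r (φ n))⁻¹ := by
          have hl : 1 ≤ w.length := List.length_pos_iff.mpr hw
          calc (r (φ n))⁻¹ ^ w.length ≤ (r (φ n))⁻¹ ^ 1 :=
                pow_le_pow_of_le_one (by positivity) h3 hl
            _ = _ := pow_one _
        exact mul_le_mul h4 (hB _) (norm_nonneg _) (by positivity)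
      · have := (hrinv.comp hφ.tendsto_atTop).mul_const B
        simpa using this
    exact tendsto_nhds_unique h1 h2
  have hC0 := zero_of_traces C hCtr hCss
  have : energy C = 0 := by
    unfold energy
    refine Finset.sum_eq_zero fun i _ => ?_
    rw [hC0 i]; simp [nsq]
  rw [this] at hCe
  exact zero_ne_one hCe

end bdd
end Pool.Agent.SimpleAnosov
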