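import Pool.Agent.H55.SA.Rep
import Pool.Agent.H76.SA.Cross

/-!
# Coarse dominated splittings
-/

open Matrix Filter Topology
open scoped MatrixGroups Matrix.Norms.Operator

namespace Pool.Agent.SimpleAnosov

section bs
variable {Γ : Subgroup SL(2, ℝ)}

lemma simpleClosed_smul {h : SL(2, ℝ)} (hh : IsSimpleClosed Γ h) {γ : SL(2, ℝ)} (hγ : γ ∈ Γ) :
    IsSimpleClosed Γ (γ * h) := by
  obtain ⟨⟨g, hg, l, hl, hgl⟩, hd⟩ := hh
  refine ⟨⟨γ * g * γ⁻¹, Γ.mul_mem (Γ.mul_mem hγ hg) (Γ.inv_mem hγ), l, hl, ?_⟩, ?_⟩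
  · have e : γ * g * γ⁻¹ * (γ * h) = γ * (g * h) := by group
    rw [e]
    rcases hgl with h1 | h1
    · left; rw [h1, mul_assoc]
    · right; rw [h1, mul_neg, mul_assoc]
  · intro δ hδ
    have hline : ∀ x : SL(2, ℝ), line (γ * x) = (fun z : UpperHalfPlane => γ • z) '' line x := by
      intro x
      unfold line
      rw [← Set.range_comp]
      congr 1
      funext t
      simp only [Function.comp, mul_assoc, mul_smul]
    have e : δ * (γ * h) = γ * ((γ⁻¹ * δ * γ) * h) := by group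
    rw [e, hline, hline]
    rcases hd (γ⁻¹ * δ * γ) (Γ.mul_mem (Γ.mul_mem (Γ.inv_mem hγ) hδ) hγ) with h1 | h1
    · left; rw [h1]
    · right
      exact (Set.disjoint_image_iff (MulAction.injective γ)).mpr h1

lemma simpleClosed_neg {h : SL(2, ℝ)} (hh : IsSimpleClosed Γ h) : IsSimpleClosed Γ (-h) := by
  obtain ⟨⟨g, hg, l, hl, hgl⟩, hd⟩ := hh
  refine ⟨⟨g, hg, l, hl, ?_⟩, ?_⟩
  · rcases hgl with h1 | h1
    · left; rw [mul_neg, h1, neg_mul]
    · right; rw [mul_neg, h1, neg_mul]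
  · intro δ hδ
    rw [mul_neg, line_neg, line_neg]
    exact hd δ hδ

lemma simpleClosed_flow {h : SL(2, ℝ)} (hh : IsSimpleClosed Γ h) (t : ℝ) :
    IsSimpleClosed Γ (h * geo t) := by
  obtain ⟨⟨g, hg, l, hl, hgl⟩, hd⟩ := hh
  refine ⟨⟨g, hg, l, hl, ?_⟩, ?_⟩
  · have e : h * geo t * geo l = h * geo l * geo t := by
      rw [mul_assoc, mul_assoc, ← geo_add, ← geo_add, add_comm]
    rw [← mul_assoc, e]
    rcases hgl with h1 | h1
    · left; rw [h1]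
    · right; rw [h1, neg_mul]
  · intro δ hδ
    rw [← mul_assoc, line_mul_geo, line_mul_geo]
    exact hd δ hδ

lemma bs_closed : IsClosed (birmanSeries Γ) := isClosed_closure

lemma bs_of_simple {h : SL(2, ℝ)} (hh : IsSimpleClosed Γ h) : h ∈ birmanSeries Γ :=
  subset_closure hh

lemma bs_smul {h : SL(2, ℝ)} (hh : h ∈ birmanSeries Γ) {γ : SL(2, ℝ)} (hγ : γ ∈ Γ) :
    γ * h ∈ birmanSeries Γ :=
  map_mem_closure (continuous_const.mul continuous_id) hh fun _ hx => simpleClosed_smul hx hγ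

lemma continuous_neg_sl : Continuous (fun h : SL(2, ℝ) => -h) := by
  have e : (fun h : SL(2, ℝ) => -h) = fun h => (-1) * h := by
    funext h; rw [neg_mul, one_mul]
  rw [e]
  exact continuous_const.mul continuous_id

lemma bs_neg {h : SL(2, ℝ)} (hh : h ∈ birmanSeries Γ) : -h ∈ birmanSeries Γ :=
  map_mem_closure continuous_neg_sl hh fun _ hx => simpleClosed_neg hx

lemma bs_flow {h : SL(2, ℝ)} (hh : h ∈ birmanSeries Γ) (t : ℝ) : h * geo t ∈ birmanSeries Γ :=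
  map_mem_closure (f := fun h : SL(2, ℝ) => h * geo t) (continuous_id.mul continuous_const) hh
    fun _ hx => simpleClosed_flow hx t

end bs

/-- A coarse version of a dominated splitting. -/
structure Coarse {Γ : Subgroup SL(2, ℝ)} (D : Set SL(2, ℝ)) {d : ℕ}
    (σ : Γ →* Matrix (Fin d) (Fin d) ℂ) (k : ℕ) (P : SL(2, ℝ) → Matrix (Fin d) (Fin d) ℂ)
    (C c : ℝ) : Prop where
  c_pos : 0 < c
  idem : ∀ h ∈ birmanSeries Γ, P h * P h = P h
  trace_P : ∀ h ∈ birmanSeries Γ, (P h).trace = k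
  equivariant : ∀ h ∈ birmanSeries Γ, ∀ γ : Γ, P ((γ : SL(2, ℝ)) * h) = σ γ * P h * σ γ⁻¹
  neg_P : ∀ h ∈ birmanSeries Γ, P (-h) = P h
  flow : ∀ h ∈ birmanSeries Γ, ∀ t : ℝ, P (h * geo t) = P h
  bound : ∀ h ∈ birmanSeries Γ, h ∈ D → ‖P h‖ ≤ C
  dom : ∀ h ∈ birmanSeries Γ, h ∈ D → ∀ h' ∈ birmanSeries Γ, h' ∈ D → ∀ (γ : Γ) (t : ℝ), 0 ≤ t →
    (h * geo t = γ * h' ∨ h * geo t = -(γ * h')) →
      ‖σ γ⁻¹ * (1 - P h)‖ * ‖P h * σ γ‖ ≤ C * Real.exp (-(c * t))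

section coarse
variable {Γ : Subgroup SL(2, ℝ)} {D : Set SL(2, ℝ)} {d k : ℕ}
  {σ : Γ →* Matrix (Fin d) (Fin d) ℂ} {P : SL(2, ℝ) → Matrix (Fin d) (Fin d) ℂ} {C c : ℝ}

lemma sg_mul_inv (σ : Γ →* Matrix (Fin d) (Fin d) ℂ) (γ : Γ) : σ γ * σ γ⁻¹ = 1 := by
  rw [← map_mul, mul_inv_cancel, map_one]

lemma sg_inv_mul (σ : Γ →* Matrix (Fin d) (Fin d) ℂ) (γ : Γ) : σ γ⁻¹ * σ γ = 1 := by
  rw [← map_mul, inv_mul_cancel, map_one]

lemma Coarse.commute_of_frame (H : Coarse D σ k P C c) {h : SL(2, ℝ)} (hh : h ∈ birmanSeries Γ)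
    {γ : Γ} {l : ℝ} (hγ : (γ : SL(2, ℝ)) * h = h * geo l ∨ (γ : SL(2, ℝ)) * h = -(h * geo l)) :
    σ γ * P h = P h * σ γ := by
  have h1 : P ((γ : SL(2, ℝ)) * h) = P h := by
    rcases hγ with h1 | h1
    · rw [h1, H.flow h hh]
    · rw [h1, H.neg_P _ (bs_flow hh l), H.flow h hh]
  rw [H.equivariant h hh] at h1
  calc σ γ * P h = σ γ * P h * (σ γ⁻¹ * σ γ) := by rw [sg_inv_mul, mul_one]
    _ = (σ γ * P h * σ γ⁻¹) * σ γ := by noncomm_ring
    _ = P h * σ γ := by rw [h1]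

lemma Coarse.commute_of_frame' (H : Coarse D σ k P C c) {h : SL(2, ℝ)} (hh : h ∈ birmanSeries Γ)
    {γ : Γ} {l : ℝ} (hγ : (γ : SL(2, ℝ)) * h = h * geo l ∨ (γ : SL(2, ℝ)) * h = -(h * geo l)) :
    σ γ⁻¹ * P h = P h * σ γ⁻¹ := by
  have h1 := H.commute_of_frame hh hγ
  calc σ γ⁻¹ * P h = σ γ⁻¹ * (P h * σ γ) * σ γ⁻¹ := by
        rw [mul_assoc, mul_assoc, sg_mul_inv, mul_one]
    _ = σ γ⁻¹ * (σ γ * P h) * σ γ⁻¹ := by rw [h1]
    _ = (σ γ⁻¹ * σ γ) * P h * σ γ⁻¹ := by noncomm_ring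
    _ = P h * σ γ⁻¹ := by rw [sg_inv_mul, one_mul]

/-- On a periodic orbit, eigenvalues on the kernel are strictly smaller than eigenvalues on the
image. -/
lemma Coarse.eig_lt (H : Coarse D σ k P C c) {h : SL(2, ℝ)} (hh : h ∈ birmanSeries Γ)
    (hD : h ∈ D) {γ : Γ} {l : ℝ} (hl : 0 < l)
    (hγ : (γ : SL(2, ℝ)) * h = h * geo l ∨ (γ : SL(2, ℝ)) * h = -(h * geo l))
    {v w : Fin d → ℂ} {μ μ' : ℂ} (hv : v ≠ 0) (hw : w ≠ 0) (hPv : P h *ᵥ v = v)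
    (hPw : P h *ᵥ w = 0) (hμ : σ γ⁻¹ *ᵥ v = μ • v) (hμ' : σ γ⁻¹ *ᵥ w = μ' • w) :
    ‖μ'‖ < ‖μ‖ := by
  have hμ0 : μ ≠ 0 := by
    rintro rfl
    rw [zero_smul] at hμ
    apply hv
    have := congrArg (fun x => σ γ *ᵥ x) hμ
    simp only [mulVec_mulVec, sg_mul_inv, one_mulVec, mulVec_zero] at this
    exact this
  by_contra hcon
  push Not at hcon
  have hkey : ∀ n : ℕ, 1 ≤ C * Real.exp (-(c * (n * l))) := by
    intro n
    have hz := axis_zpow hγ n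
    have hd := H.dom h hh hD h hh hD (γ ^ n) (n * l) (by positivity) (by
      push_cast at hz ⊢
      rcases hz with h1 | h1
      · left; rw [← h1]; norm_cast
      · right
        have h2 : h * geo (n * l) = -(((γ : SL(2, ℝ)) ^ (n : ℤ)) * h) := by
          rw [h1, neg_neg]
        rw [h2]; norm_cast)
    have hw1 : σ (γ ^ n)⁻¹ *ᵥ w = μ' ^ n • w := by
      rw [← inv_pow, map_pow]
      clear hd hz
      induction n with
      | zero => simp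
      | succ n ih =>
        rw [pow_succ, ← mulVec_mulVec, hμ', mulVec_smul, ih, smul_smul, pow_succ']
    have hv0 : σ γ *ᵥ v = μ⁻¹ • v := by
      have h1 := congrArg (fun x => μ⁻¹ • (σ γ *ᵥ x)) hμ
      simp only [mulVec_mulVec, sg_mul_inv, one_mulVec, mulVec_smul] at h1
      rw [smul_smul, inv_mul_cancel₀ hμ0, one_smul] at h1
      exact h1.symm
    have hv1 : σ (γ ^ n) *ᵥ v = (μ⁻¹) ^ n • v := by
      rw [map_pow]
      clear hd hz hw1
      induction n with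
      | zero => simp
      | succ n ih =>
        rw [pow_succ, ← mulVec_mulVec, hv0, mulVec_smul, ih, smul_smul, pow_succ']
    have hwn : ‖μ'‖ ^ n ≤ ‖σ (γ ^ n)⁻¹ * (1 - P h)‖ := by
      have h1 : (σ (γ ^ n)⁻¹ * (1 - P h)) *ᵥ w = μ' ^ n • w := by
        rw [← mulVec_mulVec, sub_mulVec, one_mulVec, hPw, sub_zero, hw1]
      have h2 := linfty_opNorm_mulVec (σ (γ ^ n)⁻¹ * (1 - P h)) w
      rw [h1, norm_smul, norm_pow] at h2
      exact le_of_mul_le_mul_right h2 (norm_pos_iff.mpr hw)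
    have hvn : (‖μ‖⁻¹) ^ n ≤ ‖P h * σ (γ ^ n)‖ := by
      have h1 : (P h * σ (γ ^ n)) *ᵥ v = (μ⁻¹) ^ n • v := by
        rw [← mulVec_mulVec, hv1, mulVec_smul, hPv]
      have h2 := linfty_opNorm_mulVec (P h * σ (γ ^ n)) v
      rw [h1, norm_smul, norm_pow, norm_inv] at h2
      exact le_of_mul_le_mul_right h2 (norm_pos_iff.mpr hv)
    have hmu : 0 < ‖μ‖ := norm_pos_iff.mpr hμ0
    calc (1 : ℝ) = ‖μ‖ ^ n * (‖μ‖⁻¹) ^ n := by
          rw [← mul_pow, mul_inv_cancel₀ hmu.ne', one_pow]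
      _ ≤ ‖μ'‖ ^ n * (‖μ‖⁻¹) ^ n :=
          mul_le_mul_of_nonneg_right (pow_le_pow_left₀ hmu.le hcon n) (by positivity)
      _ ≤ ‖σ (γ ^ n)⁻¹ * (1 - P h)‖ * ‖P h * σ (γ ^ n)‖ :=
          mul_le_mul hwn hvn (by positivity) (norm_nonneg _)
      _ ≤ C * Real.exp (-(c * (n * l))) := hd
  have hlim : Tendsto (fun n : ℕ => C * Real.exp (-(c * (n * l)))) atTop (𝓝 (C * 0)) := by
    apply Tendsto.const_mul
    apply Real.tendsto_exp_neg_atTop_nhds_zero.comp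
    have : Tendsto (fun n : ℕ => (c * l) * (n : ℝ)) atTop atTop :=
      tendsto_natCast_atTop_atTop.const_mul_atTop (mul_pos H.c_pos hl)
    refine this.congr fun n => by ring
  have := ge_of_tendsto' hlim hkey
  rw [mul_zero] at this
  linarith

end coarse

end Pool.Agent.SimpleAnosov
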