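import Pool.Agent.H55.SA.Cone1

/-!
# Spectral projections
-/

open Matrix Filter Topology Polynomial
open scoped MatrixGroups Matrix.Norms.Operator

namespace Pool.Agent.SimpleAnosov

section spectral
variable {d : ℕ}

/-- polynomials `p` with `p(B) Q = 0` -/
noncomputable def annI (B Q : Matrix (Fin d) (Fin d) ℂ) : Ideal ℂ[X] where
  carrier := {p | aeval B p * Q = 0}
  add_mem' := fun {p q} hp hq => by
    change aeval B (p + q) * Q = 0
    rw [map_add, add_mul]
    rw [show aeval B p * Q = 0 from hp, show aeval B q * Q = 0 from hq, add_zero]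
  zero_mem' := by
    change aeval B (0 : ℂ[X]) * Q = 0
    rw [map_zero, zero_mul]
  smul_mem' := fun c p hp => by
    change aeval B (c * p) * Q = 0
    rw [map_mul, mul_assoc, show aeval B p * Q = 0 from hp, mul_zero]

lemma mem_annI {B Q : Matrix (Fin d) (Fin d) ℂ} {p : ℂ[X]} :
    p ∈ annI B Q ↔ aeval B p * Q = 0 := Iff.rfl

lemma annI_ne_bot (B Q : Matrix (Fin d) (Fin d) ℂ) : annI B Q ≠ ⊥ := by
  intro h
  have h1 : B.charpoly ∈ annI B Q := by
    rw [mem_annI, aeval_self_charpoly, zero_mul]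
  rw [h] at h1
  exact (charpoly_monic B).ne_zero h1

/-- A root of the generator of `annI B Q` is an eigenvalue on the range of `Q`. -/
lemma exists_eig_of_root (B Q : Matrix (Fin d) (Fin d) ℂ) (hQQ : Q * Q = Q)
    (hc : B * Q = Q * B) {μ : ℂ}
    (hμ : aeval μ (Submodule.IsPrincipal.generator (annI B Q)) = 0) :
    ∃ v, v ≠ 0 ∧ Q *ᵥ v = v ∧ B *ᵥ v = μ • v := by
  set p := Submodule.IsPrincipal.generator (annI B Q) with hp
  have hp0 : p ≠ 0 := by
    intro h0
    exact annI_ne_bot B Q ((Submodule.IsPrincipal.eq_bot_iff_generator_eq_zero _).mpr h0)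
  have hroot : p.IsRoot μ := by
    rw [IsRoot.def, ← coe_aeval_eq_eval]; exact hμ
  obtain ⟨q, hq⟩ := dvd_iff_isRoot.mpr hroot
  have hq0 : q ≠ 0 := by rintro rfl; rw [mul_zero] at hq; exact hp0 hq
  have hqn : q ∉ annI B Q := by
    intro hmem
    have hdvd : p ∣ q := (Submodule.IsPrincipal.mem_iff_generator_dvd _).mp hmem
    have h1 := natDegree_le_of_dvd hdvd hq0
    rw [hq, natDegree_mul (X_sub_C_ne_zero μ) hq0, natDegree_X_sub_C] at h1
    omega
  rw [mem_annI] at hqn
  have hcom : ∀ r : ℂ[X], aeval B r * Q = Q * aeval B r := by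
    intro r
    have hcB : Commute B Q := hc
    induction r using Polynomial.induction_on' with
    | add p q hp hq => rw [map_add, add_mul, mul_add, hp, hq]
    | monomial n a =>
      rw [aeval_monomial, ← Algebra.smul_def, smul_mul_assoc, mul_smul_comm,
        (hcB.pow_left n).eq]
  obtain ⟨i, hi⟩ : ∃ i, (aeval B q * Q) *ᵥ (Pi.single i 1) ≠ 0 := by
    by_contra hcon
    push Not at hcon
    apply hqn
    apply Matrix.ext_of_mulVec_single
    intro i
    rw [hcon i, zero_mulVec]
  refine ⟨(aeval B q * Q) *ᵥ (Pi.single i 1), hi, ?_, ?_⟩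
  · rw [mulVec_mulVec, ← mul_assoc, ← hcom, mul_assoc, hQQ]
  · have h1 : aeval B p * Q = 0 := Submodule.IsPrincipal.generator_mem (annI B Q)
    rw [hq, map_mul, map_sub, aeval_X, aeval_C] at h1
    have h2 : B * (aeval B q * Q) = μ • (aeval B q * Q) := by
      have h3 : (B - algebraMap ℂ (Matrix (Fin d) (Fin d) ℂ) μ) * (aeval B q * Q) = 0 := by
        rw [← mul_assoc]; exact h1
      rw [sub_mul, sub_eq_zero] at h3
      rw [h3, Algebra.algebraMap_eq_smul_one, smul_mul_assoc, one_mul]
    rw [mulVec_mulVec, h2, smul_mulVec]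

lemma proj_mem_aeval (B P : Matrix (Fin d) (Fin d) ℂ) (hPP : P * P = P) (hc : B * P = P * B)
    (hne : ∀ (μ : ℂ) (v w : Fin d → ℂ), v ≠ 0 → w ≠ 0 → P *ᵥ v = v → P *ᵥ w = 0 →
      B *ᵥ v = μ • v → B *ᵥ w = μ • w → False) : ∃ p : ℂ[X], aeval B p = P := by
  have hQQ : (1 - P) * (1 - P) = 1 - P := by
    rw [mul_sub, mul_one, sub_mul, one_mul, hPP, sub_self, sub_zero]
  have hcQ : B * (1 - P) = (1 - P) * B := by rw [mul_sub, sub_mul, hc, mul_one, one_mul]
  have hcop : IsCoprime (Submodule.IsPrincipal.generator (annI B P))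
      (Submodule.IsPrincipal.generator (annI B (1 - P))) := by
    rw [Polynomial.isCoprime_iff_aeval_ne_zero_of_isAlgClosed ℂ ℂ]
    intro μ
    by_contra hcon
    push Not at hcon
    obtain ⟨v, hv, hPv, hBv⟩ := exists_eig_of_root B P hPP hc hcon.1
    obtain ⟨w, hw, hPw, hBw⟩ := exists_eig_of_root B (1 - P) hQQ hcQ hcon.2
    refine hne μ v w hv hw hPv ?_ hBv hBw
    rw [sub_mulVec, one_mulVec] at hPw
    simpa using hPw
  obtain ⟨u, v, huv⟩ := hcop
  have h1 : aeval B (Submodule.IsPrincipal.generator (annI B P)) * P = 0 :=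
    Submodule.IsPrincipal.generator_mem (annI B P)
  have h2 : aeval B (Submodule.IsPrincipal.generator (annI B (1 - P))) * (1 - P) = 0 :=
    Submodule.IsPrincipal.generator_mem (annI B (1 - P))
  refine ⟨v * Submodule.IsPrincipal.generator (annI B (1 - P)), ?_⟩
  have h3 := congrArg (aeval B) huv
  rw [map_add, map_one, map_mul, map_mul] at h3
  rw [map_mul]
  set a := aeval B (Submodule.IsPrincipal.generator (annI B P))
  set b := aeval B (Submodule.IsPrincipal.generator (annI B (1 - P)))
  have h4 : b = b * P := by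
    rw [mul_sub, mul_one, sub_eq_zero] at h2; exact h2
  calc aeval B v * b = aeval B v * (b * P) := by rw [← h4]
    _ = aeval B u * (a * P) + aeval B v * (b * P) := by rw [h1, mul_zero, zero_add]
    _ = (aeval B u * a + aeval B v * b) * P := by noncomm_ring
    _ = P := by rw [h3, one_mul]

/-- trace of an idempotent matrix -/
lemma trace_of_idem (P : Matrix (Fin d) (Fin d) ℂ) (hPP : P * P = P) :
    P.trace = (P.rank : ℂ) := by
  have hid : IsIdempotentElem (Matrix.toLin' P) := by
    unfold IsIdempotentElem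
    rw [Module.End.mul_eq_comp, ← Matrix.toLin'_mul, hPP]
  have h1 := (LinearMap.IsIdempotentElem.isProj_range _ hid).trace
  rw [Matrix.trace_toLin'_eq] at h1
  rw [h1]
  rfl

end spectral
end Pool.Agent.SimpleAnosov
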