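import Pool.Agent.H55.SA.Cone2

/-!
# From dominated splittings to coarse dominated splittings
-/

open Matrix Filter Topology
open scoped MatrixGroups Matrix.Norms.Operator

namespace Pool.Agent.SimpleAnosov

section tocoarse
variable {d : ℕ}

/-- the underlying matrix representation -/
def hatr {Γ : Type*} [Group Γ] (ρ : Γ →* SL(d, ℂ)) : Γ →* Matrix (Fin d) (Fin d) ℂ where
  toFun γ := (ρ γ : Matrix (Fin d) (Fin d) ℂ)
  map_one' := by rw [map_one]; rfl
  map_mul' x y := by rw [map_mul]; rfl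

lemma hatr_apply {Γ : Type*} [Group Γ] (ρ : Γ →* SL(d, ℂ)) (γ : Γ) :
    hatr ρ γ = (ρ γ : Matrix (Fin d) (Fin d) ℂ) := rfl

lemma opNorm_le_of {A : Matrix (Fin d) (Fin d) ℂ} {M : ℝ} (hM : 0 ≤ M)
    (h : ∀ x : Fin d → ℂ, ‖A *ᵥ x‖ ≤ M * ‖x‖) : ‖A‖ ≤ M := by
  rw [linfty_opNorm_eq_opNorm]
  exact ContinuousLinearMap.opNorm_le_bound _ hM h

lemma opNorm_mul_le_of {A B : Matrix (Fin d) (Fin d) ℂ} {M : ℝ} (hM : 0 ≤ M)
    (h : ∀ x y : Fin d → ℂ, ‖A *ᵥ x‖ * ‖B *ᵥ y‖ ≤ M * ‖x‖ * ‖y‖) : ‖A‖ * ‖B‖ ≤ M := by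
  have h1 : ∀ x : Fin d → ℂ, ‖A *ᵥ x‖ * ‖B‖ ≤ M * ‖x‖ := by
    intro x
    rcases (norm_nonneg (A *ᵥ x)).eq_or_lt with h0 | h0
    · rw [← h0, zero_mul]; positivity
    · have h2 : ‖B‖ ≤ M * ‖x‖ / ‖A *ᵥ x‖ := by
        apply opNorm_le_of (by positivity)
        intro y
        rw [div_mul_eq_mul_div, le_div_iff₀ h0, mul_comm]
        exact h x y
      rw [mul_comm]
      calc ‖B‖ * ‖A *ᵥ x‖ ≤ (M * ‖x‖ / ‖A *ᵥ x‖) * ‖A *ᵥ x‖ :=
            mul_le_mul_of_nonneg_right h2 h0.le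
        _ = M * ‖x‖ := by field_simp
  rcases (norm_nonneg B).eq_or_lt with h0 | h0
  · rw [← h0, mul_zero]; exact hM
  · have h2 : ‖A‖ ≤ M / ‖B‖ := by
      apply opNorm_le_of (by positivity)
      intro x
      rw [div_mul_eq_mul_div, le_div_iff₀ h0]
      exact h1 x
    calc ‖A‖ * ‖B‖ ≤ M / ‖B‖ * ‖B‖ := mul_le_mul_of_nonneg_right h2 h0.le
      _ = M := by field_simp

lemma norm_le_of_entries {A : Matrix (Fin d) (Fin d) ℂ} {b : ℝ} (hb : 0 ≤ b)
    (h : ∀ i j, ‖A i j‖ ≤ b) : ‖A‖ ≤ d * b := by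
  apply opNorm_le_of (by positivity)
  intro x
  rw [pi_norm_le_iff_of_nonneg (by positivity)]
  intro i
  simp only [mulVec, dotProduct]
  calc ‖∑ j, A i j * x j‖ ≤ ∑ j, ‖A i j * x j‖ := norm_sum_le _ _
    _ ≤ ∑ _j : Fin d, b * ‖x‖ := by
        refine Finset.sum_le_sum fun j _ => ?_
        rw [norm_mul]
        exact mul_le_mul (h i j) (norm_le_pi_norm x j) (norm_nonneg _) hb
    _ = d * b * ‖x‖ := by simp [mul_assoc]

variable {Γ : Subgroup SL(2, ℝ)} {ρ : Γ →* SL(d, ℂ)} {k : ℕ}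
  {P : SL(2, ℝ) → Matrix (Fin d) (Fin d) ℂ} {N : SL(2, ℝ) → (Fin d → ℂ) → ℝ} {C c : ℝ}

lemma IsDominatedSplitting.N_zero (H : IsDominatedSplitting ρ k P N C c) {h : SL(2, ℝ)}
    (hh : h ∈ birmanSeries Γ) : N h 0 = 0 := by
  have := H.norm_smul h hh 0 0
  simpa using this

lemma IsDominatedSplitting.N_nonneg (H : IsDominatedSplitting ρ k P N C c) {h : SL(2, ℝ)}
    (hh : h ∈ birmanSeries Γ) (v : Fin d → ℂ) : 0 ≤ N h v := by
  have h1 := H.norm_add_le h hh v ((-1 : ℂ) • v)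
  have h2 := H.norm_smul h hh (-1) v
  rw [norm_neg, norm_one, one_mul] at h2
  rw [h2, neg_smul, one_smul, add_neg_cancel, H.N_zero hh] at h1
  linarith

lemma IsDominatedSplitting.N_pos (H : IsDominatedSplitting ρ k P N C c) {h : SL(2, ℝ)}
    (hh : h ∈ birmanSeries Γ) {v : Fin d → ℂ} (hv : v ≠ 0) : 0 < N h v :=
  lt_of_le_of_ne (H.N_nonneg hh v) fun h0 => hv (H.norm_eq_zero h hh v h0.symm)

lemma IsDominatedSplitting.exists_bound (H : IsDominatedSplitting ρ k P N C c)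
    {D : Set SL(2, ℝ)} (hD : IsCompact D) : ∃ K : ℝ, 0 < K ∧ (∀ h ∈ birmanSeries Γ, h ∈ D →
      ‖P h‖ ≤ K ∧ ∀ v, N h v ≤ K * ‖v‖ ∧ ‖v‖ ≤ K * N h v) := by
  have hK : IsCompact (birmanSeries Γ ∩ D) := hD.inter_left bs_closed
  have hent : ∀ i j : Fin d, ∃ b : ℝ, ∀ h ∈ birmanSeries Γ ∩ D, ‖P h i j‖ ≤ b := by
    intro i j
    apply hK.exists_bound_of_continuousOn
    have h1 : ContinuousOn P (birmanSeries Γ ∩ D) := H.continuous_P.mono Set.inter_subset_left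
    exact (continuousOn_pi.mp (continuousOn_pi.mp h1 i)) j
  choose b hb using hent
  set b0 : ℝ := ∑ i, ∑ j, |b i j| with hb0
  have hb1 : ∀ i j, b i j ≤ b0 := by
    intro i j
    calc b i j ≤ |b i j| := le_abs_self _
      _ ≤ ∑ j, |b i j| := Finset.single_le_sum (f := fun j => |b i j|)
          (fun _ _ => abs_nonneg _) (Finset.mem_univ j)
      _ ≤ b0 := Finset.single_le_sum (f := fun i => ∑ j, |b i j|)
          (fun _ _ => Finset.sum_nonneg fun _ _ => abs_nonneg _) (Finset.mem_univ i)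
  have hb00 : 0 ≤ b0 := Finset.sum_nonneg fun _ _ => Finset.sum_nonneg fun _ _ => abs_nonneg _
  have hK2 : IsCompact ((birmanSeries Γ ∩ D) ×ˢ (Metric.sphere (0 : Fin d → ℂ) 1)) :=
    hK.prod (isCompact_sphere _ _)
  have hcN : ContinuousOn (fun p : SL(2, ℝ) × (Fin d → ℂ) => N p.1 p.2)
      ((birmanSeries Γ ∩ D) ×ˢ (Metric.sphere (0 : Fin d → ℂ) 1)) :=
    H.continuous_N.mono fun p hp => ⟨hp.1.1, trivial⟩
  have hne : ∀ p ∈ ((birmanSeries Γ ∩ D) ×ˢ (Metric.sphere (0 : Fin d → ℂ) 1)),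
      N p.1 p.2 ≠ 0 := by
    rintro ⟨h, v⟩ ⟨hh, hv⟩
    refine (H.N_pos hh.1 ?_).ne'
    rintro h0
    have : (v : Fin d → ℂ) = 0 := h0
    rw [mem_sphere_zero_iff_norm, this, norm_zero] at hv
    exact zero_ne_one hv
  obtain ⟨K1, hK1⟩ := hK2.exists_bound_of_continuousOn hcN
  obtain ⟨K2, hK2'⟩ := hK2.exists_bound_of_continuousOn (hcN.inv₀ hne)
  refine ⟨d * b0 + |K1| + |K2| + 1, by positivity, ?_⟩
  intro h hh hhD
  refine ⟨?_, ?_⟩
  · have := norm_le_of_entries hb00 (A := P h) fun i j => (hb i j h ⟨hh, hhD⟩).trans (hb1 i j)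
    have h1 := abs_nonneg K1
    have h2 := abs_nonneg K2
    linarith
  · intro v
    by_cases hv : v = 0
    · rw [hv, H.N_zero hh]; simp
    · have hvn : 0 < ‖v‖ := norm_pos_iff.mpr hv
      set u : Fin d → ℂ := ((‖v‖⁻¹ : ℝ) : ℂ) • v with hu
      have hun : ‖u‖ = 1 := by
        rw [hu, _root_.norm_smul, Complex.norm_real, Real.norm_eq_abs, abs_of_pos (inv_pos.mpr hvn)]
        field_simp
      have hvu : v = ((‖v‖ : ℝ) : ℂ) • u := by
        rw [hu, smul_smul, ← Complex.ofReal_mul, mul_inv_cancel₀ hvn.ne', Complex.ofReal_one,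
          one_smul]
      have hNv : N h v = ‖v‖ * N h u := by
        have h1 := H.norm_smul h hh ((‖v‖ : ℝ) : ℂ) u
        rw [← hvu, Complex.norm_real, Real.norm_eq_abs, abs_of_pos hvn] at h1
        exact h1
      have hmem : (h, u) ∈ ((birmanSeries Γ ∩ D) ×ˢ (Metric.sphere (0 : Fin d → ℂ) 1)) :=
        ⟨⟨hh, hhD⟩, by rw [mem_sphere_zero_iff_norm]; exact hun⟩
      have h1 := hK1 _ hmem
      have h2 := hK2' _ hmem
      have hu0 : u ≠ 0 := by rintro h0; rw [h0, norm_zero] at hun; exact zero_ne_one hun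
      have hNu : 0 < N h u := H.N_pos hh hu0
      simp only [Pi.inv_apply] at h1 h2
      rw [Real.norm_eq_abs, abs_of_pos hNu] at h1
      rw [norm_inv, Real.norm_eq_abs, abs_of_pos hNu] at h2
      have hk1 := le_abs_self K1
      have hk2 := le_abs_self K2
      have hk1' := abs_nonneg K1
      have hk2' := abs_nonneg K2
      have hdb : 0 ≤ (d : ℝ) * b0 := by positivity
      constructor
      · rw [hNv, mul_comm]
        exact mul_le_mul_of_nonneg_right (by linarith) hvn.le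
      · rw [hNv]
        have h3 : 1 ≤ (d * b0 + |K1| + |K2| + 1) * N h u := by
          have h4 : (N h u)⁻¹ ≤ d * b0 + |K1| + |K2| + 1 := by linarith
          calc (1 : ℝ) = (N h u)⁻¹ * N h u := by field_simp
            _ ≤ _ := mul_le_mul_of_nonneg_right h4 hNu.le
        calc ‖v‖ = 1 * ‖v‖ := by ring
          _ ≤ ((d * b0 + |K1| + |K2| + 1) * N h u) * ‖v‖ :=
              mul_le_mul_of_nonneg_right h3 hvn.le
          _ = _ := by ring

lemma IsDominatedSplitting.toCoarse (H : IsDominatedSplitting ρ k P N C c)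
    {D : Set SL(2, ℝ)} (hD : IsCompact D) : ∃ C', Coarse D (hatr ρ) k P C' c := by
  obtain ⟨K, hK, hbd⟩ := H.exists_bound hD
  set E : ℝ := ‖(1 : Matrix (Fin d) (Fin d) ℂ)‖ + K with hE
  have hE0 : 0 ≤ E := by positivity
  have hinv : ∀ γ : Γ, (((ρ γ)⁻¹ : SL(d, ℂ)) : Matrix (Fin d) (Fin d) ℂ) = hatr ρ γ⁻¹ := by
    intro γ; rw [hatr_apply, map_inv]
  refine ⟨K + K ^ 2 * |C| * (K * K) * (K * E), ⟨H.c_pos, H.idem, ?_, ?_, H.neg_P, H.flow_P,
    ?_, ?_⟩⟩
  · intro h hh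
    rw [trace_of_idem _ (H.idem h hh), H.rank_P h hh]
  · intro h hh γ
    rw [H.equivariant_P h hh, hinv]
    rfl
  · intro h hh hhD
    have := (hbd h hh hhD).1
    have h2 : 0 ≤ K ^ 2 * |C| * (K * K) * (K * E) := by positivity
    linarith
  · intro h hh hhD h' hh' hhD' γ t ht hgt
    have hexp := Real.exp_pos (-(c * t))
    have hNg : ∀ u, N (h * geo t) u = N h' (hatr ρ γ⁻¹ *ᵥ u) := by
      intro u
      have h1 : N ((γ : SL(2, ℝ)) * h') u = N h' (hatr ρ γ⁻¹ *ᵥ u) := by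
        have h2 := H.equivariant_N h' hh' γ (hatr ρ γ⁻¹ *ᵥ u)
        rw [mulVec_mulVec, ← hatr_apply, sg_mul_inv, one_mulVec] at h2
        exact h2
      rcases hgt with h2 | h2
      · rw [h2, h1]
      · rw [h2, H.neg_N _ (bs_smul hh' γ.2), h1]
    have hPP : hatr ρ γ⁻¹ * P h * hatr ρ γ = P h' := by
      have h1 : P h = hatr ρ γ * P h' * hatr ρ γ⁻¹ := by
        rw [← H.flow_P h hh t]
        rcases hgt with h2 | h2
        · rw [h2, H.equivariant_P h' hh', hinv]; rfl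
        · rw [h2, H.neg_P _ (bs_smul hh' γ.2), H.equivariant_P h' hh', hinv]; rfl
      rw [h1]
      calc hatr ρ γ⁻¹ * (hatr ρ γ * P h' * hatr ρ γ⁻¹) * hatr ρ γ
          = (hatr ρ γ⁻¹ * hatr ρ γ) * P h' * (hatr ρ γ⁻¹ * hatr ρ γ) := by noncomm_ring
        _ = P h' := by rw [sg_inv_mul, one_mul, mul_one]
    have hmain : ‖hatr ρ γ⁻¹ * (1 - P h)‖ * ‖P h * hatr ρ γ‖ ≤
        K ^ 2 * |C| * (K * K) * (K * E) * Real.exp (-(c * t)) := by
      apply opNorm_mul_le_of (by positivity)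
      intro x y
      set w := (1 - P h) *ᵥ x with hw
      set v := (P h * hatr ρ γ) *ᵥ y with hv
      have e1 : (hatr ρ γ⁻¹ * (1 - P h)) *ᵥ x = hatr ρ γ⁻¹ *ᵥ w := by rw [hw, mulVec_mulVec]
      rw [e1]
      by_cases hw0 : w = 0
      · rw [hw0, mulVec_zero, norm_zero, zero_mul]; positivity
      by_cases hv0 : v = 0
      · rw [hv0, norm_zero, mul_zero]; positivity
      have hPv : P h *ᵥ v = v := by rw [hv, mulVec_mulVec, ← mul_assoc, H.idem h hh]
      have hPw : P h *ᵥ w = 0 := by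
        rw [hw, mulVec_mulVec, mul_sub, mul_one, H.idem h hh, sub_self, zero_mulVec]
      have hdom := H.dominated h hh v w hv0 hw0 hPv hPw t ht
      have hNw : 0 < N h w := H.N_pos hh hw0
      have hNv : 0 < N h v := H.N_pos hh hv0
      rw [hNg, hNg] at hdom
      have hv2 : hatr ρ γ⁻¹ *ᵥ v = P h' *ᵥ y := by
        rw [hv, mulVec_mulVec, ← mul_assoc, hPP]
      rw [hv2] at hdom
      obtain ⟨hP, hNh⟩ := hbd h hh hhD
      obtain ⟨hP', hNh'⟩ := hbd h' hh' hhD'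
      have b1 : ‖hatr ρ γ⁻¹ *ᵥ w‖ ≤ K * N h' (hatr ρ γ⁻¹ *ᵥ w) := (hNh' _).2
      have b2 : ‖v‖ ≤ K * N h v := (hNh _).2
      have b3 : N h' (P h' *ᵥ y) ≤ K * (K * ‖y‖) := by
        refine ((hNh' _).1).trans (mul_le_mul_of_nonneg_left ?_ hK.le)
        exact (linfty_opNorm_mulVec _ _).trans (mul_le_mul_of_nonneg_right hP' (norm_nonneg _))
      have b4 : N h w ≤ K * (E * ‖x‖) := by
        refine ((hNh _).1).trans (mul_le_mul_of_nonneg_left ?_ hK.le)
        refine (linfty_opNorm_mulVec _ _).trans (mul_le_mul_of_nonneg_right ?_ (norm_nonneg _))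
        exact (norm_sub_le _ _).trans (by linarith)
      have hn1 : 0 ≤ N h' (hatr ρ γ⁻¹ *ᵥ w) := H.N_nonneg hh' _
      have hn2 : 0 ≤ N h' (P h' *ᵥ y) := H.N_nonneg hh' _
      have hdom2 : N h' (hatr ρ γ⁻¹ *ᵥ w) * N h v ≤
          |C| * Real.exp (-(c * t)) * (N h' (P h' *ᵥ y) * N h w) := by
        have h5 : C * Real.exp (-(c * t)) * (N h' (P h' *ᵥ y) / N h v) ≤
            |C| * Real.exp (-(c * t)) * (N h' (P h' *ᵥ y) / N h v) := by
          apply mul_le_mul_of_nonneg_right _ (by positivity)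
          exact mul_le_mul_of_nonneg_right (le_abs_self C) hexp.le
        have h6 := hdom.trans h5
        rw [div_le_iff₀ hNw] at h6
        calc N h' (hatr ρ γ⁻¹ *ᵥ w) * N h v ≤
              (|C| * Real.exp (-(c * t)) * (N h' (P h' *ᵥ y) / N h v) * N h w) * N h v :=
              mul_le_mul_of_nonneg_right h6 hNv.le
          _ = _ := by field_simp
      calc ‖hatr ρ γ⁻¹ *ᵥ w‖ * ‖v‖ ≤ (K * N h' (hatr ρ γ⁻¹ *ᵥ w)) * (K * N h v) :=
            mul_le_mul b1 b2 (norm_nonneg _) (by positivity)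
        _ = K ^ 2 * (N h' (hatr ρ γ⁻¹ *ᵥ w) * N h v) := by ring
        _ ≤ K ^ 2 * (|C| * Real.exp (-(c * t)) * (N h' (P h' *ᵥ y) * N h w)) :=
            mul_le_mul_of_nonneg_left hdom2 (by positivity)
        _ ≤ K ^ 2 * (|C| * Real.exp (-(c * t)) * ((K * (K * ‖y‖)) * (K * (E * ‖x‖)))) := by
            apply mul_le_mul_of_nonneg_left _ (by positivity)
            apply mul_le_mul_of_nonneg_left _ (by positivity)
            exact mul_le_mul b3 b4 hNw.le (by positivity)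
        _ = K ^ 2 * |C| * (K * K) * (K * E) * Real.exp (-(c * t)) * ‖x‖ * ‖y‖ := by ring
    refine hmain.trans (mul_le_mul_of_nonneg_right ?_ hexp.le)
    linarith

end tocoarse
end Pool.Agent.SimpleAnosov
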