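import Pool.Agent.H55.SA.Cone3

/-!
# Transfer of a dominated splitting to a semisimple representation with the same character
-/

open Matrix Filter Topology Polynomial
open scoped MatrixGroups Matrix.Norms.Operator

namespace Pool.Agent.SimpleAnosov

section transfer
variable {d k : ℕ} {Γ : Subgroup SL(2, ℝ)} {D : Set SL(2, ℝ)}
  {ρ : Γ →* Matrix (Fin d) (Fin d) ℂ} {P : SL(2, ℝ) → Matrix (Fin d) (Fin d) ℂ} {C c : ℝ}

lemma span_mul_mem {G : Type*} [Group G] (ρ : G →* Matrix (Fin d) (Fin d) ℂ)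
    {a b : Matrix (Fin d) (Fin d) ℂ} (ha : a ∈ Submodule.span ℂ (Set.range ρ))
    (hb : b ∈ Submodule.span ℂ (Set.range ρ)) : a * b ∈ Submodule.span ℂ (Set.range ρ) := by
  induction ha using Submodule.span_induction with
  | mem x hx =>
    obtain ⟨g, rfl⟩ := hx
    induction hb using Submodule.span_induction with
    | mem y hy =>
      obtain ⟨h, rfl⟩ := hy
      exact Submodule.subset_span ⟨g * h, map_mul _ _ _⟩
    | zero => rw [mul_zero]; exact Submodule.zero_mem _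
    | add y z _ _ hy hz => rw [mul_add]; exact Submodule.add_mem _ hy hz
    | smul c y _ hy => rw [mul_smul_comm]; exact Submodule.smul_mem _ _ hy
  | zero => rw [zero_mul]; exact Submodule.zero_mem _
  | add y z _ _ hy hz => rw [add_mul]; exact Submodule.add_mem _ hy hz
  | smul c y _ hy => rw [smul_mul_assoc]; exact Submodule.smul_mem _ _ hy

lemma span_one_mem {G : Type*} [Group G] (ρ : G →* Matrix (Fin d) (Fin d) ℂ) :
    (1 : Matrix (Fin d) (Fin d) ℂ) ∈ Submodule.span ℂ (Set.range ρ) :=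
  Submodule.subset_span ⟨1, map_one _⟩

lemma span_aeval_mem {G : Type*} [Group G] (ρ : G →* Matrix (Fin d) (Fin d) ℂ)
    {B : Matrix (Fin d) (Fin d) ℂ} (hB : B ∈ Submodule.span ℂ (Set.range ρ)) (p : ℂ[X]) :
    aeval B p ∈ Submodule.span ℂ (Set.range ρ) := by
  induction p using Polynomial.induction_on' with
  | add p q hp hq => rw [map_add]; exact Submodule.add_mem _ hp hq
  | monomial n a =>
    rw [aeval_monomial, ← Algebra.smul_def]
    apply Submodule.smul_mem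
    induction n with
    | zero => rw [pow_zero]; exact span_one_mem ρ
    | succ n ih => rw [pow_succ]; exact span_mul_mem ρ ih hB

lemma Coarse.mem_span (H : Coarse D ρ k P C c)
    (hcov : ∀ g : SL(2, ℝ), ∃ γ ∈ Γ, ∃ x ∈ D, g = γ * x)
    (hP : ContinuousOn P (birmanSeries Γ)) {h : SL(2, ℝ)} (hh : h ∈ birmanSeries Γ) :
    P h ∈ Submodule.span ℂ (Set.range ρ) := by
  have h1 : Set.MapsTo P {h | IsSimpleClosed Γ h}
      (Submodule.span ℂ (Set.range ρ) : Set (Matrix (Fin d) (Fin d) ℂ)) := by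
    intro h hh
    obtain ⟨δ, hδ, x, hx, rfl⟩ := hcov h
    have hxs : IsSimpleClosed Γ x := by
      have := simpleClosed_smul hh (Γ.inv_mem hδ)
      rwa [inv_mul_cancel_left] at this
    have hxb := bs_of_simple hxs
    have hPx : P x ∈ Submodule.span ℂ (Set.range ρ) := by
      obtain ⟨⟨g, hg, l, hl, hgl⟩, -⟩ := hxs
      have hcom := H.commute_of_frame' hxb (γ := ⟨g, hg⟩) hgl
      obtain ⟨p, hp⟩ := proj_mem_aeval (ρ (⟨g, hg⟩ : Γ)⁻¹) (P x) (H.idem x hxb) hcom (by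
        intro μ v w hv hw hPv hPw hBv hBw
        exact lt_irrefl _ (H.eig_lt hxb hx hl (γ := ⟨g, hg⟩) hgl hv hw hPv hPw hBv hBw))
      rw [← hp]
      exact span_aeval_mem ρ (Submodule.subset_span ⟨_, rfl⟩) p
    change P (δ * x) ∈ Submodule.span ℂ (Set.range ρ)
    have := H.equivariant x hxb ⟨δ, hδ⟩
    rw [this]
    exact span_mul_mem ρ (span_mul_mem ρ (Submodule.subset_span ⟨_, rfl⟩) hPx)
      (Submodule.subset_span ⟨_, rfl⟩)
  have h2 := h1.closure_of_continuousOn hP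
  have h3 : IsClosed (Submodule.span ℂ (Set.range ρ) : Set (Matrix (Fin d) (Fin d) ℂ)) :=
    Submodule.closed_of_finiteDimensional _
  rw [h3.closure_eq] at h2
  exact h2 hh

lemma exists_norm_bound (Θ : Matrix (Fin d) (Fin d) ℂ →ₗ[ℂ] Matrix (Fin d) (Fin d) ℂ) :
    ∃ K : ℝ, 0 ≤ K ∧ ∀ A, ‖Θ A‖ ≤ K * ‖A‖ := by
  refine ⟨∑ i, ∑ j, ‖Θ (Matrix.single i j 1)‖, Finset.sum_nonneg fun _ _ =>
    Finset.sum_nonneg fun _ _ => norm_nonneg _, fun A => ?_⟩
  have hent : ∀ i j, ‖A i j‖ ≤ ‖A‖ := by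
    intro i j
    have h1 := linfty_opNorm_mulVec A (Pi.single j 1)
    have h2 := norm_le_pi_norm (A *ᵥ Pi.single j 1) i
    have h3 : (A *ᵥ Pi.single j 1) i = A i j := by simp
    have h4 : ‖(Pi.single j 1 : Fin d → ℂ)‖ ≤ 1 := by
      rw [pi_norm_le_iff_of_nonneg zero_le_one]
      intro a
      by_cases haj : a = j
      · subst haj; simp
      · rw [Pi.single_eq_of_ne haj]; simp
    rw [h3] at h2
    calc ‖A i j‖ ≤ ‖A‖ * ‖(Pi.single j 1 : Fin d → ℂ)‖ := h2.trans h1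
      _ ≤ ‖A‖ * 1 := mul_le_mul_of_nonneg_left h4 (norm_nonneg _)
      _ = ‖A‖ := mul_one _
  have hA : A = ∑ i, ∑ j, A i j • (Matrix.single i j (1 : ℂ)) := by
    conv_lhs => rw [matrix_eq_sum_single A]
    refine Finset.sum_congr rfl fun i _ => Finset.sum_congr rfl fun j _ => ?_
    rw [Matrix.smul_single, smul_eq_mul, mul_one]
  have h5 : Θ A = ∑ i, ∑ j, A i j • Θ (Matrix.single i j (1 : ℂ)) := by
    conv_lhs => rw [hA]
    simp only [map_sum, map_smul]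
  rw [h5, Finset.sum_mul]
  refine (norm_sum_le _ _).trans (Finset.sum_le_sum fun i _ => ?_)
  rw [Finset.sum_mul]
  refine (norm_sum_le _ _).trans (Finset.sum_le_sum fun j _ => ?_)
  rw [norm_smul, mul_comm]
  exact mul_le_mul_of_nonneg_left (hent i j) (norm_nonneg _)

lemma Coarse.transfer (H : Coarse D ρ k P C c)
    (hcov : ∀ g : SL(2, ℝ), ∃ γ ∈ Γ, ∃ x ∈ D, g = γ * x)
    (hP : ContinuousOn P (birmanSeries Γ)) (S : Finset Γ)
    (hS : Submonoid.closure (S : Set Γ) = ⊤) (σ : Γ →* Matrix (Fin d) (Fin d) ℂ)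
    (htr : ∀ g, (σ g).trace = (ρ g).trace) (hss : OrthSS (fun s : S => σ s)) :
    ∃ P' C', Coarse D σ k P' C' c := by
  obtain ⟨Θ, hΘg, hΘm, hΘt⟩ := theta S hS ρ σ htr hss
  obtain ⟨K, hK, hΘK⟩ := exists_norm_bound Θ
  have hmem : ∀ h ∈ birmanSeries Γ, P h ∈ Submodule.span ℂ (Set.range ρ) :=
    fun h hh => H.mem_span hcov hP hh
  have hg : ∀ g, ρ g ∈ Submodule.span ℂ (Set.range ρ) := fun g => Submodule.subset_span ⟨g, rfl⟩
  have hΘ1 : Θ 1 = 1 := by
    have := hΘg 1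
    rwa [map_one ρ, map_one σ] at this
  refine ⟨fun h => Θ (P h), K * |C| + K ^ 2 * |C|, ⟨H.c_pos, ?_, ?_, ?_, ?_, ?_, ?_, ?_⟩⟩
  · intro h hh
    rw [← hΘm _ (hmem h hh) _ (hmem h hh), H.idem h hh]
  · intro h hh
    rw [hΘt _ (hmem h hh), H.trace_P h hh]
  · intro h hh γ
    change Θ (P ((γ : SL(2, ℝ)) * h)) = σ γ * Θ (P h) * σ γ⁻¹
    rw [H.equivariant h hh, hΘm _ (span_mul_mem ρ (hg γ) (hmem h hh)) _ (hg _),
      hΘm _ (hg γ) _ (hmem h hh), hΘg, hΘg]
  · intro h hh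
    change Θ (P (-h)) = Θ (P h)
    rw [H.neg_P h hh]
  · intro h hh t
    change Θ (P (h * geo t)) = Θ (P h)
    rw [H.flow h hh]
  · intro h hh hhD
    have h1 := hΘK (P h)
    have h2 := H.bound h hh hhD
    have h3 : K * ‖P h‖ ≤ K * |C| := mul_le_mul_of_nonneg_left (h2.trans (le_abs_self C)) hK
    have h4 : 0 ≤ K ^ 2 * |C| := by positivity
    change ‖Θ (P h)‖ ≤ _
    linarith
  · intro h hh hhD h' hh' hhD' γ t ht hgt
    have hexp := Real.exp_pos (-(c * t))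
    have h1 := H.dom h hh hhD h' hh' hhD' γ t ht hgt
    have e1 : σ γ⁻¹ * (1 - Θ (P h)) = Θ (ρ γ⁻¹ * (1 - P h)) := by
      rw [hΘm _ (hg _) _ (Submodule.sub_mem _ (span_one_mem ρ) (hmem h hh)), map_sub, hΘ1, hΘg]
    have e2 : Θ (P h) * σ γ = Θ (P h * ρ γ) := by
      rw [hΘm _ (hmem h hh) _ (hg _), hΘg]
    change ‖σ γ⁻¹ * (1 - Θ (P h))‖ * ‖Θ (P h) * σ γ‖ ≤ _
    rw [e1, e2]
    calc ‖Θ (ρ γ⁻¹ * (1 - P h))‖ * ‖Θ (P h * ρ γ)‖ ≤
          (K * ‖ρ γ⁻¹ * (1 - P h)‖) * (K * ‖P h * ρ γ‖) :=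
          mul_le_mul (hΘK _) (hΘK _) (norm_nonneg _) (by positivity)
      _ = K ^ 2 * (‖ρ γ⁻¹ * (1 - P h)‖ * ‖P h * ρ γ‖) := by ring
      _ ≤ K ^ 2 * (C * Real.exp (-(c * t))) := mul_le_mul_of_nonneg_left h1 (by positivity)
      _ ≤ K ^ 2 * (|C| * Real.exp (-(c * t))) := by
          apply mul_le_mul_of_nonneg_left _ (by positivity)
          exact mul_le_mul_of_nonneg_right (le_abs_self C) hexp.le
      _ ≤ _ := by
          have : 0 ≤ K * |C| * Real.exp (-(c * t)) := by positivity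
          nlinarith

end transfer
end Pool.Agent.SimpleAnosov
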