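import Pool.Agent.H55.SA.Cone4

/-!
# The cone argument
-/

open Matrix Filter Topology
open scoped MatrixGroups Matrix.Norms.Operator

namespace Pool.Agent.SimpleAnosov

section cone
variable {d : ℕ}

/-- exponential growth bound -/
def SR (M : Matrix (Fin d) (Fin d) ℂ) (R : ℝ) : Prop := ∃ A : ℝ, ∀ j : ℕ, ‖M ^ j‖ ≤ A * R ^ j

lemma cone_step {P P' B Bi B' : Matrix (Fin d) (Fin d) ℂ} {C δ : ℝ} (hBBi : Bi * B = 1)
    (hBP : B * P = P' * B) (hPP : P * P = P) (hP1 : ‖P'‖ ≤ C) (hP2 : ‖1 - P'‖ ≤ C)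
    (hμ : 0 < ‖P * Bi‖) (hνμ : ‖B * (1 - P)‖ * ‖P * Bi‖ ≤ 1 / 4) (hδ : ‖B' - B‖ ≤ δ)
    (hδμ : 2 * δ * C * ‖P * Bi‖ ≤ 1 / 4) (x : Fin d → ℂ)
    (hx : ‖(1 - P) *ᵥ x‖ ≤ ‖P *ᵥ x‖) :
    ‖(1 - P') *ᵥ (B' *ᵥ x)‖ ≤ ‖P' *ᵥ (B' *ᵥ x)‖ ∧
      (3 / 4) / ‖P * Bi‖ * ‖P *ᵥ x‖ ≤ ‖P' *ᵥ (B' *ᵥ x)‖ := by
  set μ := ‖P * Bi‖ with hμd
  set a := ‖P *ᵥ x‖ with ha
  have ha0 : 0 ≤ a := norm_nonneg _
  have hC0 : 0 ≤ C := (norm_nonneg _).trans hP1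
  have hδ0 : 0 ≤ δ := (norm_nonneg _).trans hδ
  have h1 : a / μ ≤ ‖(B * P) *ᵥ x‖ := by
    rw [div_le_iff₀ hμ, mul_comm]
    have e : P *ᵥ x = (P * Bi) *ᵥ ((B * P) *ᵥ x) := by
      rw [mulVec_mulVec]
      congr 1
      calc P = P * P := hPP.symm
        _ = P * (Bi * B) * P := by rw [hBBi, mul_one]
        _ = P * Bi * (B * P) := by noncomm_ring
    calc a = ‖(P * Bi) *ᵥ ((B * P) *ᵥ x)‖ := by rw [ha, ← e]
      _ ≤ μ * ‖(B * P) *ᵥ x‖ := linfty_opNorm_mulVec _ _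
  have hx2 : ‖x‖ ≤ 2 * a := by
    have e : x = P *ᵥ x + (1 - P) *ᵥ x := by rw [sub_mulVec, one_mulVec]; abel
    calc ‖x‖ = ‖P *ᵥ x + (1 - P) *ᵥ x‖ := by rw [← e]
      _ ≤ ‖P *ᵥ x‖ + ‖(1 - P) *ᵥ x‖ := norm_add_le _ _
      _ ≤ 2 * a := by linarith
  have herr : ∀ Q : Matrix (Fin d) (Fin d) ℂ, ‖Q‖ ≤ C → ‖Q *ᵥ ((B' - B) *ᵥ x)‖ ≤
      (1 / 4) * (a / μ) := by
    intro Q hQ
    have h2 : 2 * δ * C ≤ (1 / 4) / μ := by rw [le_div_iff₀ hμ]; exact hδμ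
    calc ‖Q *ᵥ ((B' - B) *ᵥ x)‖ ≤ ‖Q‖ * ‖(B' - B) *ᵥ x‖ := linfty_opNorm_mulVec _ _
      _ ≤ C * (δ * (2 * a)) := by
          refine mul_le_mul hQ ?_ (norm_nonneg _) hC0
          exact (linfty_opNorm_mulVec _ _).trans (mul_le_mul hδ hx2 (norm_nonneg _) hδ0)
      _ = (2 * δ * C) * a := by ring
      _ ≤ ((1 / 4) / μ) * a := mul_le_mul_of_nonneg_right h2 ha0
      _ = (1 / 4) * (a / μ) := by ring
  have e1 : P' *ᵥ (B' *ᵥ x) = (B * P) *ᵥ x + P' *ᵥ ((B' - B) *ᵥ x) := by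
    rw [mulVec_mulVec, mulVec_mulVec, hBP, ← add_mulVec]
    congr 1
    noncomm_ring
  have e2 : (1 - P') *ᵥ (B' *ᵥ x) = (B * (1 - P)) *ᵥ ((1 - P) *ᵥ x) +
      (1 - P') *ᵥ ((B' - B) *ᵥ x) := by
    rw [mulVec_mulVec, mulVec_mulVec, mulVec_mulVec, ← add_mulVec]
    congr 1
    have hQQ : (1 - P) * (1 - P) = 1 - P := by
      rw [mul_sub, mul_one, sub_mul, one_mul, hPP, sub_self, sub_zero]
    calc (1 - P') * B' = (1 - P') * B + (1 - P') * (B' - B) := by noncomm_ring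
      _ = B * ((1 - P) * (1 - P)) + (1 - P') * (B' - B) := by
          rw [hQQ]
          congr 1
          rw [sub_mul, one_mul, ← hBP, mul_sub, mul_one]
      _ = _ := by rw [mul_assoc]
  have hg : (3 / 4) * (a / μ) ≤ ‖P' *ᵥ (B' *ᵥ x)‖ := by
    rw [e1]
    have h3 : ‖(B * P) *ᵥ x‖ ≤ ‖(B * P) *ᵥ x + P' *ᵥ ((B' - B) *ᵥ x)‖ +
        ‖P' *ᵥ ((B' - B) *ᵥ x)‖ := by
      have := norm_sub_le ((B * P) *ᵥ x + P' *ᵥ ((B' - B) *ᵥ x)) (P' *ᵥ ((B' - B) *ᵥ x))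
      rwa [add_sub_cancel_right] at this
    have h4 := herr P' hP1
    linarith
  have hb : ‖(1 - P') *ᵥ (B' *ᵥ x)‖ ≤ (1 / 2) * (a / μ) := by
    rw [e2]
    have h4 := herr (1 - P') hP2
    have h5 : ‖(B * (1 - P)) *ᵥ ((1 - P) *ᵥ x)‖ ≤ (1 / 4) * (a / μ) := by
      have h6 : ‖B * (1 - P)‖ ≤ (1 / 4) / μ := by rw [le_div_iff₀ hμ]; exact hνμ
      calc ‖(B * (1 - P)) *ᵥ ((1 - P) *ᵥ x)‖ ≤ ‖B * (1 - P)‖ * ‖(1 - P) *ᵥ x‖ :=
            linfty_opNorm_mulVec _ _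
        _ ≤ ((1 / 4) / μ) * a := mul_le_mul h6 hx (norm_nonneg _) (by positivity)
        _ = _ := by ring
    have := norm_add_le ((B * (1 - P)) *ᵥ ((1 - P) *ᵥ x)) ((1 - P') *ᵥ ((B' - B) *ᵥ x))
    linarith
  have hpos : 0 ≤ a / μ := by positivity
  refine ⟨by linarith, ?_⟩
  calc (3 / 4) / μ * a = (3 / 4) * (a / μ) := by ring
    _ ≤ _ := hg

lemma growth_le {Λ a A R : ℝ} (hΛ : 0 < Λ) (ha : 0 < a) (hA : 0 ≤ A)
    (h : ∀ j : ℕ, Λ ^ j * a ≤ A * R ^ j) : Λ ≤ R := by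
  by_contra hcon
  push Not at hcon
  have hA' : 0 < A := by
    have := h 0
    simp only [pow_zero, one_mul, mul_one] at this
    linarith
  rcases le_or_gt R 0 with hR | hR
  · have h1 := h 1
    rw [pow_one, pow_one] at h1
    nlinarith [mul_pos hΛ ha, mul_nonneg hA (neg_nonneg.mpr hR)]
  · have h1 : 1 < Λ / R := by rw [lt_div_iff₀ hR]; linarith
    obtain ⟨n, hn⟩ := pow_unbounded_of_one_lt (A / a) h1
    have h2 := h n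
    have h3 : (Λ / R) ^ n ≤ A / a := by
      rw [div_pow, div_le_div_iff₀ (by positivity) ha]
      exact h2
    linarith

lemma continuous_geo : Continuous geo := by
  refine continuous_induced_rng.mpr ?_
  apply continuous_matrix
  intro i j
  fin_cases i <;> fin_cases j
  · change Continuous fun t : ℝ => Real.exp (t / 2); fun_prop
  · change Continuous fun _ : ℝ => (0 : ℝ); fun_prop
  · change Continuous fun _ : ℝ => (0 : ℝ); fun_prop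
  · change Continuous fun t : ℝ => Real.exp (-(t / 2)); fun_prop

lemma finite_transition {Γ : Subgroup SL(2, ℝ)} (hΓ : IsSurfaceGroup Γ) {D : Set SL(2, ℝ)}
    (hD : IsCompact D) (T : ℝ) :
    {γ : Γ | ∃ x ∈ D, ∃ y ∈ D, ∃ t ∈ Set.Icc T (2 * T),
      x * geo t = (γ : SL(2, ℝ)) * y ∨ x * geo t = -((γ : SL(2, ℝ)) * y)}.Finite := by
  have hc : IsCompact ((fun p : SL(2, ℝ) × ℝ × SL(2, ℝ) => p.1 * geo p.2.1 * (p.2.2)⁻¹) ''
      (D ×ˢ (Set.Icc T (2 * T)) ×ˢ D)) := by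
    apply (hD.prod (isCompact_Icc.prod hD)).image
    exact ((continuous_fst.mul (continuous_geo.comp (continuous_fst.comp continuous_snd)))).mul
      (continuous_inv.comp (continuous_snd.comp continuous_snd))
  have hc' := hc.image continuous_neg_sl
  have h1 := finite_inter hΓ.discrete (hc.union hc')
  refine (h1.preimage (f := fun γ : Γ => (γ : SL(2, ℝ))) Subtype.val_injective.injOn).subset ?_
  rintro γ ⟨x, hx, y, hy, t, ht, h | h⟩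
  · refine ⟨γ.2, Or.inl ⟨(x, t, y), ⟨hx, ht, hy⟩, ?_⟩⟩
    change x * geo t * y⁻¹ = γ
    rw [h, mul_inv_cancel_right]
  · refine ⟨γ.2, Or.inr ⟨_, ⟨(x, t, y), ⟨hx, ht, hy⟩, rfl⟩, ?_⟩⟩
    change -(x * geo t * y⁻¹) = γ
    rw [h, neg_mul, neg_neg, mul_inv_cancel_right]

end cone
end Pool.Agent.SimpleAnosov
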