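import Pool.Agent.H55.SA.Cone5

/-!
# Uniform displacement near a semisimple representation with a coarse dominated splitting
-/

open Matrix Filter Topology
open scoped MatrixGroups Matrix.Norms.Operator

namespace Pool.Agent.SimpleAnosov

section chain
variable {d k : ℕ} {Γ : Subgroup SL(2, ℝ)} {D : Set SL(2, ℝ)}
  {σ : Γ →* Matrix (Fin d) (Fin d) ℂ} {P : SL(2, ℝ) → Matrix (Fin d) (Fin d) ℂ} {C c : ℝ}

/-- transition data along an orbit segment -/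
structure IsChain (Γ : Subgroup SL(2, ℝ)) (D : Set SL(2, ℝ)) (t : ℝ) (x : ℕ → SL(2, ℝ))
    (δ : ℕ → Γ) : Prop where
  memD : ∀ i, x i ∈ D
  memB : ∀ i, x i ∈ birmanSeries Γ
  step : ∀ i, x i * geo t = (((δ i)⁻¹ * δ (i + 1) : Γ) : SL(2, ℝ)) * x (i + 1) ∨
    x i * geo t = -((((δ i)⁻¹ * δ (i + 1) : Γ) : SL(2, ℝ)) * x (i + 1))
  zero : δ 0 = 1

lemma exists_isChain (hcov : ∀ g : SL(2, ℝ), ∃ γ ∈ Γ, ∃ x ∈ D, g = γ * x)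
    {h : SL(2, ℝ)} (hB : h ∈ birmanSeries Γ) (hD : h ∈ D) {γ : Γ} {l t : ℝ} {n : ℕ}
    (hn : 0 < n) (hl : l = n * t)
    (hγ : (γ : SL(2, ℝ)) * h = h * geo l ∨ (γ : SL(2, ℝ)) * h = -(h * geo l)) :
    ∃ x δ, IsChain Γ D t x δ ∧ x 0 = h ∧ x n = h ∧ δ n = γ := by
  have hex : ∀ i : ℕ, ∃ (x : SL(2, ℝ)) (δ : Γ), x ∈ D ∧
      (h * geo (i * t) = (δ : SL(2, ℝ)) * x ∨ h * geo (i * t) = -((δ : SL(2, ℝ)) * x)) ∧
      (i = 0 → x = h ∧ δ = 1) ∧ (i = n → x = h ∧ δ = γ) := by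
    intro i
    by_cases h0 : i = 0
    · refine ⟨h, 1, hD, Or.inl ?_, fun _ => ⟨rfl, rfl⟩, fun h1 => by omega⟩
      subst h0
      have : geo ((0 : ℕ) * t) = 1 := by
        have := geo_nat_mul 0 t
        rwa [pow_zero] at this
      rw [this, mul_one]; simp
    · by_cases h1 : i = n
      · refine ⟨h, γ, hD, ?_, fun h2 => absurd h2 h0, fun _ => ⟨rfl, rfl⟩⟩
        rw [h1, ← hl]
        rcases hγ with h2 | h2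
        · left; exact h2.symm
        · right; rw [h2, neg_neg]
      · obtain ⟨g, hg, x, hx, hgx⟩ := hcov (h * geo (i * t))
        exact ⟨x, ⟨g, hg⟩, hx, Or.inl hgx, fun h2 => absurd h2 h0, fun h2 => absurd h2 h1⟩
  choose x δ hxD hxs h0 h1 using hex
  refine ⟨x, δ, ⟨hxD, ?_, ?_, (h0 0 rfl).2⟩, (h0 0 rfl).1, (h1 n rfl).1, (h1 n rfl).2⟩
  · intro i
    have h2 : h * geo (i * t) ∈ birmanSeries Γ := bs_flow hB _
    have h3 : (((δ i)⁻¹ : Γ) : SL(2, ℝ)) * (h * geo (i * t)) ∈ birmanSeries Γ :=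
      bs_smul h2 ((δ i)⁻¹).2
    rcases hxs i with h4 | h4
    · rw [h4] at h3
      simpa using h3
    · rw [h4] at h3
      have := bs_neg h3
      simpa using this
  · intro i
    have e : geo (((i + 1 : ℕ) : ℝ) * t) = geo (i * t) * geo t := by
      rw [← geo_add]; push_cast; ring_nf
    have hinv : ∀ (g : Γ), ((g⁻¹ : Γ) : SL(2, ℝ)) * (g : SL(2, ℝ)) = 1 := by
      intro g; simp
    have hx : x i = (((δ i)⁻¹ : Γ) : SL(2, ℝ)) * (h * geo (i * t)) ∨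
        x i = -((((δ i)⁻¹ : Γ) : SL(2, ℝ)) * (h * geo (i * t))) := by
      rcases hxs i with h4 | h4
      · left; rw [h4, ← mul_assoc, hinv, one_mul]
      · right; rw [h4, mul_neg, neg_neg, ← mul_assoc, hinv, one_mul]
    have hy := hxs (i + 1)
    rw [e] at hy
    have hmul : ∀ z : SL(2, ℝ), (((δ i)⁻¹ * δ (i + 1) : Γ) : SL(2, ℝ)) * z =
        (((δ i)⁻¹ : Γ) : SL(2, ℝ)) * ((δ (i + 1) : SL(2, ℝ)) * z) := by
      intro z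
      rw [Subgroup.coe_mul, mul_assoc]
    rw [hmul]
    rcases hx with h4 | h4 <;> rcases hy with h5 | h5
    · left; rw [h4, mul_assoc, mul_assoc, h5]
    · right; rw [h4, mul_assoc, mul_assoc, h5, mul_neg]
    · right; rw [h4, neg_mul, mul_assoc, mul_assoc, h5]
    · left; rw [h4, neg_mul, mul_assoc, mul_assoc, h5, mul_neg, neg_neg]

lemma Coarse.intertwine (H : Coarse D σ k P C c) {x y : SL(2, ℝ)} (hx : x ∈ birmanSeries Γ)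
    (hy : y ∈ birmanSeries Γ) {g : Γ} {t : ℝ}
    (h : x * geo t = (g : SL(2, ℝ)) * y ∨ x * geo t = -((g : SL(2, ℝ)) * y)) :
    σ g⁻¹ * P x = P y * σ g⁻¹ := by
  have h1 : P x = σ g * P y * σ g⁻¹ := by
    rw [← H.flow x hx t]
    rcases h with h | h
    · rw [h, H.equivariant y hy]
    · rw [h, H.neg_P _ (bs_smul hy g.2), H.equivariant y hy]
  rw [h1]
  calc σ g⁻¹ * (σ g * P y * σ g⁻¹) = (σ g⁻¹ * σ g) * P y * σ g⁻¹ := by noncomm_ring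
    _ = P y * σ g⁻¹ := by rw [sg_inv_mul, one_mul]

lemma Coarse.intertwine' (H : Coarse D σ k P C c) {x y : SL(2, ℝ)} (hx : x ∈ birmanSeries Γ)
    (hy : y ∈ birmanSeries Γ) {g : Γ} {t : ℝ}
    (h : x * geo t = (g : SL(2, ℝ)) * y ∨ x * geo t = -((g : SL(2, ℝ)) * y)) :
    σ g * P y = P x * σ g := by
  have h1 := H.intertwine hx hy h
  calc σ g * P y = σ g * (P y * σ g⁻¹) * σ g := by
        rw [mul_assoc, mul_assoc, sg_inv_mul, mul_one]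
    _ = σ g * (σ g⁻¹ * P x) * σ g := by rw [h1]
    _ = (σ g * σ g⁻¹) * P x * σ g := by noncomm_ring
    _ = P x * σ g := by rw [sg_mul_inv, one_mul]

variable {ρ' : Γ →* Matrix (Fin d) (Fin d) ℂ} {t : ℝ} {x : ℕ → SL(2, ℝ)} {δ : ℕ → Γ}
  {C1 η : ℝ}

lemma chain_forward (H : Coarse D σ k P C c) (hch : IsChain Γ D t x δ)
    (hP1 : ∀ i, ‖P (x i)‖ ≤ C1) (hP2 : ∀ i, ‖1 - P (x i)‖ ≤ C1)
    (hμ : ∀ i, 0 < ‖P (x i) * σ ((δ i)⁻¹ * δ (i + 1))‖)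
    (hdom : ∀ i, ‖σ ((δ i)⁻¹ * δ (i + 1))⁻¹ * (1 - P (x i))‖ *
      ‖P (x i) * σ ((δ i)⁻¹ * δ (i + 1))‖ ≤ 1 / 4)
    (hη : ∀ i, ‖ρ' ((δ i)⁻¹ * δ (i + 1))⁻¹ - σ ((δ i)⁻¹ * δ (i + 1))⁻¹‖ ≤ η)
    (hημ : ∀ i, 2 * η * C1 * ‖P (x i) * σ ((δ i)⁻¹ * δ (i + 1))‖ ≤ 1 / 4)
    (v : Fin d → ℂ) (hv : ‖(1 - P (x 0)) *ᵥ v‖ ≤ ‖P (x 0) *ᵥ v‖) (n : ℕ) :
    ‖(1 - P (x n)) *ᵥ (ρ' (δ n)⁻¹ *ᵥ v)‖ ≤ ‖P (x n) *ᵥ (ρ' (δ n)⁻¹ *ᵥ v)‖ ∧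
    (∏ j ∈ Finset.range n, (3 / 4) / ‖P (x j) * σ ((δ j)⁻¹ * δ (j + 1))‖) *
      ‖P (x 0) *ᵥ v‖ ≤ ‖P (x n) *ᵥ (ρ' (δ n)⁻¹ *ᵥ v)‖ := by
  induction n with
  | zero =>
    rw [hch.zero, inv_one, map_one, one_mulVec, Finset.prod_range_zero, one_mul]
    exact ⟨hv, le_rfl⟩
  | succ n ih =>
    obtain ⟨ih1, ih2⟩ := ih
    set g := (δ n)⁻¹ * δ (n + 1) with hg
    have hδ : (δ (n + 1))⁻¹ = g⁻¹ * (δ n)⁻¹ := by rw [hg]; group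
    have hxx : ρ' (δ (n + 1))⁻¹ *ᵥ v = ρ' g⁻¹ *ᵥ (ρ' (δ n)⁻¹ *ᵥ v) := by
      rw [hδ, map_mul, mulVec_mulVec]
    rw [hxx]
    obtain ⟨h1, h2⟩ := cone_step (P := P (x n)) (P' := P (x (n + 1))) (B := σ g⁻¹) (Bi := σ g)
      (B' := ρ' g⁻¹) (sg_mul_inv σ g) (H.intertwine (hch.memB n) (hch.memB (n + 1)) (hch.step n))
      (H.idem _ (hch.memB n)) (hP1 (n + 1)) (hP2 (n + 1)) (hμ n) (hdom n) (hη n) (hημ n)
      (ρ' (δ n)⁻¹ *ᵥ v) ih1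
    refine ⟨h1, le_trans ?_ h2⟩
    rw [Finset.prod_range_succ]
    have hpos : 0 ≤ (3 / 4) / ‖P (x n) * σ g‖ := by positivity
    calc _ = ((3 / 4) / ‖P (x n) * σ g‖) *
          ((∏ j ∈ Finset.range n, (3 / 4) / ‖P (x j) * σ ((δ j)⁻¹ * δ (j + 1))‖) *
          ‖P (x 0) *ᵥ v‖) := by rw [← hg]; ring
      _ ≤ _ := mul_le_mul_of_nonneg_left ih2 hpos

lemma chain_backward (H : Coarse D σ k P C c) (hch : IsChain Γ D t x δ)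
    (hP1 : ∀ i, ‖P (x i)‖ ≤ C1) (hP2 : ∀ i, ‖1 - P (x i)‖ ≤ C1)
    (hμ : ∀ i, 0 < ‖σ ((δ i)⁻¹ * δ (i + 1))⁻¹ * (1 - P (x i))‖)
    (hdom : ∀ i, ‖σ ((δ i)⁻¹ * δ (i + 1))⁻¹ * (1 - P (x i))‖ *
      ‖P (x i) * σ ((δ i)⁻¹ * δ (i + 1))‖ ≤ 1 / 4)
    (hη : ∀ i, ‖ρ' ((δ i)⁻¹ * δ (i + 1)) - σ ((δ i)⁻¹ * δ (i + 1))‖ ≤ η)
    (hημ : ∀ i, 2 * η * C1 * ‖σ ((δ i)⁻¹ * δ (i + 1))⁻¹ * (1 - P (x i))‖ ≤ 1 / 4) (n : ℕ) :
    ∀ v : Fin d → ℂ, ‖P (x n) *ᵥ v‖ ≤ ‖(1 - P (x n)) *ᵥ v‖ →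
    ‖P (x 0) *ᵥ (ρ' (δ n) *ᵥ v)‖ ≤ ‖(1 - P (x 0)) *ᵥ (ρ' (δ n) *ᵥ v)‖ ∧
    (∏ j ∈ Finset.range n, (3 / 4) / ‖σ ((δ j)⁻¹ * δ (j + 1))⁻¹ * (1 - P (x j))‖) *
      ‖(1 - P (x n)) *ᵥ v‖ ≤ ‖(1 - P (x 0)) *ᵥ (ρ' (δ n) *ᵥ v)‖ := by
  induction n with
  | zero =>
    intro v hv
    rw [hch.zero, map_one, one_mulVec, Finset.prod_range_zero, one_mul]
    exact ⟨hv, le_rfl⟩
  | succ n ih =>
    intro v hv
    set g := (δ n)⁻¹ * δ (n + 1) with hg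
    have hδ : δ (n + 1) = δ n * g := by rw [hg]; group
    have hxx : ρ' (δ (n + 1)) *ᵥ v = ρ' (δ n) *ᵥ (ρ' g *ᵥ v) := by
      rw [hδ, map_mul, mulVec_mulVec]
    rw [hxx]
    have hint' := H.intertwine' (hch.memB n) (hch.memB (n + 1)) (hch.step n)
    have hint := H.intertwine (hch.memB n) (hch.memB (n + 1)) (hch.step n)
    have e1 : (1 - P (x (n + 1))) * σ g⁻¹ = σ g⁻¹ * (1 - P (x n)) := by
      rw [sub_mul, one_mul, ← hint, mul_sub, mul_one]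
    have e2 : σ g * P (x (n + 1)) = P (x n) * σ g := hint'
    have hQQ : (1 - P (x (n + 1))) * (1 - P (x (n + 1))) = 1 - P (x (n + 1)) := by
      rw [mul_sub, mul_one, sub_mul, one_mul, H.idem _ (hch.memB (n + 1)), sub_self, sub_zero]
    have hs : (1 : Matrix (Fin d) (Fin d) ℂ) - (1 - P (x (n + 1))) = P (x (n + 1)) :=
      sub_sub_cancel _ _
    have hs' : (1 : Matrix (Fin d) (Fin d) ℂ) - (1 - P (x n)) = P (x n) := sub_sub_cancel _ _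
    obtain ⟨h1, h2⟩ := cone_step (P := 1 - P (x (n + 1))) (P' := 1 - P (x n)) (B := σ g)
      (Bi := σ g⁻¹) (B' := ρ' g) (sg_inv_mul σ g)
      (by rw [mul_sub, mul_one, e2, sub_mul, one_mul]) hQQ (hP2 n) (by rw [hs']; exact hP1 n)
      (by rw [e1]; exact hμ n) (by rw [e1, hs, e2, mul_comm]; exact hdom n) (hη n)
      (by rw [e1]; exact hημ n) v (by rw [hs]; exact hv)
    rw [hs'] at h1
    obtain ⟨ih1, ih2⟩ := ih (ρ' g *ᵥ v) h1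
    refine ⟨ih1, le_trans ?_ ih2⟩
    rw [e1] at h2
    rw [Finset.prod_range_succ, mul_assoc]
    apply mul_le_mul_of_nonneg_left h2
    exact Finset.prod_nonneg fun _ _ => by positivity

end chain
end Pool.Agent.SimpleAnosov
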