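import Pool.Agent.H55.SA.Cone6

/-!
# Uniform displacement
-/

open Matrix Filter Topology
open scoped MatrixGroups Matrix.Norms.Operator

namespace Pool.Agent.SimpleAnosov

section displace
variable {d k : ℕ} {Γ : Subgroup SL(2, ℝ)} {D : Set SL(2, ℝ)}
  {σ : Γ →* Matrix (Fin d) (Fin d) ℂ} {P : SL(2, ℝ) → Matrix (Fin d) (Fin d) ℂ} {C c : ℝ}

lemma exists_vec {Q : Matrix (Fin d) (Fin d) ℂ} (hQ : Q ≠ 0) :
    ∃ v : Fin d → ℂ, Q *ᵥ v ≠ 0 := by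
  by_contra hcon
  push Not at hcon
  apply hQ
  apply Matrix.ext_of_mulVec_single
  intro i
  rw [hcon, zero_mulVec]

lemma SR.conj {Γ' : Type*} [Group Γ'] {ρ : Γ' →* Matrix (Fin d) (Fin d) ℂ} {γ : Γ'} {R : ℝ}
    (h : SR (ρ γ) R) (δ : Γ') : SR (ρ (δ * γ * δ⁻¹)) R := by
  obtain ⟨A, hA⟩ := h
  refine ⟨‖ρ δ‖ * A * ‖ρ δ⁻¹‖, fun j => ?_⟩
  rw [← map_pow, conj_pow, map_mul, map_mul, map_pow]
  calc ‖ρ δ * ρ γ ^ j * ρ δ⁻¹‖ ≤ ‖ρ δ‖ * ‖ρ γ ^ j‖ * ‖ρ δ⁻¹‖ :=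
        (norm_mul_le _ _).trans (mul_le_mul_of_nonneg_right (norm_mul_le _ _) (norm_nonneg _))
    _ ≤ ‖ρ δ‖ * (A * R ^ j) * ‖ρ δ⁻¹‖ :=
        mul_le_mul_of_nonneg_right (mul_le_mul_of_nonneg_left (hA j) (norm_nonneg _))
          (norm_nonneg _)
    _ = _ := by ring

/-- Displacement for periodic orbits through `D`. -/
lemma Coarse.displace_aux (H : Coarse D σ k P C c) (hΓ : IsSurfaceGroup Γ) (hD : IsCompact D)
    (hcov : ∀ g : SL(2, ℝ), ∃ γ ∈ Γ, ∃ x ∈ D, g = γ * x) (hk : 1 ≤ k) (hkd : k < d) :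
    ∃ (F : Set Γ) (η K : ℝ), F.Finite ∧ 0 < η ∧ 0 < K ∧
      ∀ ρ' : Γ →* Matrix (Fin d) (Fin d) ℂ, (∀ γ ∈ F, ‖ρ' γ - σ γ‖ ≤ η) →
      ∀ (γ : Γ) (h : SL(2, ℝ)) (l R : ℝ), h ∈ birmanSeries Γ → h ∈ D → 0 < l →
        ((γ : SL(2, ℝ)) * h = h * geo l ∨ (γ : SL(2, ℝ)) * h = -(h * geo l)) →
        SR (ρ' γ) R → SR (ρ' γ⁻¹) R → l ≤ K * (1 + Real.log (1 + |R|)) := by
  -- choose the time step
  obtain ⟨T, hT, hTe⟩ : ∃ T : ℝ, 0 < T ∧ |C| * Real.exp (-(c * T)) ≤ 9 / 64 := by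
    have hlim : Tendsto (fun T : ℝ => |C| * Real.exp (-(c * T))) atTop (𝓝 (|C| * 0)) := by
      apply Tendsto.const_mul
      apply Real.tendsto_exp_neg_atTop_nhds_zero.comp
      exact tendsto_id.const_mul_atTop H.c_pos
    rw [mul_zero] at hlim
    have h1 := hlim.eventually (ge_mem_nhds (show (0 : ℝ) < 9 / 64 by norm_num))
    obtain ⟨T, hT1, hT2⟩ := (h1.and (eventually_gt_atTop 0)).exists
    exact ⟨T, hT2, hT1⟩
  set F0 : Set Γ := {γ : Γ | ∃ x ∈ D, ∃ y ∈ D, ∃ t ∈ Set.Icc T (2 * T),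
      x * geo t = (γ : SL(2, ℝ)) * y ∨ x * geo t = -((γ : SL(2, ℝ)) * y)} with hF0
  have hF0f : F0.Finite := finite_transition hΓ hD T
  set F : Set Γ := F0 ∪ (fun γ => γ⁻¹) '' F0 with hF
  have hFf : F.Finite := hF0f.union (hF0f.image _)
  obtain ⟨κ, hκ⟩ : ∃ κ : ℝ, ∀ γ ∈ F, ‖σ γ‖ ≤ κ := by
    obtain ⟨κ, hκ⟩ := (hFf.image fun γ => ‖σ γ‖).bddAbove
    exact ⟨κ, fun γ hγ => hκ ⟨γ, hγ, rfl⟩⟩
  set κ' := |κ| + 1 with hκ'
  have hκ'0 : 1 ≤ κ' := by rw [hκ']; linarith [abs_nonneg κ]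
  have hκ'b : ∀ γ ∈ F, ‖σ γ‖ ≤ κ' := fun γ hγ => (hκ γ hγ).trans (by
    rw [hκ']; linarith [le_abs_self κ])
  set C1 : ℝ := ‖(1 : Matrix (Fin d) (Fin d) ℂ)‖ + |C| + 1 with hC1
  have hC1' : 1 ≤ C1 := by
    rw [hC1]; linarith [norm_nonneg (1 : Matrix (Fin d) (Fin d) ℂ), abs_nonneg C]
  have hP1 : ∀ h ∈ birmanSeries Γ, h ∈ D → ‖P h‖ ≤ C1 := by
    intro h hh hhD
    have := H.bound h hh hhD
    rw [hC1]
    linarith [norm_nonneg (1 : Matrix (Fin d) (Fin d) ℂ), le_abs_self C]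
  have hP2 : ∀ h ∈ birmanSeries Γ, h ∈ D → ‖1 - P h‖ ≤ C1 := by
    intro h hh hhD
    have h1 := H.bound h hh hhD
    have h2 := norm_sub_le (1 : Matrix (Fin d) (Fin d) ℂ) (P h)
    rw [hC1]
    linarith [le_abs_self C]
  have hPne : ∀ h ∈ birmanSeries Γ, P h ≠ 0 := by
    intro h hh h0
    have := H.trace_P h hh
    rw [h0, trace_zero] at this
    have h2 : (k : ℂ) = 0 := this.symm
    rw [Nat.cast_eq_zero] at h2
    omega
  have hQne : ∀ h ∈ birmanSeries Γ, 1 - P h ≠ 0 := by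
    intro h hh h0
    have h1 := H.trace_P h hh
    have h3 : P h = 1 := (sub_eq_zero.mp h0).symm
    rw [h3, trace_one, Fintype.card_fin] at h1
    have h2 : d = k := by exact_mod_cast h1
    omega
  refine ⟨F, 1 / (8 * C1 * (C1 * κ')), 4 * T, hFf, by positivity, by positivity, ?_⟩
  intro ρ' hρ' γ h l R hB hhD hl hγ hSR1 hSR2
  have hlog : 0 ≤ Real.log (1 + |R|) := Real.log_nonneg (by linarith [abs_nonneg R])
  rcases lt_or_ge l T with hlT | hlT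
  · nlinarith
  -- number of steps
  set n : ℕ := ⌊l / T⌋₊ with hn
  have hn1 : 1 ≤ n := by
    rw [hn]; apply Nat.le_floor; rw [Nat.cast_one, le_div_iff₀ hT]; linarith
  have hn0 : (0 : ℝ) < n := by exact_mod_cast hn1
  have hn2 : (n : ℝ) * T ≤ l := by
    have := Nat.floor_le (show 0 ≤ l / T by positivity)
    rwa [le_div_iff₀ hT] at this
  have hn3 : l ≤ ((n : ℝ) + 1) * T := by
    have := Nat.lt_floor_add_one (l / T)
    rw [div_lt_iff₀ hT] at this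
    exact this.le
  set t : ℝ := l / n with ht
  have htT : T ≤ t := by rw [ht, le_div_iff₀ hn0, mul_comm]; exact hn2
  have ht2T : t ≤ 2 * T := by
    rw [ht, div_le_iff₀ hn0]
    have : (1 : ℝ) ≤ n := by exact_mod_cast hn1
    nlinarith
  have hlt : l = n * t := by rw [ht]; field_simp
  obtain ⟨x, δ, hch, hx0, hxn, hδn⟩ := exists_isChain hcov hB hhD (by omega) hlt hγ
  have hgF0 : ∀ i, (δ i)⁻¹ * δ (i + 1) ∈ F0 := fun i =>
    ⟨x i, hch.memD i, x (i + 1), hch.memD (i + 1), t, ⟨htT, ht2T⟩, hch.step i⟩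
  have hgF : ∀ i, (δ i)⁻¹ * δ (i + 1) ∈ F := fun i => Or.inl (hgF0 i)
  have hgF' : ∀ i, ((δ i)⁻¹ * δ (i + 1))⁻¹ ∈ F := fun i => Or.inr ⟨_, hgF0 i, rfl⟩
  have hxP1 : ∀ i, ‖P (x i)‖ ≤ C1 := fun i => hP1 _ (hch.memB i) (hch.memD i)
  have hxP2 : ∀ i, ‖1 - P (x i)‖ ≤ C1 := fun i => hP2 _ (hch.memB i) (hch.memD i)
  set μ : ℕ → ℝ := fun i => ‖P (x i) * σ ((δ i)⁻¹ * δ (i + 1))‖ with hμ
  set ν : ℕ → ℝ := fun i => ‖σ ((δ i)⁻¹ * δ (i + 1))⁻¹ * (1 - P (x i))‖ with hν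
  have hμpos : ∀ i, 0 < μ i := by
    intro i
    apply norm_pos_iff.mpr
    intro h0
    apply hPne _ (hch.memB i)
    calc P (x i) = (P (x i) * σ ((δ i)⁻¹ * δ (i + 1))) * σ ((δ i)⁻¹ * δ (i + 1))⁻¹ := by
          rw [mul_assoc, sg_mul_inv, mul_one]
      _ = 0 := by rw [h0, zero_mul]
  have hνpos : ∀ i, 0 < ν i := by
    intro i
    apply norm_pos_iff.mpr
    intro h0
    apply hQne _ (hch.memB i)
    calc 1 - P (x i) = σ ((δ i)⁻¹ * δ (i + 1)) * (σ ((δ i)⁻¹ * δ (i + 1))⁻¹ * (1 - P (x i))) := by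
          rw [← mul_assoc, sg_mul_inv, one_mul]
      _ = 0 := by rw [h0, mul_zero]
  have hνμ : ∀ i, ν i * μ i ≤ 9 / 64 := by
    intro i
    have h1 := H.dom (x i) (hch.memB i) (hch.memD i) (x (i + 1)) (hch.memB _) (hch.memD _)
      ((δ i)⁻¹ * δ (i + 1)) t (by linarith) (hch.step i)
    refine h1.trans (le_trans ?_ hTe)
    have h2 : Real.exp (-(c * t)) ≤ Real.exp (-(c * T)) := by
      apply Real.exp_le_exp.mpr
      have := H.c_pos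
      nlinarith
    calc C * Real.exp (-(c * t)) ≤ |C| * Real.exp (-(c * t)) :=
          mul_le_mul_of_nonneg_right (le_abs_self C) (Real.exp_pos _).le
      _ ≤ _ := mul_le_mul_of_nonneg_left h2 (abs_nonneg C)
  have hμκ : ∀ i, μ i ≤ C1 * κ' := fun i =>
    (norm_mul_le _ _).trans (mul_le_mul (hxP1 i) (hκ'b _ (hgF i)) (norm_nonneg _) (by linarith))
  have hνκ : ∀ i, ν i ≤ C1 * κ' := fun i => by
    rw [mul_comm]
    exact (norm_mul_le _ _).trans (mul_le_mul (hκ'b _ (hgF' i)) (hxP2 i) (norm_nonneg _)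
      (by linarith))
  have hηb : ∀ a : ℝ, a ≤ C1 * κ' → 2 * (1 / (8 * C1 * (C1 * κ'))) * C1 * a ≤ 1 / 4 := by
    intro a ha
    have hpos : 0 < C1 * κ' := by positivity
    calc 2 * (1 / (8 * C1 * (C1 * κ'))) * C1 * a ≤
          2 * (1 / (8 * C1 * (C1 * κ'))) * C1 * (C1 * κ') :=
          mul_le_mul_of_nonneg_left ha (by positivity)
      _ = 1 / 4 := by field_simp; norm_num
  -- the two growth rates
  set Λ : ℝ := ∏ j ∈ Finset.range n, (3 / 4) / μ j with hΛ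
  set Λ' : ℝ := ∏ j ∈ Finset.range n, (3 / 4) / ν j with hΛ'
  have hΛpos : 0 < Λ := Finset.prod_pos fun j _ => div_pos (by norm_num) (hμpos j)
  have hΛ'pos : 0 < Λ' := Finset.prod_pos fun j _ => div_pos (by norm_num) (hνpos j)
  have hprod : 4 ^ n ≤ Λ * Λ' := by
    rw [hΛ, hΛ', ← Finset.prod_mul_distrib]
    calc (4 : ℝ) ^ n = ∏ _j ∈ Finset.range n, (4 : ℝ) := by simp
      _ ≤ _ := by
          apply Finset.prod_le_prod (fun _ _ => by norm_num)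
          intro j _
          have h1 := hνμ j
          have h2 := hμpos j
          have h3 := hνpos j
          rw [div_mul_div_comm, le_div_iff₀ (by positivity)]
          nlinarith
  -- forward growth
  have hstepF : ∀ v : Fin d → ℂ, ‖(1 - P h) *ᵥ v‖ ≤ ‖P h *ᵥ v‖ →
      ‖(1 - P h) *ᵥ (ρ' γ⁻¹ *ᵥ v)‖ ≤ ‖P h *ᵥ (ρ' γ⁻¹ *ᵥ v)‖ ∧
      Λ * ‖P h *ᵥ v‖ ≤ ‖P h *ᵥ (ρ' γ⁻¹ *ᵥ v)‖ := by
    intro v hv
    have := chain_forward (ρ' := ρ') (η := 1 / (8 * C1 * (C1 * κ'))) H hch hxP1 hxP2 hμpos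
      (fun i => (hνμ i).trans (by norm_num)) (fun i => hρ' _ (hgF' i))
      (fun i => hηb _ (hμκ i)) v (by rw [hx0]; exact hv) n
    rw [hxn, hx0, hδn] at this
    exact this
  have hstepB : ∀ v : Fin d → ℂ, ‖P h *ᵥ v‖ ≤ ‖(1 - P h) *ᵥ v‖ →
      ‖P h *ᵥ (ρ' γ *ᵥ v)‖ ≤ ‖(1 - P h) *ᵥ (ρ' γ *ᵥ v)‖ ∧
      Λ' * ‖(1 - P h) *ᵥ v‖ ≤ ‖(1 - P h) *ᵥ (ρ' γ *ᵥ v)‖ := by
    intro v hv
    have := chain_backward (ρ' := ρ') (η := 1 / (8 * C1 * (C1 * κ'))) H hch hxP1 hxP2 hνpos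
      (fun i => (hνμ i).trans (by norm_num)) (fun i => hρ' _ (hgF i))
      (fun i => hηb _ (hνκ i)) n v (by rw [hxn]; exact hv)
    rw [hxn, hx0, hδn] at this
    exact this
  have hΛR : Λ ≤ R := by
    obtain ⟨v0, hv0⟩ := exists_vec (hPne h hB)
    set v := P h *ᵥ v0 with hv
    have hPv : P h *ᵥ v = v := by rw [hv, mulVec_mulVec, H.idem h hB]
    have hQv : (1 - P h) *ᵥ v = 0 := by rw [sub_mulVec, one_mulVec, hPv, sub_self]
    have hit : ∀ j : ℕ, ‖(1 - P h) *ᵥ ((ρ' γ⁻¹) ^ j *ᵥ v)‖ ≤ ‖P h *ᵥ ((ρ' γ⁻¹) ^ j *ᵥ v)‖ ∧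
        Λ ^ j * ‖v‖ ≤ ‖P h *ᵥ ((ρ' γ⁻¹) ^ j *ᵥ v)‖ := by
      intro j
      induction j with
      | zero =>
        rw [pow_zero, one_mulVec, pow_zero, one_mul, hPv, hQv, norm_zero]
        exact ⟨norm_nonneg _, le_rfl⟩
      | succ j ih =>
        have e : (ρ' γ⁻¹) ^ (j + 1) *ᵥ v = ρ' γ⁻¹ *ᵥ ((ρ' γ⁻¹) ^ j *ᵥ v) := by
          rw [pow_succ', ← mulVec_mulVec]
        rw [e]
        obtain ⟨h1, h2⟩ := hstepF _ ih.1
        refine ⟨h1, le_trans ?_ h2⟩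
        rw [pow_succ', mul_assoc]
        exact mul_le_mul_of_nonneg_left ih.2 hΛpos.le
    obtain ⟨A, hA⟩ := hSR2
    have hA0 : 0 ≤ A := by
      have := hA 0
      rw [pow_zero, pow_zero, mul_one] at this
      exact (norm_nonneg _).trans this
    refine growth_le (a := ‖v‖) (A := C1 * A * ‖v‖) hΛpos (norm_pos_iff.mpr hv0)
      (by positivity) fun j => (hit j).2.trans ?_
    calc ‖P h *ᵥ ((ρ' γ⁻¹) ^ j *ᵥ v)‖ ≤ ‖P h‖ * (‖(ρ' γ⁻¹) ^ j‖ * ‖v‖) :=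
          (linfty_opNorm_mulVec _ _).trans
            (mul_le_mul_of_nonneg_left (linfty_opNorm_mulVec _ _) (norm_nonneg _))
      _ ≤ C1 * ((A * R ^ j) * ‖v‖) := by
          refine mul_le_mul (hP1 h hB hhD) ?_ (by positivity) (by linarith)
          exact mul_le_mul_of_nonneg_right (hA j) (norm_nonneg _)
      _ = C1 * A * ‖v‖ * R ^ j := by ring
  have hΛ'R : Λ' ≤ R := by
    obtain ⟨v0, hv0⟩ := exists_vec (hQne h hB)
    set v := (1 - P h) *ᵥ v0 with hv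
    have hQv : (1 - P h) *ᵥ v = v := by
      rw [hv, mulVec_mulVec]
      congr 1
      rw [mul_sub, mul_one, sub_mul, one_mul, H.idem h hB, sub_self, sub_zero]
    have hPv : P h *ᵥ v = 0 := by
      rw [hv, mulVec_mulVec, mul_sub, mul_one, H.idem h hB, sub_self, zero_mulVec]
    have hit : ∀ j : ℕ, ‖P h *ᵥ ((ρ' γ) ^ j *ᵥ v)‖ ≤ ‖(1 - P h) *ᵥ ((ρ' γ) ^ j *ᵥ v)‖ ∧
        Λ' ^ j * ‖v‖ ≤ ‖(1 - P h) *ᵥ ((ρ' γ) ^ j *ᵥ v)‖ := by
      intro j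
      induction j with
      | zero =>
        rw [pow_zero, one_mulVec, pow_zero, one_mul, hPv, hQv, norm_zero]
        exact ⟨norm_nonneg _, le_rfl⟩
      | succ j ih =>
        have e : (ρ' γ) ^ (j + 1) *ᵥ v = ρ' γ *ᵥ ((ρ' γ) ^ j *ᵥ v) := by
          rw [pow_succ', ← mulVec_mulVec]
        rw [e]
        obtain ⟨h1, h2⟩ := hstepB _ ih.1
        refine ⟨h1, le_trans ?_ h2⟩
        rw [pow_succ', mul_assoc]
        exact mul_le_mul_of_nonneg_left ih.2 hΛ'pos.le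
    obtain ⟨A, hA⟩ := hSR1
    have hA0 : 0 ≤ A := by
      have := hA 0
      rw [pow_zero, pow_zero, mul_one] at this
      exact (norm_nonneg _).trans this
    refine growth_le (a := ‖v‖) (A := C1 * A * ‖v‖) hΛ'pos (norm_pos_iff.mpr hv0)
      (by positivity) fun j => (hit j).2.trans ?_
    calc ‖(1 - P h) *ᵥ ((ρ' γ) ^ j *ᵥ v)‖ ≤ ‖1 - P h‖ * (‖(ρ' γ) ^ j‖ * ‖v‖) :=
          (linfty_opNorm_mulVec _ _).trans
            (mul_le_mul_of_nonneg_left (linfty_opNorm_mulVec _ _) (norm_nonneg _))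
      _ ≤ C1 * ((A * R ^ j) * ‖v‖) := by
          refine mul_le_mul (hP2 h hB hhD) ?_ (by positivity) (by linarith)
          exact mul_le_mul_of_nonneg_right (hA j) (norm_nonneg _)
      _ = C1 * A * ‖v‖ * R ^ j := by ring
  -- conclusion
  have hR : 0 < R := hΛpos.trans_le hΛR
  have h4 : (4 : ℝ) ^ n ≤ R ^ 2 := by
    calc (4 : ℝ) ^ n ≤ Λ * Λ' := hprod
      _ ≤ R * R := mul_le_mul hΛR hΛ'R hΛ'pos.le hR.le
      _ = R ^ 2 := by ring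
  have h5 : (n : ℝ) * Real.log 4 ≤ 2 * Real.log R := by
    have := Real.log_le_log (by positivity) h4
    rwa [Real.log_pow, Real.log_pow] at this
  have hlog4 : 1 ≤ Real.log 4 := by
    have h6 : Real.exp 1 ≤ 4 := by linarith [Real.exp_one_lt_d9]
    rw [← Real.log_exp 1]
    exact Real.log_le_log (Real.exp_pos _) h6
  have h6 : Real.log R ≤ Real.log (1 + |R|) := by
    apply Real.log_le_log hR
    linarith [le_abs_self R]
  have h7 : (n : ℝ) ≤ 2 * Real.log (1 + |R|) := by nlinarith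
  calc l ≤ ((n : ℝ) + 1) * T := hn3
    _ ≤ (2 * Real.log (1 + |R|) + 1) * T := mul_le_mul_of_nonneg_right (by linarith) hT.le
    _ ≤ 4 * T * (1 + Real.log (1 + |R|)) := by nlinarith

/-- Uniform displacement near `σ`. -/
theorem Coarse.displace (H : Coarse D σ k P C c) (hΓ : IsSurfaceGroup Γ) (hD : IsCompact D)
    (hcov : ∀ g : SL(2, ℝ), ∃ γ ∈ Γ, ∃ x ∈ D, g = γ * x) (hk : 1 ≤ k) (hkd : k < d) :
    ∃ (F : Set Γ) (η K : ℝ), F.Finite ∧ 0 < η ∧ 0 < K ∧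
      ∀ ρ' : Γ →* Matrix (Fin d) (Fin d) ℂ, (∀ γ ∈ F, ‖ρ' γ - σ γ‖ ≤ η) →
      ∀ (γ : Γ) (h : SL(2, ℝ)) (l R : ℝ), IsSimpleClosed Γ h → 0 < l →
        ((γ : SL(2, ℝ)) * h = h * geo l ∨ (γ : SL(2, ℝ)) * h = -(h * geo l)) →
        SR (ρ' γ) R → SR (ρ' γ⁻¹) R → l ≤ K * (1 + Real.log (1 + |R|)) := by
  obtain ⟨F, η, K, hF, hη, hK, hall⟩ := H.displace_aux hΓ hD hcov hk hkd
  refine ⟨F, η, K, hF, hη, hK, ?_⟩
  intro ρ' hρ' γ h l R hh hl hγ h1 h2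
  obtain ⟨δ, hδ, x, hx, rfl⟩ := hcov h
  have hxs : IsSimpleClosed Γ x := by
    have := simpleClosed_smul hh (Γ.inv_mem hδ)
    rwa [inv_mul_cancel_left] at this
  set δ' : Γ := ⟨δ, hδ⟩ with hδ'
  refine hall ρ' hρ' (δ'⁻¹ * γ * δ'⁻¹⁻¹) x l R (bs_of_simple hxs) hx hl ?_ (h1.conj _) ?_
  · have e : ((δ'⁻¹ * γ * δ'⁻¹⁻¹ : Γ) : SL(2, ℝ)) * x = δ⁻¹ * ((γ : SL(2, ℝ)) * (δ * x)) := by
      simp only [Subgroup.coe_mul, Subgroup.coe_inv, hδ', inv_inv]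
      group
    rw [e]
    rcases hγ with h3 | h3
    · left; rw [h3]; group
    · right; rw [h3, mul_neg]; congr 1; group
  · have e : (δ'⁻¹ * γ * δ'⁻¹⁻¹)⁻¹ = δ'⁻¹ * γ⁻¹ * δ'⁻¹⁻¹ := by group
    rw [e]
    exact h2.conj _

end displace
end Pool.Agent.SimpleAnosov
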