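import Mathlib

/-!
# Simple Anosov representations of closed surface groups

Definitions for the problem on the maximality of the simple Anosov domain of discontinuity.
A closed hyperbolic surface is `S = Γ \ ℍ` with `Γ` a discrete, torsion-free, cocompact subgroup
of `SL(2, ℝ)`; its unit tangent bundle is `T¹S = (±Γ) \ SL(2, ℝ)` and the geodesic flow is
right multiplication by `geo t = diag (e^{t/2}, e^{-t/2})`.
-/

open Matrix MatrixGroups Topology

namespace Pool.Agent.SimpleAnosov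

/-- The matrix `diag (e^{t/2}, e^{-t/2})`. -/
noncomputable def geo (t : ℝ) : SL(2, ℝ) :=
  ⟨!![Real.exp (t / 2), 0; 0, Real.exp (-(t / 2))], by
    rw [Matrix.det_fin_two_of, ← Real.exp_add]; simp⟩

/-- `Γ` is a discrete, torsion-free and cocompact subgroup of `SL(2, ℝ)`. -/
structure IsSurfaceGroup (Γ : Subgroup SL(2, ℝ)) : Prop where
  discrete : DiscreteTopology Γ
  torsionFree : ∀ γ ∈ Γ, ∀ n : ℕ, 0 < n → γ ^ n = 1 → γ = 1
  cocompact : ∃ K : Set SL(2, ℝ), IsCompact K ∧ ∀ g : SL(2, ℝ), ∃ γ ∈ Γ, ∃ k ∈ K, g = γ * k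

/-- The geodesic line in the upper half plane with initial unit tangent vector `h`. -/
noncomputable def line (h : SL(2, ℝ)) : Set UpperHalfPlane :=
  Set.range fun t : ℝ => (h * geo t) • UpperHalfPlane.I

/-- `h` is (a lift of) a unit tangent vector of a simple closed geodesic of `Γ \ ℍ`:
its orbit under the geodesic flow closes up, and the line it spans in `ℍ` is equal to or
disjoint from each of its `Γ`-translates. -/
def IsSimpleClosed (Γ : Subgroup SL(2, ℝ)) (h : SL(2, ℝ)) : Prop :=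
  (∃ γ ∈ Γ, ∃ l : ℝ, 0 < l ∧ (γ * h = h * geo l ∨ γ * h = -(h * geo l))) ∧
    ∀ δ ∈ Γ, line (δ * h) = line h ∨ Disjoint (line (δ * h)) (line h)

/-- The preimage in `SL(2, ℝ)` of the Birman-Series set: the closure of the set of tangent
vectors of simple closed geodesics. -/
def birmanSeries (Γ : Subgroup SL(2, ℝ)) : Set SL(2, ℝ) :=
  closure {h | IsSimpleClosed Γ h}

/-- A dominated splitting of rank `k` of the flat bundle of `ρ` over the Birman-Series set.
The fibre over the class of `h` is `ℂ^d`, with `(h, v)`, `(γ h, ρ(γ) v)` and `(-h, v)`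
identified; parallel transport along the flow is `(h, v) ↦ (h * geo t, v)`.
`P h` is the projection onto `E^u` with kernel `E^s`, and `N h` is the norm on the fibre. -/
structure IsDominatedSplitting {Γ : Subgroup SL(2, ℝ)} {d : ℕ} (ρ : Γ →* SL(d, ℂ)) (k : ℕ)
    (P : SL(2, ℝ) → Matrix (Fin d) (Fin d) ℂ) (N : SL(2, ℝ) → (Fin d → ℂ) → ℝ)
    (C c : ℝ) : Prop where
  c_pos : 0 < c
  continuous_P : ContinuousOn P (birmanSeries Γ)
  idem : ∀ h ∈ birmanSeries Γ, P h * P h = P h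
  rank_P : ∀ h ∈ birmanSeries Γ, (P h).rank = k
  equivariant_P : ∀ h ∈ birmanSeries Γ, ∀ γ : Γ,
    P ((γ : SL(2, ℝ)) * h) = (ρ γ : Matrix (Fin d) (Fin d) ℂ) * P h *
      ((ρ γ)⁻¹ : SL(d, ℂ))
  neg_P : ∀ h ∈ birmanSeries Γ, P (-h) = P h
  flow_P : ∀ h ∈ birmanSeries Γ, ∀ t : ℝ, P (h * geo t) = P h
  continuous_N : ContinuousOn (fun p : SL(2, ℝ) × (Fin d → ℂ) => N p.1 p.2)
    (birmanSeries Γ ×ˢ Set.univ)
  norm_eq_zero : ∀ h ∈ birmanSeries Γ, ∀ v, N h v = 0 → v = 0
  norm_add_le : ∀ h ∈ birmanSeries Γ, ∀ v w, N h (v + w) ≤ N h v + N h w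
  norm_smul : ∀ h ∈ birmanSeries Γ, ∀ (a : ℂ) (v), N h (a • v) = ‖a‖ * N h v
  equivariant_N : ∀ h ∈ birmanSeries Γ, ∀ (γ : Γ) (v),
    N ((γ : SL(2, ℝ)) * h) ((ρ γ : Matrix (Fin d) (Fin d) ℂ) *ᵥ v) = N h v
  neg_N : ∀ h ∈ birmanSeries Γ, ∀ v, N (-h) v = N h v
  dominated : ∀ h ∈ birmanSeries Γ, ∀ v w : Fin d → ℂ, v ≠ 0 → w ≠ 0 →
    P h *ᵥ v = v → P h *ᵥ w = 0 → ∀ t : ℝ, 0 ≤ t →
      N (h * geo t) w / N h w ≤ C * Real.exp (-(c * t)) * (N (h * geo t) v / N h v)

/-- `ρ` is simple `k`-Anosov. -/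
def IsSimpleAnosov {Γ : Subgroup SL(2, ℝ)} {d : ℕ} (k : ℕ) (ρ : Γ →* SL(d, ℂ)) : Prop :=
  ∃ P N C c, IsDominatedSplitting ρ k P N C c

/-- The character of a representation. -/
def character {G : Type*} [Group G] {d : ℕ} (ρ : G →* SL(d, ℂ)) : G → ℂ :=
  fun g => (ρ g : Matrix (Fin d) (Fin d) ℂ).trace

/-- The `SL(d, ℂ)`-character variety of `G` (the GIT quotient of `Hom (G, SL(d, ℂ))` by
conjugation): the set of characters of representations, with the topology of pointwise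
convergence. -/
def CharVar (G : Type*) [Group G] (d : ℕ) : Type _ :=
  {χ : G → ℂ // ∃ ρ : G →* SL(d, ℂ), character ρ = χ}

noncomputable instance (G : Type*) [Group G] (d : ℕ) : TopologicalSpace (CharVar G d) :=
  TopologicalSpace.induced (fun χ : CharVar G d => (χ.1 : G → ℂ)) Pi.topologicalSpace

/-- The point of the character variety defined by a representation. -/
def CharVar.mk {G : Type*} [Group G] {d : ℕ} (ρ : G →* SL(d, ℂ)) : CharVar G d :=
  ⟨character ρ, ρ, rfl⟩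

/-- An automorphism `φ` of `G` acts on the character variety by precomposition with `φ⁻¹`. -/
def CharVar.act {G : Type*} [Group G] {d : ℕ} (φ : MulAut G) (χ : CharVar G d) : CharVar G d :=
  ⟨fun g => χ.1 (φ⁻¹ g), by
    obtain ⟨ρ, hρ⟩ := χ.2
    exact ⟨ρ.comp (φ⁻¹ : MulAut G).toMonoidHom, by rw [← hρ]; rfl⟩⟩

/-- The group `Out G` of outer automorphisms of `G`. -/
abbrev Out (G : Type*) [Group G] : Type _ :=
  MulAut G ⧸ (MulAut.conj : G →* MulAut G).range

/-- `U` is a domain of discontinuity for the action of `Out G` on the character variety: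
it is open and invariant, and the action on it is properly discontinuous. -/
structure IsDomainOfDiscontinuity {G : Type*} [Group G] {d : ℕ} (U : Set (CharVar G d)) :
    Prop where
  isOpen : IsOpen U
  invariant : ∀ (φ : MulAut G), ∀ χ ∈ U, CharVar.act φ χ ∈ U
  properlyDiscontinuous : ∀ K : Set (CharVar G d), K ⊆ U → IsCompact K →
    {m : Out G | ∃ φ : MulAut G, (φ : Out G) = m ∧ ∃ χ ∈ K, CharVar.act φ χ ∈ K}.Finite

/-- The simple `k`-Anosov domain in the character variety. -/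
def simpleAnosovDomain (Γ : Subgroup SL(2, ℝ)) (d k : ℕ) : Set (CharVar Γ d) :=
  {χ | ∃ ρ : Γ →* SL(d, ℂ), IsSimpleAnosov k ρ ∧ CharVar.mk ρ = χ}

end Pool.Agent.SimpleAnosov
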