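import Pool.Agent.H55.SA.Cone7

/-!
# The domain of locally uniform displacement
-/

open Matrix Filter Topology
open scoped MatrixGroups Matrix.Norms.Operator

namespace Pool.Agent.SimpleAnosov

section good
variable {d k : ℕ} {Γ : Subgroup SL(2, ℝ)}

/-- The conjugate of a representation as a representation. -/
noncomputable def cjHom {G : Type*} [Group G] (u : (Matrix (Fin d) (Fin d) ℂ)ˣ)
    (ρ : G →* Matrix (Fin d) (Fin d) ℂ) : G →* Matrix (Fin d) (Fin d) ℂ where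
  toFun := cjr u ρ
  map_one' := cjr_one u ρ
  map_mul' := cjr_mul u ρ

lemma SR.cjHom {G : Type*} [Group G] {ρ : G →* Matrix (Fin d) (Fin d) ℂ} {γ : G} {R : ℝ}
    (h : SR (ρ γ) R) (u : (Matrix (Fin d) (Fin d) ℂ)ˣ) :
    SR (Pool.Agent.SimpleAnosov.cjHom u ρ γ) R := by
  obtain ⟨A, hA⟩ := h
  refine ⟨‖(u : Matrix (Fin d) (Fin d) ℂ)‖ * A *
    ‖((u⁻¹ : (Matrix (Fin d) (Fin d) ℂ)ˣ) : Matrix (Fin d) (Fin d) ℂ)‖, fun j => ?_⟩
  rw [← map_pow]
  change ‖(u : Matrix (Fin d) (Fin d) ℂ) * ρ (γ ^ j) *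
    ((u⁻¹ : (Matrix (Fin d) (Fin d) ℂ)ˣ) : Matrix (Fin d) (Fin d) ℂ)‖ ≤ _
  rw [map_pow]
  calc _ ≤ ‖(u : Matrix (Fin d) (Fin d) ℂ)‖ * ‖ρ γ ^ j‖ *
        ‖((u⁻¹ : (Matrix (Fin d) (Fin d) ℂ)ˣ) : Matrix (Fin d) (Fin d) ℂ)‖ :=
        (norm_mul_le _ _).trans (mul_le_mul_of_nonneg_right (norm_mul_le _ _) (norm_nonneg _))
    _ ≤ ‖(u : Matrix (Fin d) (Fin d) ℂ)‖ * (A * R ^ j) *
        ‖((u⁻¹ : (Matrix (Fin d) (Fin d) ℂ)ˣ) : Matrix (Fin d) (Fin d) ℂ)‖ :=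
        mul_le_mul_of_nonneg_right (mul_le_mul_of_nonneg_left (hA j) (norm_nonneg _))
          (norm_nonneg _)
    _ = _ := by ring

lemma SR_of_norm_le {M : Matrix (Fin d) (Fin d) ℂ} {R : ℝ} (h : ‖M‖ ≤ R) : SR M R := by
  refine ⟨1 + ‖(1 : Matrix (Fin d) (Fin d) ℂ)‖, fun j => ?_⟩
  have hR : 0 ≤ R := (norm_nonneg _).trans h
  rcases Nat.eq_zero_or_pos j with rfl | hj
  · rw [pow_zero, pow_zero, mul_one]; linarith
  · have h1 : ‖M ^ j‖ ≤ R ^ j :=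
      (norm_pow_le' M hj).trans (pow_le_pow_left₀ (norm_nonneg _) h j)
    have h2 : 0 ≤ R ^ j := by positivity
    have h3 := norm_nonneg (1 : Matrix (Fin d) (Fin d) ℂ)
    nlinarith

/-- Locally uniform displacement of simple elements. -/
def Good (χ : CharVar Γ d) : Prop :=
  ∃ O ∈ 𝓝 χ, ∀ R : ℝ, ∃ Y : Set Γ, Y.Finite ∧ ∀ γ : Γ, IsSimpleElt Γ γ →
    ∀ ρ' : Γ →* Matrix (Fin d) (Fin d) ℂ, (∃ χ' ∈ O, ∀ g, (ρ' g).trace = χ'.1 g) →
      SR (ρ' γ) R → SR (ρ' γ⁻¹) R → ∃ y ∈ Y, ∃ δ, γ = δ * y * δ⁻¹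

lemma isOpen_good : IsOpen {χ : CharVar Γ d | Good χ} := by
  rw [isOpen_iff_mem_nhds]
  rintro χ ⟨O, hO, hR⟩
  have : ∀ᶠ χ' in 𝓝 χ, O ∈ 𝓝 χ' := eventually_eventually_nhds.mpr hO
  filter_upwards [this] with χ' hχ'
  exact ⟨O, hχ', hR⟩

lemma continuous_act (φ : MulAut Γ) : Continuous (CharVar.act (d := d) φ) := by
  refine continuous_induced_rng.mpr ?_
  refine continuous_pi fun g => ?_
  exact (continuous_apply (φ⁻¹ g)).comp continuous_induced_dom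

lemma act_inv_act (φ : MulAut Γ) (χ : CharVar Γ d) : CharVar.act φ⁻¹ (CharVar.act φ χ) = χ := by
  apply Subtype.ext
  funext g
  change χ.1 (φ⁻¹ ((φ⁻¹)⁻¹ g)) = χ.1 g
  rw [inv_inv, MulAut.inv_apply_self]

lemma countable_of_surfaceGroup (hΓ : IsSurfaceGroup Γ) : Countable Γ := by
  have h1 : (Γ : Set SL(2, ℝ)) ⊆ ⋃ n : ℕ, {g : SL(2, ℝ) | g ∈ Γ ∧ ∀ i j, |g i j| ≤ n} := by
    intro g hg
    obtain ⟨n, hn⟩ := exists_nat_ge (∑ i, ∑ j, |g i j|)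
    refine Set.mem_iUnion.mpr ⟨n, hg, fun i j => ?_⟩
    refine le_trans ?_ hn
    calc |g i j| ≤ ∑ j, |g i j| := Finset.single_le_sum (f := fun j => |g i j|)
          (fun _ _ => abs_nonneg _) (Finset.mem_univ j)
      _ ≤ _ := Finset.single_le_sum (f := fun i => ∑ j, |g i j|)
          (fun _ _ => Finset.sum_nonneg fun _ _ => abs_nonneg _) (Finset.mem_univ i)
  have h2 : (Γ : Set SL(2, ℝ)).Countable :=
    (Set.countable_iUnion fun n : ℕ => (hΓ.finite_bdd n).countable).mono h1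
  exact h2.to_subtype

lemma exists_monoid_gen (hΓ : IsSurfaceGroup Γ) :
    ∃ S : Finset Γ, Submonoid.closure (S : Set Γ) = ⊤ := by
  classical
  obtain ⟨S, hS⟩ := hΓ.fg
  refine ⟨S ∪ S.image (fun g => g⁻¹), ?_⟩
  have h1 := Subgroup.closure_toSubmonoid (S : Set Γ)
  rw [hS] at h1
  rw [Finset.coe_union, Finset.coe_image]
  have h2 : (fun g : Γ => g⁻¹) '' (S : Set Γ) = (S : Set Γ)⁻¹ := Set.image_inv_eq_inv
  rw [h2, ← h1]
  rfl

/-- The simple Anosov domain is contained in the domain of locally uniform displacement. -/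
theorem good_of_simpleAnosov (hΓ : IsSurfaceGroup Γ) (hk : 1 ≤ k) (hkd : k < d)
    {ρ : Γ →* SL(d, ℂ)} (hρ : IsSimpleAnosov k ρ) : Good (CharVar.mk ρ) := by
  obtain ⟨P, N, C, c, H⟩ := hρ
  obtain ⟨D, hD, hcov⟩ := hΓ.cocompact
  obtain ⟨C', HC⟩ := H.toCoarse hD
  obtain ⟨S, hS⟩ := exists_monoid_gen hΓ
  have := countable_of_surfaceGroup hΓ
  have : FirstCountableTopology (CharVar Γ d) :=
    TopologicalSpace.firstCountableTopology_induced _ (Γ → ℂ) Subtype.val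
  by_contra hcon
  unfold Good at hcon
  push Not at hcon
  obtain ⟨O, hO⟩ := (𝓝 (CharVar.mk ρ)).exists_antitone_basis
  choose R hR using fun n => hcon (O n) (hO.mem n)
  have hlog : ∀ n, 1 ≤ 1 + Real.log (1 + |R n|) := fun n => by
    have := Real.log_nonneg (show 1 ≤ 1 + |R n| by linarith [abs_nonneg (R n)])
    linarith
  have hex : ∀ n : ℕ, ∃ (γ : Γ) (h : SL(2, ℝ)) (l : ℝ) (ρ' : Γ →* Matrix (Fin d) (Fin d) ℂ)
      (χ' : CharVar Γ d), χ' ∈ O n ∧ (∀ g, (ρ' g).trace = χ'.1 g) ∧ SR (ρ' γ) (R n) ∧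
      SR (ρ' γ⁻¹) (R n) ∧ IsSimpleClosed Γ h ∧ 0 < l ∧
      ((γ : SL(2, ℝ)) * h = h * geo l ∨ (γ : SL(2, ℝ)) * h = -(h * geo l)) ∧
      (n : ℝ) * (1 + Real.log (1 + |R n|)) < l := by
    intro n
    set L : ℝ := (n : ℝ) * (1 + Real.log (1 + |R n|)) with hL
    have hL0 : 0 ≤ L := mul_nonneg (Nat.cast_nonneg n) (by linarith [hlog n])
    obtain ⟨Y, hY, hYc⟩ := hΓ.finite_classes (2 * Real.cosh (L / 2))
    obtain ⟨γ, hγ, ρ', ⟨χ', hχ', htr⟩, hS1, hS2, hno⟩ := hR n Y hY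
    obtain ⟨hγ1, h, l, hl, hax, hsc⟩ := hγ
    refine ⟨γ, h, l, ρ', χ', hχ', htr, hS1, hS2, hsc, hl, hax, ?_⟩
    by_contra hle
    push Not at hle
    have h1 : |((γ : SL(2, ℝ)) : Matrix (Fin 2) (Fin 2) ℝ).trace| ≤ 2 * Real.cosh (L / 2) := by
      rw [← tr_eq, abs_tr_of_axis hax]
      have : Real.cosh (l / 2) ≤ Real.cosh (L / 2) := by
        rw [Real.cosh_le_cosh, abs_of_pos (by positivity), abs_of_nonneg (by positivity)]
        linarith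
      linarith
    obtain ⟨y, hy, δ, hδ⟩ := hYc γ h1
    exact hno y hy δ hδ
  choose γ h l ρ' χ' hχO htr hSR1 hSR2 hsc hl hax hlL using hex
  have hlim : Tendsto χ' atTop (𝓝 (CharVar.mk ρ)) := hO.tendsto hχO
  have hlimg : ∀ g, Tendsto (fun n => (ρ' n g).trace) atTop (𝓝 ((hatr ρ g).trace)) := by
    intro g
    have h1 : Tendsto (fun n => (χ' n).1 g) atTop (𝓝 ((CharVar.mk ρ).1 g)) := by
      have hc : Continuous (fun χ : CharVar Γ d => χ.1 g) :=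
        (continuous_apply g).comp continuous_induced_dom
      exact (hc.tendsto _).comp hlim
    simp only [htr]
    exact h1
  obtain ⟨u, φ, σ, hφ, hσ, hss, hσtr⟩ := rep_limit S hS ρ' (fun g => (hatr ρ g).trace) hlimg
  obtain ⟨P', C'', Hσ⟩ := HC.transfer hcov H.continuous_P S hS σ hσtr hss
  obtain ⟨F, η, K, hF, hη, hK, hdisp⟩ := Hσ.displace hΓ hD hcov hk hkd
  have hev : ∀ g : Γ, ∀ᶠ n in atTop, ‖cjHom (u n) (ρ' (φ n)) g - σ g‖ ≤ η := by
    intro g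
    have h1 : Tendsto (fun n => ∑ i, ∑ j, ‖(cjr (u n) (ρ' (φ n)) g - σ g) i j‖) atTop
        (𝓝 (∑ i : Fin d, ∑ j : Fin d, ‖(σ g - σ g) i j‖)) := by
      apply tendsto_finsetSum
      intro i _
      apply tendsto_finsetSum
      intro j _
      apply Tendsto.norm
      have h2 : Tendsto (fun n => cjr (u n) (ρ' (φ n)) g - σ g) atTop (𝓝 (σ g - σ g)) :=
        (hσ g).sub tendsto_const_nhds
      exact ((continuous_id.matrix_elem i j).tendsto _).comp h2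
    have h0 : (∑ i : Fin d, ∑ j : Fin d, ‖(σ g - σ g) i j‖) = 0 := by simp
    rw [h0] at h1
    have hpos : 0 < η / (d + 1) := by positivity
    filter_upwards [h1.eventually (ge_mem_nhds hpos)] with n hn
    have h3 : ∀ i j, ‖(cjr (u n) (ρ' (φ n)) g - σ g) i j‖ ≤ η / (d + 1) := by
      intro i j
      refine le_trans ?_ hn
      calc _ ≤ ∑ j, ‖(cjr (u n) (ρ' (φ n)) g - σ g) i j‖ :=
            Finset.single_le_sum (f := fun j => ‖(cjr (u n) (ρ' (φ n)) g - σ g) i j‖)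
              (fun _ _ => norm_nonneg _) (Finset.mem_univ j)
        _ ≤ _ := Finset.single_le_sum
              (f := fun i => ∑ j, ‖(cjr (u n) (ρ' (φ n)) g - σ g) i j‖)
              (fun _ _ => Finset.sum_nonneg fun _ _ => norm_nonneg _) (Finset.mem_univ i)
    have h4 := norm_le_of_entries hpos.le h3
    refine h4.trans ?_
    rw [mul_div_assoc', div_le_iff₀ (by positivity)]
    nlinarith
  have hevF : ∀ᶠ n in atTop, ∀ g ∈ F, ‖cjHom (u n) (ρ' (φ n)) g - σ g‖ ≤ η :=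
    (hF.eventually_all (l := atTop)).mpr fun g _ => hev g
  obtain ⟨n, hn1, hn2⟩ := (hevF.and (tendsto_natCast_atTop_atTop.eventually_ge_atTop K)).exists
  have h1 := hdisp (cjHom (u n) (ρ' (φ n))) hn1 (γ (φ n)) (h (φ n)) (l (φ n)) (R (φ n))
    (hsc _) (hl _) (hax _) ((hSR1 _).cjHom _) ((hSR2 _).cjHom _)
  have h2 := hlL (φ n)
  have h3 : K ≤ (φ n : ℝ) := hn2.trans (by exact_mod_cast hφ.id_le n)
  have h4 : K * (1 + Real.log (1 + |R (φ n)|)) ≤ (φ n : ℝ) * (1 + Real.log (1 + |R (φ n)|)) :=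
    mul_le_mul_of_nonneg_right h3 (by linarith [hlog (φ n)])
  linarith

end good
end Pool.Agent.SimpleAnosov
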