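import Pool.Agent.H55.SA.Bdd
open Matrix Polynomial Filter Topology
namespace Pool.Agent.SimpleAnosov

section rep
variable {𝕜 : Type*} [RCLike 𝕜] {d : ℕ} {G : Type*} [Group G]

/-- conjugate of a representation -/
def cjr (u : (Matrix (Fin d) (Fin d) 𝕜)ˣ) (ρ : G →* Matrix (Fin d) (Fin d) 𝕜) (g : G) :
    Matrix (Fin d) (Fin d) 𝕜 :=
  (u : Matrix (Fin d) (Fin d) 𝕜) * ρ g * ((u⁻¹ : (Matrix (Fin d) (Fin d) 𝕜)ˣ) :
    Matrix (Fin d) (Fin d) 𝕜)

lemma cjr_mul (u : (Matrix (Fin d) (Fin d) 𝕜)ˣ) (ρ : G →* Matrix (Fin d) (Fin d) 𝕜) (g h : G) :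
    cjr u ρ (g * h) = cjr u ρ g * cjr u ρ h := by
  have h1 : ((u⁻¹ : (Matrix (Fin d) (Fin d) 𝕜)ˣ) : Matrix (Fin d) (Fin d) 𝕜) *
    (u : Matrix (Fin d) (Fin d) 𝕜) = 1 := Units.inv_mul u
  unfold cjr
  rw [map_mul]
  calc _ = (u : Matrix (Fin d) (Fin d) 𝕜) * ρ g * 1 * ρ h *
        ((u⁻¹ : (Matrix (Fin d) (Fin d) 𝕜)ˣ) : Matrix (Fin d) (Fin d) 𝕜) := by
        rw [mul_one]; noncomm_ring
    _ = _ := by rw [← h1]; noncomm_ring

lemma cjr_one (u : (Matrix (Fin d) (Fin d) 𝕜)ˣ) (ρ : G →* Matrix (Fin d) (Fin d) 𝕜) :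
    cjr u ρ 1 = 1 := by
  unfold cjr
  rw [map_one, mul_one, Units.mul_inv]

lemma trace_cjr (u : (Matrix (Fin d) (Fin d) 𝕜)ˣ) (ρ : G →* Matrix (Fin d) (Fin d) 𝕜) (g : G) :
    (cjr u ρ g).trace = (ρ g).trace := by
  unfold cjr
  rw [Matrix.trace_mul_comm, ← mul_assoc, Units.inv_mul, one_mul]

lemma word_trace (S : Finset G) (u : (Matrix (Fin d) (Fin d) 𝕜)ˣ)
    (ρ : G →* Matrix (Fin d) (Fin d) 𝕜) (w : List S) :
    ((w.map (cj u (fun s : S => ρ s))).prod) = cjr u ρ ((w.map (fun s : S => (s : G))).prod) := by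
  induction w with
  | nil => rw [List.map_nil, List.prod_nil, List.map_nil, List.prod_nil, cjr_one]
  | cons s w ih =>
    rw [List.map_cons, List.prod_cons, List.map_cons, List.prod_cons, cjr_mul, ih]
    rfl

lemma entry_mul_le {A B : Matrix (Fin d) (Fin d) 𝕜} {a b : ℝ} (hA : ∀ i j, ‖A i j‖ ≤ a)
    (hB : ∀ i j, ‖B i j‖ ≤ b) (i j : Fin d) : ‖(A * B) i j‖ ≤ d * (a * b) := by
  rw [mul_apply]
  calc ‖∑ k, A i k * B k j‖ ≤ ∑ k, ‖A i k * B k j‖ := norm_sum_le _ _
    _ ≤ ∑ _k : Fin d, a * b := by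
        refine Finset.sum_le_sum fun k _ => ?_
        rw [norm_mul]
        exact mul_le_mul (hA i k) (hB k j) (norm_nonneg _) ((norm_nonneg _).trans (hA i k))
    _ = d * (a * b) := by simp

lemma rep_bdd {κ : Type*} (S : Finset G) (hS : Submonoid.closure (S : Set G) = ⊤)
    (ρ : κ → (G →* Matrix (Fin d) (Fin d) 𝕜))
    (htr : ∀ g, ∃ B : ℝ, ∀ k, ‖(ρ k g).trace‖ ≤ B) :
    ∃ u : κ → (Matrix (Fin d) (Fin d) 𝕜)ˣ, ∀ g, ∃ B : ℝ, ∀ k i j,
      ‖cjr (u k) (ρ k) g i j‖ ≤ B := by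
  choose u hu using fun k => exists_near_min (fun s : S => ρ k s) one_pos
  refine ⟨u, ?_⟩
  obtain ⟨B, hB⟩ := energy_bdd (fun k => cj (u k) (fun s : S => ρ k s)) (by
    intro w
    obtain ⟨B, hB⟩ := htr ((w.map (fun s : S => (s : G))).prod)
    refine ⟨B, fun k => ?_⟩
    rw [word_trace, trace_cjr]
    exact hB k) hu
  have hB' : ∀ k (s : S) i j, ‖cjr (u k) (ρ k) s i j‖ ≤ Real.sqrt (max B 0) := by
    intro k s i j
    refine norm_le_of_energy (A := cj (u k) (fun s : S => ρ k s)) ?_ (Real.sqrt_nonneg _) s i j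
    rw [Real.sq_sqrt (le_max_right _ _)]
    exact (hB k).trans (le_max_left _ _)
  intro g
  have hg : g ∈ Submonoid.closure (S : Set G) := by rw [hS]; trivial
  induction hg using Submonoid.closure_induction with
  | mem s hs => exact ⟨_, fun k i j => hB' k ⟨s, hs⟩ i j⟩
  | one =>
    refine ⟨1, fun k i j => ?_⟩
    rw [cjr_one, Matrix.one_apply]
    split_ifs <;> simp
  | mul x y _ _ hx hy =>
    obtain ⟨a, ha⟩ := hx
    obtain ⟨b, hb⟩ := hy
    refine ⟨d * (a * b), fun k i j => ?_⟩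
    rw [cjr_mul]
    exact entry_mul_le (ha k) (hb k) i j

lemma rep_limit (S : Finset G) (hS : Submonoid.closure (S : Set G) = ⊤)
    (ρ : ℕ → (G →* Matrix (Fin d) (Fin d) 𝕜)) (χ : G → 𝕜)
    (hχ : ∀ g, Tendsto (fun n => (ρ n g).trace) atTop (𝓝 (χ g))) :
    ∃ (u : ℕ → (Matrix (Fin d) (Fin d) 𝕜)ˣ) (φ : ℕ → ℕ)
      (σ : G →* Matrix (Fin d) (Fin d) 𝕜), StrictMono φ ∧
      (∀ g, Tendsto (fun n => cjr (u n) (ρ (φ n)) g) atTop (𝓝 (σ g))) ∧
      OrthSS (fun s : S => σ s) ∧ ∀ g, (σ g).trace = χ g := by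
  have hpos : ∀ n : ℕ, (0 : ℝ) < 1 / ((n : ℝ) + 1) := fun n => by positivity
  choose u hu using fun n => exists_near_min (fun s : S => ρ n s) (hpos n)
  set A : ℕ → S → Matrix (Fin d) (Fin d) 𝕜 := fun n => cj (u n) (fun s : S => ρ n s) with hA
  obtain ⟨B, hB⟩ := energy_bdd A (by
    intro w
    obtain ⟨B, hB⟩ := (hχ ((w.map (fun s : S => (s : G))).prod)).norm.bddAbove_range
    refine ⟨B, fun n => ?_⟩
    rw [hA]
    change ‖((w.map (cj (u n) (fun s : S => ρ n s))).prod).trace‖ ≤ B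
    rw [word_trace, trace_cjr]
    exact hB ⟨n, rfl⟩) (by
    intro n v
    refine (hu n v).trans ?_
    have : (1 : ℝ) / ((n : ℝ) + 1) ≤ 1 := by
      rw [div_le_one (by positivity)]
      have : (0 : ℝ) ≤ n := Nat.cast_nonneg n
      linarith
    linarith)
  obtain ⟨C, φ, hφ, hlim⟩ := exists_subseq A (Real.sqrt (max B 0)) (by
    intro n s i j
    refine norm_le_of_energy (A := A n) ?_ (Real.sqrt_nonneg _) s i j
    rw [Real.sq_sqrt (le_max_right _ _)]
    exact (hB n).trans (le_max_left _ _))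
  have hCss : OrthSS C := by
    refine minimal_of_limit (ε := fun n => 1 / ((φ n : ℝ) + 1)) hlim ?_ ?_
    · exact tendsto_one_div_add_atTop_nhds_zero_nat.comp hφ.tendsto_atTop
    · intro n v
      exact hu (φ n) v
  have hex : ∀ g, ∃ M, Tendsto (fun n => cjr (u (φ n)) (ρ (φ n)) g) atTop (𝓝 M) := by
    intro g
    have hg : g ∈ Submonoid.closure (S : Set G) := by rw [hS]; trivial
    induction hg using Submonoid.closure_induction with
    | mem s hs =>
      exact ⟨C ⟨s, hs⟩, ((continuous_apply (⟨s, hs⟩ : S)).tendsto C).comp hlim⟩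
    | one => exact ⟨1, by simp only [cjr_one]; exact tendsto_const_nhds⟩
    | mul x y _ _ hx hy =>
      obtain ⟨a, ha⟩ := hx
      obtain ⟨b, hb⟩ := hy
      refine ⟨a * b, ?_⟩
      simp only [cjr_mul]
      exact ha.mul hb
  choose σ hσ using hex
  refine ⟨fun n => u (φ n), φ, ⟨⟨σ, ?_⟩, ?_⟩, hφ, hσ, ?_, ?_⟩
  · exact tendsto_nhds_unique (hσ 1) (by simp only [cjr_one]; exact tendsto_const_nhds)
  · intro g h
    refine tendsto_nhds_unique (hσ (g * h)) ?_
    simp only [cjr_mul]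
    exact (hσ g).mul (hσ h)
  · have : (fun s : S => σ s) = C := by
      funext s
      exact tendsto_nhds_unique (hσ s) (((continuous_apply s).tendsto C).comp hlim)
    change OrthSS (fun s : S => σ s)
    rw [this]
    exact hCss
  · intro g
    have h1 : Tendsto (fun n => (cjr (u (φ n)) (ρ (φ n)) g).trace) atTop (𝓝 (σ g).trace) :=
      ((continuous_id.matrix_trace).tendsto _).comp (hσ g)
    simp only [trace_cjr] at h1
    exact tendsto_nhds_unique h1 ((hχ g).comp hφ.tendsto_atTop)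

/-- If `σ` is (orthogonally) semisimple with the same character as `ρ` then `ρ g ↦ σ g` extends to
an algebra homomorphism on the span of the image of `ρ`. -/
lemma theta (S : Finset G) (hS : Submonoid.closure (S : Set G) = ⊤)
    (ρ σ : G →* Matrix (Fin d) (Fin d) 𝕜) (htr : ∀ g, (σ g).trace = (ρ g).trace)
    (hss : OrthSS (fun s : S => σ s)) :
    ∃ Θ : Matrix (Fin d) (Fin d) 𝕜 →ₗ[𝕜] Matrix (Fin d) (Fin d) 𝕜, (∀ g, Θ (ρ g) = σ g) ∧
      (∀ a ∈ Submodule.span 𝕜 (Set.range ρ), ∀ b ∈ Submodule.span 𝕜 (Set.range ρ),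
        Θ (a * b) = Θ a * Θ b) ∧
      ∀ a ∈ Submodule.span 𝕜 (Set.range ρ), (Θ a).trace = a.trace := by
  set Tρ := MonoidAlgebra.lift 𝕜 (Matrix (Fin d) (Fin d) 𝕜) G ρ with hTρ
  set Tσ := MonoidAlgebra.lift 𝕜 (Matrix (Fin d) (Fin d) 𝕜) G σ with hTσ
  have htrT : ∀ x, (Tσ x).trace = (Tρ x).trace := by
    intro x
    induction x using MonoidAlgebra.induction_on with
    | of g => rw [hTσ, hTρ, MonoidAlgebra.lift_of, MonoidAlgebra.lift_of, htr]
    | add x y hx hy => rw [map_add, map_add, trace_add, trace_add, hx, hy]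
    | smul c x hx => rw [map_smul, map_smul, trace_smul, trace_smul, hx]
  set N : Submodule 𝕜 (Matrix (Fin d) (Fin d) 𝕜) :=
    (LinearMap.ker Tρ.toLinearMap).map Tσ.toLinearMap with hN
  have hNmem : ∀ a, a ∈ N ↔ ∃ x, Tρ x = 0 ∧ Tσ x = a := by
    intro a
    rw [hN, Submodule.mem_map]
    constructor
    · rintro ⟨x, hx, rfl⟩; exact ⟨x, hx, rfl⟩
    · rintro ⟨x, hx, rfl⟩; exact ⟨x, hx, rfl⟩
  have hker : ∀ a ∈ N, a = 0 := by
    refine ker_lemma N ?_ ?_ ?_
    · intro a ha b hb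
      obtain ⟨x, hx, rfl⟩ := (hNmem a).mp ha
      obtain ⟨y, hy, rfl⟩ := (hNmem b).mp hb
      exact (hNmem _).mpr ⟨x * y, by rw [map_mul, hx, zero_mul], by rw [map_mul]⟩
    · intro a ha
      obtain ⟨x, hx, rfl⟩ := (hNmem a).mp ha
      apply isNilpotent_of_trace_pow
      intro j hj
      rw [← map_pow, htrT, map_pow, hx, zero_pow hj.ne', trace_zero]
    · intro Q hQ hQQ haQ hQid
      have hinv : ∀ g, (1 - Q) * σ g * Q = 0 := by
        intro g
        apply Matrix.ext_of_mulVec_single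
        intro i
        rw [zero_mulVec]
        have h1 : Q *ᵥ ((σ g * Q) *ᵥ Pi.single i 1) = (σ g * Q) *ᵥ Pi.single i 1 := by
          apply hQid
          intro a ha
          obtain ⟨x, hx, rfl⟩ := (hNmem a).mp ha
          have h2 : Tσ x * σ g ∈ N := (hNmem _).mpr
            ⟨x * MonoidAlgebra.of 𝕜 G g, by rw [map_mul, hx, zero_mul], by
              rw [map_mul]; congr 1; rw [hTσ, MonoidAlgebra.lift_of]⟩
          have h3 := haQ _ h2
          rw [mulVec_mulVec, ← mul_assoc, h3, zero_mulVec]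
        rw [mulVec_mulVec] at h1
        have : (1 - Q) * σ g * Q = σ g * Q - Q * (σ g * Q) := by noncomm_ring
        rw [this, sub_mulVec, h1, sub_self]
      have hS1 := hss Q hQ hQQ (fun s => hinv s)
      have hall : ∀ g, Q * σ g * (1 - Q) = 0 := by
        intro g
        have hg : g ∈ Submonoid.closure (S : Set G) := by rw [hS]; trivial
        induction hg using Submonoid.closure_induction with
        | mem s hs => exact hS1 ⟨s, hs⟩
        | one => rw [map_one, mul_one, mul_sub, mul_one, hQQ, sub_self]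
        | mul x y _ _ hx hy =>
          have : Q * σ (x * y) * (1 - Q) = (Q * σ x * (1 - Q)) * (σ y * (1 - Q)) +
              Q * σ x * (Q * σ y * (1 - Q)) := by rw [map_mul]; noncomm_ring
          rw [this, hx, hy]; simp
      intro a ha
      obtain ⟨x, hx, rfl⟩ := (hNmem a).mp ha
      clear hx ha
      induction x using MonoidAlgebra.induction_on with
      | of g => rw [hTσ, MonoidAlgebra.lift_of]; exact hall g
      | add x y hx hy => rw [map_add, mul_add, add_mul, hx, hy, add_zero]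
      | smul c x hx => rw [map_smul, mul_smul_comm, smul_mul_assoc, hx, smul_zero]
  have hkk : ∀ x, Tρ x = 0 → Tσ x = 0 := fun x hx => hker _ ((hNmem _).mpr ⟨x, hx, rfl⟩)
  obtain ⟨s, hs⟩ := LinearMap.exists_rightInverse_of_surjective Tρ.toLinearMap.rangeRestrict
    (LinearMap.range_rangeRestrict _)
  obtain ⟨Θ, hΘ⟩ := LinearMap.exists_extend (Tσ.toLinearMap.comp s)
  have hΘg : ∀ g, Θ (ρ g) = σ g := by
    intro g
    have h1 : ρ g = Tρ (MonoidAlgebra.of 𝕜 G g) := by rw [hTρ, MonoidAlgebra.lift_of]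
    have h2 : σ g = Tσ (MonoidAlgebra.of 𝕜 G g) := by rw [hTσ, MonoidAlgebra.lift_of]
    have h3 : Θ (Tρ (MonoidAlgebra.of 𝕜 G g)) =
        Tσ (s (Tρ.toLinearMap.rangeRestrict (MonoidAlgebra.of 𝕜 G g))) :=
      LinearMap.congr_fun hΘ (Tρ.toLinearMap.rangeRestrict (MonoidAlgebra.of 𝕜 G g))
    rw [h1, h3, h2, ← sub_eq_zero, ← map_sub]
    apply hkk
    rw [map_sub, sub_eq_zero]
    have h4 := LinearMap.congr_fun hs (Tρ.toLinearMap.rangeRestrict (MonoidAlgebra.of 𝕜 G g))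
    have h5 := congrArg Subtype.val h4
    exact h5
  refine ⟨Θ, hΘg, ?_, ?_⟩
  · intro a ha b hb
    induction ha using Submodule.span_induction with
    | mem x hx =>
      obtain ⟨g, rfl⟩ := hx
      induction hb using Submodule.span_induction with
      | mem y hy =>
        obtain ⟨h, rfl⟩ := hy
        rw [← map_mul, hΘg, hΘg, hΘg, map_mul]
      | zero => simp
      | add y z _ _ hy hz => rw [mul_add, map_add, map_add, mul_add, hy, hz]
      | smul c y _ hy => rw [mul_smul_comm, map_smul, map_smul, mul_smul_comm, hy]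
    | zero => simp
    | add y z _ _ hy hz => rw [add_mul, map_add, map_add, add_mul, hy, hz]
    | smul c y _ hy => rw [smul_mul_assoc, map_smul, map_smul, smul_mul_assoc, hy]
  · intro a ha
    induction ha using Submodule.span_induction with
    | mem x hx => obtain ⟨g, rfl⟩ := hx; rw [hΘg, htr]
    | zero => simp
    | add y z _ _ hy hz => rw [map_add, trace_add, trace_add, hy, hz]
    | smul c y _ hy => rw [map_smul, trace_smul, trace_smul, hy]

end rep
end Pool.Agent.SimpleAnosov
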