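import Pool.Agent.H55.SA.Domain1
import Pool.Agent.H76.SA.SimpleMap2
import Pool.Agent.H64.SA.Fin

/-!
# The domain of locally uniform displacement is a domain of discontinuity
-/

open Matrix Filter Topology
open scoped MatrixGroups Matrix.Norms.Operator

namespace Pool.Agent.SimpleAnosov

section dom
variable {d k : ℕ} {Γ : Subgroup SL(2, ℝ)}

lemma good_act (hΓ : IsSurfaceGroup Γ) (φ : MulAut Γ) {χ : CharVar Γ d} (hχ : Good χ) :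
    Good (CharVar.act φ χ) := by
  obtain ⟨O, hO, hR⟩ := hχ
  refine ⟨CharVar.act φ⁻¹ ⁻¹' O, ?_, ?_⟩
  · have h1 : Tendsto (CharVar.act (d := d) φ⁻¹) (𝓝 (CharVar.act φ χ)) (𝓝 χ) := by
      have := (continuous_act (d := d) φ⁻¹).tendsto (CharVar.act φ χ)
      rwa [act_inv_act] at this
    exact h1 hO
  · intro R
    obtain ⟨Y, hY, hall⟩ := hR R
    refine ⟨φ '' Y, hY.image _, ?_⟩
    rintro γ hγ ρ' ⟨χ', hχ', htr⟩ h1 h2
    obtain ⟨y, hy, δ, hδ⟩ := hall (φ⁻¹ γ) (hΓ.simple_map hγ φ⁻¹) (ρ'.comp φ.toMonoidHom)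
      ⟨CharVar.act φ⁻¹ χ', hχ', fun g => by
        change (ρ' (φ g)).trace = χ'.1 ((φ⁻¹)⁻¹ g)
        rw [htr, inv_inv]⟩ (by
        change SR (ρ' (φ (φ⁻¹ γ))) R
        rw [MulAut.apply_inv_self]; exact h1) (by
        change SR (ρ' (φ (φ⁻¹ γ)⁻¹)) R
        rw [map_inv, MulAut.apply_inv_self]; exact h2)
    refine ⟨φ y, ⟨y, hy, rfl⟩, φ δ, ?_⟩
    have h3 := congrArg φ hδ
    rw [MulAut.apply_inv_self] at h3
    rw [h3, map_mul, map_mul, map_inv]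

lemma good_properlyDiscontinuous (hΓ : IsSurfaceGroup Γ) (K : Set (CharVar Γ d))
    (hKU : K ⊆ {χ | Good χ}) (hK : IsCompact K) :
    {m : Out Γ | ∃ φ : MulAut Γ, (φ : Out Γ) = m ∧ ∃ χ ∈ K, CharVar.act φ χ ∈ K}.Finite := by
  classical
  obtain ⟨S, hS⟩ := exists_monoid_gen hΓ
  -- bounded lifts
  choose ρ hρ using fun χ : K => χ.1.2
  obtain ⟨u, hu⟩ := rep_bdd S hS (fun χ : K => hatr (ρ χ)) (by
    intro g
    have hc : ContinuousOn (fun χ : CharVar Γ d => χ.1 g) K :=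
      ((continuous_apply g).comp continuous_induced_dom).continuousOn
    obtain ⟨B, hB⟩ := hK.exists_bound_of_continuousOn hc
    refine ⟨B, fun χ => ?_⟩
    have h1 := hB χ.1 χ.2
    have h2 : (hatr (ρ χ) g).trace = χ.1.1 g := congrFun (hρ χ) g
    rw [h2]
    exact h1)
  have hbd : ∀ g : Γ, ∃ B : ℝ, ∀ χ : K, ‖cjHom (u χ) (hatr (ρ χ)) g‖ ≤ B := by
    intro g
    obtain ⟨B, hB⟩ := hu g
    refine ⟨d * max B 0, fun χ => ?_⟩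
    exact norm_le_of_entries (le_max_right _ _) fun i j => (hB χ i j).trans (le_max_left _ _)
  have htr : ∀ (χ : K) (g : Γ), (cjHom (u χ) (hatr (ρ χ)) g).trace = χ.1.1 g := by
    intro χ g
    change (cjr (u χ) (hatr (ρ χ)) g).trace = _
    rw [trace_cjr]
    exact congrFun (hρ χ) g
  -- finite cover
  have hG : ∀ χ : CharVar Γ d, ∃ O : Set (CharVar Γ d), χ ∈ K → (O ∈ 𝓝 χ ∧
      ∀ R : ℝ, ∃ Y : Set Γ, Y.Finite ∧ ∀ γ : Γ, IsSimpleElt Γ γ →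
    ∀ ρ' : Γ →* Matrix (Fin d) (Fin d) ℂ, (∃ χ' ∈ O, ∀ g, (ρ' g).trace = χ'.1 g) →
      SR (ρ' γ) R → SR (ρ' γ⁻¹) R → ∃ y ∈ Y, ∃ δ, γ = δ * y * δ⁻¹) := by
    intro χ
    by_cases hχ : χ ∈ K
    · obtain ⟨O, hO, hR⟩ := hKU hχ
      exact ⟨O, fun _ => ⟨hO, hR⟩⟩
    · exact ⟨∅, fun h => absurd h hχ⟩
  choose O hO using hG
  obtain ⟨t, htK, htc⟩ := hK.elim_nhds_subcover O (fun χ hχ => (hO χ hχ).1)
  -- the set of inverses
  set Φ : Set (MulAut Γ) := {ψ | ∃ χ ∈ K, CharVar.act ψ⁻¹ χ ∈ K} with hΦ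
  have hfin := H64.out_finite_inv hΓ Φ (by
    intro f hf
    have hf' : IsSimpleElt Γ f := hf
    obtain ⟨B1, hB1⟩ := hbd f
    obtain ⟨B2, hB2⟩ := hbd f⁻¹
    set R := max B1 B2 with hR
    choose Y hY using fun χ : CharVar Γ d => (show ∃ Y : Set Γ, χ ∈ K → (Y.Finite ∧
      ∀ γ : Γ, IsSimpleElt Γ γ → ∀ ρ' : Γ →* Matrix (Fin d) (Fin d) ℂ,
      (∃ χ' ∈ O χ, ∀ g, (ρ' g).trace = χ'.1 g) →
      SR (ρ' γ) R → SR (ρ' γ⁻¹) R → ∃ y ∈ Y, ∃ δ, γ = δ * y * δ⁻¹) by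
        by_cases hχ : χ ∈ K
        · obtain ⟨Y, hY⟩ := (hO χ hχ).2 R
          exact ⟨Y, fun _ => hY⟩
        · exact ⟨∅, fun h => absurd h hχ⟩)
    have hYfin : (⋃ χ ∈ t, Y χ).Finite :=
      Set.Finite.biUnion t.finite_toSet fun χ hχ => (hY χ (htK χ hχ)).1
    obtain ⟨M, hM⟩ := (hYfin.image
      (fun y : Γ => |((y : SL(2, ℝ)) : Matrix (Fin 2) (Fin 2) ℝ).trace|)).bddAbove
    refine ⟨M, ?_⟩
    rintro ψ ⟨χ, hχ, hχ2⟩
    set χ2 : K := ⟨CharVar.act ψ⁻¹ χ, hχ2⟩ with hχ2d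
    obtain ⟨χi, hχit, hχO⟩ := Set.mem_iUnion₂.mp (htc hχ)
    have hχ2g : ∀ g, χ2.1.1 g = χ.1 (ψ g) := by
      intro g
      change χ.1 ((ψ⁻¹)⁻¹ g) = χ.1 (ψ g)
      rw [inv_inv]
    obtain ⟨y, hy, δ, hδ⟩ := (hY χi (htK χi hχit)).2 (ψ f) (hΓ.simple_map hf' ψ)
      ((cjHom (u χ2) (hatr (ρ χ2))).comp (ψ⁻¹ : MulAut Γ).toMonoidHom)
      ⟨χ, hχO, fun g => by
        change (cjHom (u χ2) (hatr (ρ χ2)) (ψ⁻¹ g)).trace = χ.1 g
        rw [htr, hχ2g, MulAut.apply_inv_self]⟩ (by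
        change SR (cjHom (u χ2) (hatr (ρ χ2)) (ψ⁻¹ (ψ f))) R
        rw [MulAut.inv_apply_self]
        exact SR_of_norm_le ((hB1 χ2).trans (le_max_left _ _))) (by
        change SR (cjHom (u χ2) (hatr (ρ χ2)) (ψ⁻¹ (ψ f)⁻¹)) R
        rw [map_inv, MulAut.inv_apply_self]
        exact SR_of_norm_le ((hB2 χ2).trans (le_max_right _ _)))
    have h1 : |((y : SL(2, ℝ)) : Matrix (Fin 2) (Fin 2) ℝ).trace| ≤ M :=
      hM ⟨y, Set.mem_iUnion₂.mpr ⟨χi, hχit, hy⟩, rfl⟩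
    rw [hδ]
    have h2 : (((δ * y * δ⁻¹ : Γ) : SL(2, ℝ)) : Matrix (Fin 2) (Fin 2) ℝ).trace =
        ((y : SL(2, ℝ)) : Matrix (Fin 2) (Fin 2) ℝ).trace := by
      rw [← tr_eq, ← tr_eq]
      exact tr_conj _ _
    rw [h2]
    exact h1)
  refine hfin.subset ?_
  rintro m ⟨φ, rfl, χ, hχ, hχ2⟩
  exact ⟨φ⁻¹, ⟨χ, hχ, by rw [inv_inv]; exact hχ2⟩, by rw [inv_inv]⟩

/-- The domain of locally uniform displacement is a domain of discontinuity. -/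
theorem isDomain_good (hΓ : IsSurfaceGroup Γ) :
    IsDomainOfDiscontinuity {χ : CharVar Γ d | Good χ} :=
  ⟨isOpen_good, fun φ _ hχ => good_act hΓ φ hχ, good_properlyDiscontinuous hΓ⟩

end dom
end Pool.Agent.SimpleAnosov
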