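import Pool.Agent.H76.SA.Fuchs5

/-!
# Example representations: `j` copies of the Fuchsian representation plus a trivial one
-/

open Matrix Filter Topology
open scoped MatrixGroups

namespace Pool.Agent.SimpleAnosov

namespace Ex

/-- index type -/
abbrev Idx (d j : ℕ) := (Fin 2 × Fin j) ⊕ Fin (d - 2 * j)

lemma card_idx {d j : ℕ} (h : 2 * j ≤ d) : Fintype.card (Idx d j) = d := by
  simp only [Fintype.card_sum, Fintype.card_prod, Fintype.card_fin]
  omega

/-- the block matrix -/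
def Fm (d j : ℕ) (A : Matrix (Fin 2) (Fin 2) ℂ) : Matrix (Idx d j) (Idx d j) ℂ :=
  fromBlocks (blockDiagonal fun _ : Fin j => A) 0 0 1

lemma Fm_mul (d j : ℕ) (A B : Matrix (Fin 2) (Fin 2) ℂ) : Fm d j (A * B) = Fm d j A * Fm d j B := by
  unfold Fm
  rw [fromBlocks_multiply, ← blockDiagonal_mul]
  simp

lemma Fm_one (d j : ℕ) : Fm d j 1 = 1 := by
  unfold Fm
  have h1 : (blockDiagonal fun _ : Fin j => (1 : Matrix (Fin 2) (Fin 2) ℂ)) = 1 :=
    blockDiagonal_one
  rw [h1, fromBlocks_one]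

lemma det_Fm (d j : ℕ) (A : Matrix (Fin 2) (Fin 2) ℂ) : (Fm d j A).det = A.det ^ j := by
  unfold Fm
  rw [det_fromBlocks_zero₂₁, det_blockDiagonal, det_one]
  simp

lemma trace_Fm (d j : ℕ) (h : 2 * j ≤ d) (A : Matrix (Fin 2) (Fin 2) ℂ) :
    (Fm d j A).trace = j * A.trace + (d - 2 * j) := by
  have h1 : (Fm d j A).trace = (blockDiagonal fun _ : Fin j => A).trace +
      (1 : Matrix (Fin (d - 2 * j)) (Fin (d - 2 * j)) ℂ).trace := by
    unfold Fm
    simp only [trace, diag_apply, Fintype.sum_sum_type, fromBlocks_apply₁₁, fromBlocks_apply₂₂]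
  rw [h1, trace_one, trace_blockDiagonal]
  simp only [Finset.sum_const, Finset.card_univ, Fintype.card_fin, nsmul_eq_mul]
  rw [Nat.cast_sub h]
  push_cast
  ring

lemma Fm_identity (d j : ℕ) (A : Matrix (Fin 2) (Fin 2) ℂ) (hdet : A.det = 1) :
    (Fm d j A * Fm d j A - A.trace • Fm d j A + 1) * (Fm d j A - 1) = 0 := by
  have hCH : A * A - A.trace • A + 1 = 0 := by
    rw [det_fin_two] at hdet
    ext a b
    fin_cases a <;> fin_cases b <;>
      simp [Matrix.mul_apply, Fin.sum_univ_two, trace_fin_two] <;>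
      first | ring1 | linear_combination (-1 : ℂ) * hdet | linear_combination hdet
  have h1 : Fm d j A * Fm d j A - A.trace • Fm d j A + 1 =
      fromBlocks 0 0 0 ((2 - A.trace) • (1 : Matrix (Fin (d - 2 * j)) (Fin (d - 2 * j)) ℂ)) := by
    rw [← Fm_mul]
    unfold Fm
    rw [fromBlocks_smul, ← fromBlocks_one, sub_eq_add_neg, fromBlocks_neg, fromBlocks_add,
      fromBlocks_add]
    have e1 : (blockDiagonal fun _ : Fin j => A * A) +
        -(A.trace • (blockDiagonal fun _ : Fin j => A)) + 1 = 0 := by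
      have h2 : (1 : Matrix (Fin 2 × Fin j) (Fin 2 × Fin j) ℂ) =
        blockDiagonal fun _ : Fin j => (1 : Matrix (Fin 2) (Fin 2) ℂ) := blockDiagonal_one.symm
      rw [h2, ← blockDiagonal_smul, ← blockDiagonal_neg, ← blockDiagonal_add,
        ← blockDiagonal_add]
      have h3 : ((fun _ : Fin j => A * A) + -(A.trace • fun _ : Fin j => A) +
          fun _ : Fin j => (1 : Matrix (Fin 2) (Fin 2) ℂ)) = 0 := by
        funext i
        simp only [Pi.add_apply, Pi.neg_apply, Pi.smul_apply, Pi.zero_apply]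
        rw [← sub_eq_add_neg]
        exact hCH
      rw [h3, blockDiagonal_zero]
    rw [e1]
    simp only [smul_zero, neg_zero, add_zero]
    congr 1
    module
  have h2 : Fm d j A - 1 = fromBlocks ((blockDiagonal fun _ : Fin j => A) - 1) 0 0 0 := by
    unfold Fm
    rw [← fromBlocks_one, sub_eq_add_neg, fromBlocks_neg, fromBlocks_add]
    simp [sub_eq_add_neg]
  rw [h1, h2, fromBlocks_multiply]
  simp

variable {d j : ℕ}

/-- reindexed block matrix -/
noncomputable def TT (h : 2 * j ≤ d) (A : Matrix (Fin 2) (Fin 2) ℂ) : Matrix (Fin d) (Fin d) ℂ :=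
  reindexAlgEquiv ℂ ℂ (Fintype.equivFinOfCardEq (card_idx h)) (Fm d j A)

lemma TT_mul (h : 2 * j ≤ d) (A B : Matrix (Fin 2) (Fin 2) ℂ) :
    TT h (A * B) = TT h A * TT h B := by
  unfold TT; rw [Fm_mul, map_mul]

lemma TT_one (h : 2 * j ≤ d) : TT h 1 = 1 := by
  unfold TT; rw [Fm_one, map_one]

lemma det_TT (h : 2 * j ≤ d) (A : Matrix (Fin 2) (Fin 2) ℂ) : (TT h A).det = A.det ^ j := by
  unfold TT; rw [coe_reindexAlgEquiv, det_reindex_self, det_Fm]

lemma trace_TT (h : 2 * j ≤ d) (A : Matrix (Fin 2) (Fin 2) ℂ) :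
    (TT h A).trace = j * A.trace + (d - 2 * j) := by
  unfold TT
  rw [coe_reindexAlgEquiv, ← trace_Fm d j h]
  simp only [trace, diag_apply, reindex_apply, submatrix_apply]
  exact Equiv.sum_comp (Fintype.equivFinOfCardEq (card_idx h)).symm (fun i => Fm d j A i i)

lemma TT_identity (h : 2 * j ≤ d) (A : Matrix (Fin 2) (Fin 2) ℂ) (hdet : A.det = 1) :
    (TT h A * TT h A - A.trace • TT h A + 1) * (TT h A - 1) = 0 := by
  unfold TT
  set R := reindexAlgEquiv ℂ ℂ (Fintype.equivFinOfCardEq (card_idx h)) with hR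
  have : (R (Fm d j A) * R (Fm d j A) - A.trace • R (Fm d j A) + 1) * (R (Fm d j A) - 1) =
      R ((Fm d j A * Fm d j A - A.trace • Fm d j A + 1) * (Fm d j A - 1)) := by
    simp only [map_mul, map_sub, map_add, map_smul, map_one]
  rw [this, Fm_identity d j A hdet, map_zero]

/-- type of a coordinate -/
noncomputable def ty (h : 2 * j ≤ d) (i : Fin d) : Fin 3 :=
  match (Fintype.equivFinOfCardEq (card_idx h)).symm i with
  | Sum.inl p => if p.1 = 0 then 0 else 1
  | Sum.inr _ => 2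

lemma TT_diag (h : 2 * j ≤ d) (a b : ℂ) :
    TT h (diagonal ![a, b]) = diagonal fun i => ![a, b, 1] (ty h i) := by
  unfold TT Fm
  rw [blockDiagonal_diagonal, ← diagonal_one, fromBlocks_diagonal, coe_reindexAlgEquiv,
    reindex_apply, submatrix_diagonal_equiv]
  congr 1
  funext i
  unfold ty
  simp only [Function.comp]
  rcases (Fintype.equivFinOfCardEq (card_idx h)).symm i with ⟨p, q⟩ | r
  · fin_cases p <;> simp
  · simp

/-- complexification -/
noncomputable def cx (g : SL(2, ℝ)) : Matrix (Fin 2) (Fin 2) ℂ :=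
  (g : Matrix (Fin 2) (Fin 2) ℝ).map (fun x : ℝ => (x : ℂ))

lemma cx_mul (g h : SL(2, ℝ)) : cx (g * h) = cx g * cx h := by
  unfold cx
  rw [Matrix.SpecialLinearGroup.coe_mul]
  exact Matrix.map_mul (f := Complex.ofRealHom)

lemma cx_one : cx 1 = 1 := by
  unfold cx
  rw [Matrix.SpecialLinearGroup.coe_one]
  exact Matrix.map_one _ Complex.ofReal_zero Complex.ofReal_one

lemma det_cx (g : SL(2, ℝ)) : (cx g).det = 1 := by
  have h1 : (cx g).det = Complex.ofRealHom ((g : Matrix (Fin 2) (Fin 2) ℝ).det) := by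
    rw [RingHom.map_det]; rfl
  rw [h1, g.det_coe, map_one]

lemma trace_cx (g : SL(2, ℝ)) :
    (cx g).trace = (((g : Matrix (Fin 2) (Fin 2) ℝ).trace : ℝ) : ℂ) := by
  simp [cx, trace_fin_two]

lemma cx_geo (t : ℝ) : cx (geo t) =
    diagonal ![(Real.exp (t / 2) : ℂ), (Real.exp (-(t / 2)) : ℂ)] := by
  ext a b
  fin_cases a <;> fin_cases b <;> simp [cx, geo]

lemma cx_neg_one : cx (-1) = diagonal ![(-1 : ℂ), -1] := by
  ext a b
  fin_cases a <;> fin_cases b <;> simp [cx]

/-- the representation of `SL(2, ℝ)` -/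
noncomputable def DD (h : 2 * j ≤ d) (g : SL(2, ℝ)) : Matrix (Fin d) (Fin d) ℂ := TT h (cx g)

lemma DD_mul (h : 2 * j ≤ d) (g g' : SL(2, ℝ)) : DD h (g * g') = DD h g * DD h g' := by
  unfold DD; rw [cx_mul, TT_mul]

lemma DD_one (h : 2 * j ≤ d) : DD h 1 = 1 := by
  unfold DD; rw [cx_one, TT_one]

lemma DD_inv_mul (h : 2 * j ≤ d) (g : SL(2, ℝ)) : DD h g⁻¹ * DD h g = 1 := by
  rw [← DD_mul, inv_mul_cancel, DD_one]

lemma DD_mul_inv (h : 2 * j ≤ d) (g : SL(2, ℝ)) : DD h g * DD h g⁻¹ = 1 := by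
  rw [← DD_mul, mul_inv_cancel, DD_one]

lemma DD_geo (h : 2 * j ≤ d) (t : ℝ) : DD h (geo t) =
    diagonal fun i => ![(Real.exp (t / 2) : ℂ), (Real.exp (-(t / 2)) : ℂ), 1] (ty h i) := by
  unfold DD; rw [cx_geo, TT_diag]

lemma DD_neg_one (h : 2 * j ≤ d) : DD h (-1) =
    diagonal fun i => ![(-1 : ℂ), -1, 1] (ty h i) := by
  unfold DD; rw [cx_neg_one, TT_diag]

lemma continuous_cx : Continuous cx := by
  unfold cx
  exact (Continuous.matrix_map continuous_subtype_val Complex.continuous_ofReal)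

lemma continuous_DD (h : 2 * j ≤ d) : Continuous (DD h) := by
  unfold DD TT Fm
  simp only [coe_reindexAlgEquiv]
  refine Continuous.matrix_reindex ?_ _ _
  refine Continuous.matrix_fromBlocks ?_ continuous_const continuous_const continuous_const
  exact Continuous.matrix_blockDiagonal (continuous_pi fun _ => continuous_cx)

/-- the projection onto the second coordinates -/
noncomputable def EE (h : 2 * j ≤ d) : Matrix (Fin d) (Fin d) ℂ :=
  diagonal fun i => ![(0 : ℂ), 1, 0] (ty h i)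

lemma EE_mul_EE (h : 2 * j ≤ d) : EE h * EE h = EE h := by
  unfold EE
  rw [diagonal_mul_diagonal]
  congr 1
  funext i
  generalize ty h i = a
  fin_cases a <;> simp

lemma rank_EE (h : 2 * j ≤ d) : (EE h).rank = j := by
  classical
  unfold EE
  rw [rank_diagonal]
  have e1 : ∀ i, (![(0 : ℂ), 1, 0] (ty h i) ≠ 0 ↔ ty h i = 1) := by
    intro i
    generalize ty h i = a
    fin_cases a <;> simp
  have e2 : Fintype.card {i : Fin d // ![(0 : ℂ), 1, 0] (ty h i) ≠ 0} =
      Fintype.card {p : Idx d j // ∃ q : Fin j, p = Sum.inl (1, q)} := by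
    refine Fintype.card_congr ?_
    refine (Fintype.equivFinOfCardEq (card_idx h)).symm.subtypeEquiv fun i => ?_
    rw [e1]
    unfold ty
    rcases (Fintype.equivFinOfCardEq (card_idx h)).symm i with ⟨p, q⟩ | r
    · fin_cases p <;> simp
    · simp
  rw [e2]
  have e3 : Fintype.card {p : Idx d j // ∃ q : Fin j, p = Sum.inl (1, q)} =
      Fintype.card (Fin j) := by
    refine Fintype.card_congr ⟨fun p => p.2.choose, fun q => ⟨Sum.inl (1, q), q, rfl⟩, ?_, ?_⟩
    · intro p
      apply Subtype.ext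
      exact p.2.choose_spec.symm
    · intro q
      have h1 : ∃ q' : Fin j, (Sum.inl (1, q) : Idx d j) = Sum.inl (1, q') := ⟨q, rfl⟩
      have h2 : (Sum.inl (1, q) : Idx d j) = Sum.inl (1, h1.choose) := h1.choose_spec
      have h3 : ((1 : Fin 2), q) = (1, h1.choose) := Sum.inl.inj h2
      have h4 : q = h1.choose := congrArg Prod.snd h3
      exact h4.symm
  rw [e3, Fintype.card_fin]

lemma norm_diag_le (u x : Fin d → ℂ) (c : ℝ) (hc : ∀ i, ‖u i * x i‖ ≤ c) (hc0 : 0 ≤ c) :
    ‖diagonal u *ᵥ x‖ ≤ c := by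
  rw [pi_norm_le_iff_of_nonneg hc0]
  intro i
  rw [mulVec_diagonal]
  exact hc i

end Ex
end Pool.Agent.SimpleAnosov
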