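import Pool.Agent.H55.SA.Example

/-!
# The example representations are simple `j`-Anosov
-/

open Matrix Filter Topology
open scoped MatrixGroups

namespace Pool.Agent.SimpleAnosov

namespace Ex

variable {d j : ℕ}

/-- the representation with values in `SL(d, ℂ)` -/
noncomputable def repSL (h : 2 * j ≤ d) : SL(2, ℝ) →* SL(d, ℂ) where
  toFun g := ⟨DD h g, by unfold DD; rw [det_TT, det_cx, one_pow]⟩
  map_one' := Subtype.ext (DD_one h)
  map_mul' g g' := Subtype.ext (DD_mul h g g')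

lemma repSL_coe (h : 2 * j ≤ d) (g : SL(2, ℝ)) :
    (repSL h g : Matrix (Fin d) (Fin d) ℂ) = DD h g := rfl

/-- the restriction to `Γ` -/
noncomputable def repΓ (Γ : Subgroup SL(2, ℝ)) (h : 2 * j ≤ d) : Γ →* SL(d, ℂ) :=
  (repSL h).comp Γ.subtype

lemma repΓ_coe (Γ : Subgroup SL(2, ℝ)) (h : 2 * j ≤ d) (γ : Γ) :
    (repΓ Γ h γ : Matrix (Fin d) (Fin d) ℂ) = DD h (γ : SL(2, ℝ)) := rfl

/-- the projection -/
noncomputable def PP (h : 2 * j ≤ d) (g : SL(2, ℝ)) : Matrix (Fin d) (Fin d) ℂ :=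
  DD h g * EE h * DD h g⁻¹

/-- the norm -/
noncomputable def NN (h : 2 * j ≤ d) (g : SL(2, ℝ)) (v : Fin d → ℂ) : ℝ := ‖DD h g⁻¹ *ᵥ v‖

lemma det_DD (h : 2 * j ≤ d) (g : SL(2, ℝ)) : (DD h g).det = 1 := by
  unfold DD; rw [det_TT, det_cx, one_pow]

lemma DD_injective (h : 2 * j ≤ d) (g : SL(2, ℝ)) {v : Fin d → ℂ} (hv : DD h g *ᵥ v = 0) :
    v = 0 := by
  have := congrArg (fun x => DD h g⁻¹ *ᵥ x) hv
  simpa only [mulVec_mulVec, DD_inv_mul, one_mulVec, mulVec_zero] using this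

lemma EE_comm_diag (h : 2 * j ≤ d) (u : Fin d → ℂ) : EE h * diagonal u = diagonal u * EE h := by
  unfold EE
  rw [diagonal_mul_diagonal, diagonal_mul_diagonal]
  congr 1
  funext i
  ring

lemma PP_flow (h : 2 * j ≤ d) (g : SL(2, ℝ)) (t : ℝ) : PP h (g * geo t) = PP h g := by
  unfold PP
  rw [_root_.mul_inv_rev, DD_mul, DD_mul]
  have h1 : DD h (geo t) * EE h = EE h * DD h (geo t) := by
    rw [DD_geo, EE_comm_diag]
  calc DD h g * DD h (geo t) * EE h * (DD h (geo t)⁻¹ * DD h g⁻¹) =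
      DD h g * (DD h (geo t) * EE h) * DD h (geo t)⁻¹ * DD h g⁻¹ := by noncomm_ring
    _ = DD h g * EE h * (DD h (geo t) * DD h (geo t)⁻¹) * DD h g⁻¹ := by
        rw [h1]; noncomm_ring
    _ = DD h g * EE h * DD h g⁻¹ := by rw [DD_mul_inv, mul_one]

lemma neg_eq (g : SL(2, ℝ)) : -g = g * (-1) := by rw [mul_neg, mul_one]

lemma neg_inv_eq (g : SL(2, ℝ)) : (-g)⁻¹ = (-1) * g⁻¹ := by
  rw [neg_eq, _root_.mul_inv_rev]
  congr 1
  rw [inv_eq_iff_mul_eq_one]
  simp

lemma PP_neg (h : 2 * j ≤ d) (g : SL(2, ℝ)) : PP h (-g) = PP h g := by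
  unfold PP
  rw [neg_inv_eq, neg_eq, DD_mul, DD_mul]
  have h1 : DD h (-1) * EE h = EE h * DD h (-1) := by
    rw [DD_neg_one, EE_comm_diag]
  have h2 : DD h (-1) * DD h (-1) = 1 := by
    rw [← DD_mul, neg_mul_neg, one_mul, DD_one]
  calc DD h g * DD h (-1) * EE h * (DD h (-1) * DD h g⁻¹) =
      DD h g * (DD h (-1) * EE h) * DD h (-1) * DD h g⁻¹ := by noncomm_ring
    _ = DD h g * EE h * (DD h (-1) * DD h (-1)) * DD h g⁻¹ := by rw [h1]; noncomm_ring
    _ = DD h g * EE h * DD h g⁻¹ := by rw [h2, mul_one]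

lemma NN_neg (h : 2 * j ≤ d) (g : SL(2, ℝ)) (v : Fin d → ℂ) : NN h (-g) v = NN h g v := by
  unfold NN
  rw [neg_inv_eq, DD_mul, ← mulVec_mulVec]
  generalize DD h g⁻¹ *ᵥ v = x
  rw [DD_neg_one]
  have hn : ∀ i, ‖(![(-1 : ℂ), -1, 1] (ty h i))‖ = 1 := by
    intro i
    generalize ty h i = a
    fin_cases a <;> simp
  apply le_antisymm
  · apply norm_diag_le _ _ _ _ (norm_nonneg _)
    intro i
    rw [norm_mul, hn, one_mul]
    exact norm_le_pi_norm x i
  · rw [pi_norm_le_iff_of_nonneg (norm_nonneg _)]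
    intro i
    have h1 := norm_le_pi_norm ((diagonal fun i => ![(-1 : ℂ), -1, 1] (ty h i)) *ᵥ x) i
    rw [mulVec_diagonal, norm_mul, hn, one_mul] at h1
    exact h1

lemma geo_inv (t : ℝ) : (geo t)⁻¹ = geo (-t) := (geo_neg t).symm

lemma NN_flow (h : 2 * j ≤ d) (g : SL(2, ℝ)) (t : ℝ) (v : Fin d → ℂ) :
    NN h (g * geo t) v = ‖(diagonal fun i =>
      ![(Real.exp (-(t / 2)) : ℂ), (Real.exp (t / 2) : ℂ), 1] (ty h i)) *ᵥ (DD h g⁻¹ *ᵥ v)‖ := by
  unfold NN
  rw [_root_.mul_inv_rev, DD_mul, ← mulVec_mulVec, geo_inv, DD_geo]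
  have e1 : -t / 2 = -(t / 2) := by ring
  rw [e1, neg_neg]

theorem isDominated (Γ : Subgroup SL(2, ℝ)) (h : 2 * j ≤ d) :
    IsDominatedSplitting (repΓ Γ h) j (PP h) (NN h) 1 (1 / 2) where
  c_pos := by norm_num
  continuous_P := by
    apply Continuous.continuousOn
    unfold PP
    exact ((continuous_DD h).mul continuous_const).mul ((continuous_DD h).comp continuous_inv)
  idem := by
    intro g _
    unfold PP
    calc DD h g * EE h * DD h g⁻¹ * (DD h g * EE h * DD h g⁻¹) =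
        DD h g * EE h * (DD h g⁻¹ * DD h g) * EE h * DD h g⁻¹ := by noncomm_ring
      _ = DD h g * (EE h * EE h) * DD h g⁻¹ := by rw [DD_inv_mul]; noncomm_ring
      _ = _ := by rw [EE_mul_EE]
  rank_P := by
    intro g _
    unfold PP
    rw [rank_mul_eq_left_of_isUnit_det _ _ (by rw [det_DD]; exact isUnit_one),
      rank_mul_eq_right_of_isUnit_det _ _ (by rw [det_DD]; exact isUnit_one), rank_EE]
  equivariant_P := by
    intro g _ γ
    have e : (((repΓ Γ h γ)⁻¹ : SL(d, ℂ)) : Matrix (Fin d) (Fin d) ℂ) =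
        DD h (γ : SL(2, ℝ))⁻¹ := by
      rw [← map_inv]; rfl
    rw [e, repΓ_coe]
    unfold PP
    rw [_root_.mul_inv_rev, DD_mul, DD_mul]
    noncomm_ring
  neg_P := fun g _ => PP_neg h g
  flow_P := fun g _ t => PP_flow h g t
  continuous_N := by
    apply Continuous.continuousOn
    unfold NN
    exact (Continuous.matrix_mulVec ((continuous_DD h).comp (continuous_inv.comp continuous_fst))
      continuous_snd).norm
  norm_eq_zero := by
    intro g _ v hv
    exact DD_injective h _ (norm_eq_zero.mp hv)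
  norm_add_le := by
    intro g _ v w
    unfold NN
    rw [mulVec_add]
    exact norm_add_le _ _
  norm_smul := by
    intro g _ a v
    unfold NN
    rw [mulVec_smul]
    exact norm_smul _ _
  equivariant_N := by
    intro g _ γ v
    unfold NN
    rw [repΓ_coe, _root_.mul_inv_rev, DD_mul, mulVec_mulVec, mul_assoc, DD_inv_mul, mul_one]
  neg_N := fun g _ v => NN_neg h g v
  dominated := by
    intro g _ v w hv hw hPv hPw t ht
    rw [NN_flow, NN_flow]
    unfold NN
    set x := DD h g⁻¹ *ᵥ w with hx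
    set y := DD h g⁻¹ *ᵥ v with hy
    have hx0 : x ≠ 0 := fun h0 => hw (DD_injective h _ h0)
    have hy0 : y ≠ 0 := fun h0 => hv (DD_injective h _ h0)
    have hEx : EE h *ᵥ x = 0 := by
      apply DD_injective h g
      rw [mulVec_mulVec, hx, mulVec_mulVec]
      exact hPw
    have hEy : EE h *ᵥ y = y := by
      have h1 := congrArg (fun z => DD h g⁻¹ *ᵥ z) hPv
      simp only [PP, mulVec_mulVec] at h1
      rw [← mul_assoc, ← mul_assoc, DD_inv_mul, one_mul] at h1
      rw [hy, mulVec_mulVec]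
      exact h1
    have hxn : 0 < ‖x‖ := norm_pos_iff.mpr hx0
    have hyn : 0 < ‖y‖ := norm_pos_iff.mpr hy0
    have h1 : ‖(diagonal fun i => ![(Real.exp (-(t / 2)) : ℂ), (Real.exp (t / 2) : ℂ), 1]
        (ty h i)) *ᵥ x‖ ≤ ‖x‖ := by
      apply norm_diag_le _ _ _ _ hxn.le
      intro i
      have hxi := norm_le_pi_norm x i
      have hEi := congrFun hEx i
      rw [EE, mulVec_diagonal] at hEi
      have hle : Real.exp (-(t / 2)) ≤ 1 := by
        rw [Real.exp_le_one_iff]; linarith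
      revert hEi
      generalize ty h i = a
      fin_cases a
      · intro _
        simp only [Fin.zero_eta, cons_val_zero]
        rw [norm_mul, Complex.norm_real, Real.norm_eq_abs, abs_of_pos (Real.exp_pos _)]
        calc _ ≤ 1 * ‖x‖ := mul_le_mul hle hxi (norm_nonneg _) zero_le_one
          _ = ‖x‖ := one_mul _
      · intro hEi
        have hxi0 : x i = 0 := by simpa using hEi
        rw [hxi0, mul_zero, norm_zero]
        exact hxn.le
      · intro _
        simpa using hxi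
    have h2 : Real.exp (t / 2) * ‖y‖ ≤ ‖(diagonal fun i =>
        ![(Real.exp (-(t / 2)) : ℂ), (Real.exp (t / 2) : ℂ), 1] (ty h i)) *ᵥ y‖ := by
      have h3 : ‖y‖ ≤ Real.exp (-(t / 2)) * ‖(diagonal fun i =>
        ![(Real.exp (-(t / 2)) : ℂ), (Real.exp (t / 2) : ℂ), 1] (ty h i)) *ᵥ y‖ := by
        rw [pi_norm_le_iff_of_nonneg (by positivity)]
        intro i
        have h4 := norm_le_pi_norm ((diagonal fun i =>
          ![(Real.exp (-(t / 2)) : ℂ), (Real.exp (t / 2) : ℂ), 1] (ty h i)) *ᵥ y) i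
        rw [mulVec_diagonal] at h4
        have hEi := congrFun hEy i
        rw [EE, mulVec_diagonal] at hEi
        revert h4 hEi
        generalize ty h i = a
        fin_cases a
        · intro _ hEi
          have hyi0 : y i = 0 := by simpa using hEi.symm
          rw [hyi0, norm_zero]; positivity
        · intro h4 _
          simp only [Fin.mk_one, cons_val_one, cons_val_zero] at h4
          rw [norm_mul, Complex.norm_real, Real.norm_eq_abs, abs_of_pos (Real.exp_pos _)] at h4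
          calc ‖y i‖ = Real.exp (-(t / 2)) * (Real.exp (t / 2) * ‖y i‖) := by
                rw [← mul_assoc, ← Real.exp_add]; simp
            _ ≤ _ := mul_le_mul_of_nonneg_left h4 (Real.exp_pos _).le
        · intro _ hEi
          have hyi0 : y i = 0 := by simpa using hEi.symm
          rw [hyi0, norm_zero]; positivity
      calc Real.exp (t / 2) * ‖y‖ ≤ Real.exp (t / 2) * (Real.exp (-(t / 2)) * ‖(diagonal fun i =>
            ![(Real.exp (-(t / 2)) : ℂ), (Real.exp (t / 2) : ℂ), 1] (ty h i)) *ᵥ y‖) :=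
            mul_le_mul_of_nonneg_left h3 (Real.exp_pos _).le
        _ = _ := by rw [← mul_assoc, ← Real.exp_add]; simp
    calc _ ≤ (1 : ℝ) := by rw [div_le_one hxn]; exact h1
      _ = 1 * Real.exp (-(1 / 2 * t)) * Real.exp (t / 2) := by
          rw [one_mul, ← Real.exp_add]
          have : -(1 / 2 * t) + t / 2 = 0 := by ring
          rw [this, Real.exp_zero]
      _ ≤ _ := by
          apply mul_le_mul_of_nonneg_left _ (by positivity)
          rw [le_div_iff₀ hyn]
          exact h2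

end Ex

/-- The example: `j` copies of the Fuchsian representation plus a trivial one. -/
theorem example_anosov {Γ : Subgroup SL(2, ℝ)} (d j : ℕ) (hjd : 2 * j ≤ d) :
    ∃ ρ : Γ →* SL(d, ℂ), IsSimpleAnosov j ρ ∧ ∀ γ : Γ,
      (ρ γ : Matrix (Fin d) (Fin d) ℂ).trace =
        j * ((((γ : SL(2, ℝ)) : Matrix (Fin 2) (Fin 2) ℝ).trace : ℝ) : ℂ) + (d - 2 * j) ∧
      ((ρ γ : Matrix (Fin d) (Fin d) ℂ) * (ρ γ : Matrix (Fin d) (Fin d) ℂ) -
        ((((γ : SL(2, ℝ)) : Matrix (Fin 2) (Fin 2) ℝ).trace : ℝ) : ℂ) •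
          (ρ γ : Matrix (Fin d) (Fin d) ℂ) + 1) * ((ρ γ : Matrix (Fin d) (Fin d) ℂ) - 1) = 0 := by
  refine ⟨Ex.repΓ Γ hjd, ⟨_, _, _, _, Ex.isDominated Γ hjd⟩, fun γ => ⟨?_, ?_⟩⟩
  · rw [Ex.repΓ_coe, ← Ex.trace_cx]
    exact Ex.trace_TT hjd _
  · rw [Ex.repΓ_coe, ← Ex.trace_cx]
    exact Ex.TT_identity hjd _ (Ex.det_cx _)

end Pool.Agent.SimpleAnosov
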