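import Pool.Agent.H55.SA.Domain2
import Pool.Agent.H55.SA.Example2
import Pool.Agent.H76.SA.Rank

/-!
# The simple Anosov domains are not maximal domains of discontinuity
-/

open Matrix Filter Topology
open scoped MatrixGroups Matrix.Norms.Operator

namespace Pool.Agent.SimpleAnosov

section fin
variable {d k : ℕ} {Γ : Subgroup SL(2, ℝ)}

lemma cjr_identity {G : Type*} [Group G] (u : (Matrix (Fin d) (Fin d) ℂ)ˣ)
    (ρ : G →* Matrix (Fin d) (Fin d) ℂ) (g : G) (t : ℂ)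
    (h : (ρ g * ρ g - t • ρ g + 1) * (ρ g - 1) = 0) :
    (cjr u ρ g * cjr u ρ g - t • cjr u ρ g + 1) * (cjr u ρ g - 1) = 0 := by
  set U : Matrix (Fin d) (Fin d) ℂ := (u : Matrix (Fin d) (Fin d) ℂ) with hU
  set V : Matrix (Fin d) (Fin d) ℂ :=
    ((u⁻¹ : (Matrix (Fin d) (Fin d) ℂ)ˣ) : Matrix (Fin d) (Fin d) ℂ) with hV
  have hVU : V * U = 1 := Units.inv_mul u
  have hUV : U * V = 1 := Units.mul_inv u
  have hA : cjr u ρ g = U * ρ g * V := rfl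
  rw [hA]
  have e1 : U * ρ g * V * (U * ρ g * V) = U * (ρ g * ρ g) * V := by
    calc U * ρ g * V * (U * ρ g * V) = U * ρ g * (V * U) * ρ g * V := by noncomm_ring
      _ = _ := by rw [hVU]; noncomm_ring
  have e2 : U * ρ g * V * (U * ρ g * V) - t • (U * ρ g * V) + 1 =
      U * (ρ g * ρ g - t • ρ g + 1) * V := by
    rw [e1, mul_add, add_mul, mul_sub, sub_mul, mul_one, hUV, mul_smul_comm, smul_mul_assoc]
  have e3 : U * ρ g * V - 1 = U * (ρ g - 1) * V := by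
    rw [mul_sub, sub_mul, mul_one, hUV]
  rw [e2, e3]
  calc U * (ρ g * ρ g - t • ρ g + 1) * V * (U * (ρ g - 1) * V) =
      U * ((ρ g * ρ g - t • ρ g + 1) * (V * U) * (ρ g - 1)) * V := by noncomm_ring
    _ = 0 := by rw [hVU, mul_one, h]; simp

theorem not_mem_domain (hΓ : IsSurfaceGroup Γ) {j : ℕ} (hjd : 2 * j ≤ d)
    {ρ : Γ →* SL(d, ℂ)}
    (htr : ∀ γ : Γ, (ρ γ : Matrix (Fin d) (Fin d) ℂ).trace =
      j * ((((γ : SL(2, ℝ)) : Matrix (Fin 2) (Fin 2) ℝ).trace : ℝ) : ℂ) + (d - 2 * j))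
    (hid : ∀ γ : Γ, ((ρ γ : Matrix (Fin d) (Fin d) ℂ) * (ρ γ : Matrix (Fin d) (Fin d) ℂ) -
      ((((γ : SL(2, ℝ)) : Matrix (Fin 2) (Fin 2) ℝ).trace : ℝ) : ℂ) •
        (ρ γ : Matrix (Fin d) (Fin d) ℂ) + 1) * ((ρ γ : Matrix (Fin d) (Fin d) ℂ) - 1) = 0)
    (h0 : k ≠ 0) (h1 : k ≠ j) (h2 : k ≠ d - j) (h3 : k ≠ d) :
    CharVar.mk ρ ∉ simpleAnosovDomain Γ d k := by
  rintro ⟨ρ1, ⟨P, N, C, c, H⟩, heq⟩
  have hch : ∀ g, (hatr ρ1 g).trace = (hatr ρ g).trace := by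
    intro g
    have := congrArg (fun χ : CharVar Γ d => χ.1 g) heq
    exact this
  obtain ⟨D, hD, hcov⟩ := hΓ.cocompact
  obtain ⟨C', HC⟩ := H.toCoarse hD
  obtain ⟨S, hS⟩ := exists_monoid_gen hΓ
  obtain ⟨u, φ, σ, -, hσ, hss, hσtr⟩ := rep_limit S hS (fun _ => hatr ρ)
    (fun g => (hatr ρ g).trace) (fun g => tendsto_const_nhds)
  obtain ⟨P', C'', Hσ⟩ := HC.transfer hcov H.continuous_P S hS σ
    (fun g => by rw [hσtr, hch]) hss
  have hfin := coarse_rank hΓ hcov Hσ j hjd (by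
    intro γ
    rw [hσtr, hatr_apply, htr, tr_eq]) (by
    intro γ
    have h4 : ∀ n, (cjr (u n) (hatr ρ) γ * cjr (u n) (hatr ρ) γ -
        ((tr γ : ℝ) : ℂ) • cjr (u n) (hatr ρ) γ + 1) * (cjr (u n) (hatr ρ) γ - 1) = 0 := by
      intro n
      apply cjr_identity
      rw [hatr_apply, tr_eq]
      exact hid γ
    have h5 : Tendsto (fun n => (cjr (u n) (hatr ρ) γ * cjr (u n) (hatr ρ) γ -
        ((tr γ : ℝ) : ℂ) • cjr (u n) (hatr ρ) γ + 1) * (cjr (u n) (hatr ρ) γ - 1)) atTop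
        (𝓝 ((σ γ * σ γ - ((tr γ : ℝ) : ℂ) • σ γ + 1) * (σ γ - 1))) := by
      have hγ := hσ γ
      exact (((hγ.mul hγ).sub (hγ.const_smul _)).add tendsto_const_nhds).mul
        (hγ.sub tendsto_const_nhds)
    simp only [h4] at h5
    exact (tendsto_nhds_unique h5 tendsto_const_nhds))
  rcases hfin with h | h | h | h
  · exact h0 h
  · exact h1 h
  · exact h2 h
  · exact h3 h

/-- For every closed hyperbolic surface and every `d ≥ 4` there is a domain of discontinuity which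
strictly contains each simple `k`-Anosov domain. -/
theorem exists_larger_domain (Γ : Subgroup SL(2, ℝ)) (hΓ : IsSurfaceGroup Γ) (d : ℕ)
    (hd : 4 ≤ d) : ∃ U : Set (CharVar Γ d), IsDomainOfDiscontinuity U ∧
      ∀ k : ℕ, 1 ≤ k → k ≤ d - 1 → simpleAnosovDomain Γ d k ⊂ U := by
  refine ⟨{χ | Good χ}, isDomain_good hΓ, fun k hk hkd => ?_⟩
  have hsub : simpleAnosovDomain Γ d k ⊆ {χ | Good χ} := by
    rintro χ ⟨ρ, hρ, rfl⟩
    exact good_of_simpleAnosov hΓ hk (by omega) hρ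
  obtain ⟨j, hj1, hj2, hj3, hj4⟩ : ∃ j, 1 ≤ j ∧ 2 * j ≤ d ∧ k ≠ j ∧ k ≠ d - j := by
    by_cases h : k = 1 ∨ k = d - 1
    · exact ⟨2, by omega, by omega, by omega, by omega⟩
    · exact ⟨1, by omega, by omega, by omega, by omega⟩
  obtain ⟨ρ, hρ, hex⟩ := example_anosov (Γ := Γ) d j hj2
  refine Set.ssubset_iff_of_subset hsub |>.mpr ⟨CharVar.mk ρ, ?_, ?_⟩
  · exact good_of_simpleAnosov hΓ hj1 (by omega) hρ
  · exact not_mem_domain hΓ hj2 (fun γ => (hex γ).1) (fun γ => (hex γ).2)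
      (by omega) hj3 hj4 (by omega)

end fin
end Pool.Agent.SimpleAnosov
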