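import Pool.Agent.H55.SA.Lin
open Matrix Polynomial Filter Topology
namespace Pool.Agent.SimpleAnosov

section ker
variable {𝕜 : Type*} [RCLike 𝕜] {d : ℕ}

lemma ker_lemma (N : Submodule 𝕜 (Matrix (Fin d) (Fin d) 𝕜))
    (hmul : ∀ a ∈ N, ∀ b ∈ N, a * b ∈ N) (hnil : ∀ a ∈ N, IsNilpotent a)
    (hss : ∀ Q : Matrix (Fin d) (Fin d) 𝕜, Qᴴ = Q → Q * Q = Q → (∀ a ∈ N, a * Q = 0) →
      (∀ v, (∀ a ∈ N, a *ᵥ v = 0) → Q *ᵥ v = v) → ∀ a ∈ N, Q * a * (1 - Q) = 0) :
    ∀ a ∈ N, a = 0 := by
  let V : Submodule 𝕜 (Fin d → 𝕜) :=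
    { carrier := {v | ∀ a ∈ N, a *ᵥ v = 0}
      add_mem' := fun {x y} hx hy a ha => by rw [mulVec_add, hx a ha, hy a ha, add_zero]
      zero_mem' := fun a _ => mulVec_zero a
      smul_mem' := fun c x hx a ha => by rw [mulVec_smul, hx a ha, smul_zero] }
  have hV : ∀ v, v ∈ V ↔ ∀ a ∈ N, a *ᵥ v = 0 := fun v => Iff.rfl
  obtain ⟨Q, hQ, hQQ, hQV, hQid⟩ := exists_proj V
  have haQ : ∀ a ∈ N, a * Q = 0 := by
    intro a ha
    apply Matrix.ext_of_mulVec_single
    intro i
    rw [← mulVec_mulVec, zero_mulVec]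
    exact hQV _ a ha
  have h1 := hss Q hQ hQQ haQ (fun v hv => hQid v hv)
  by_cases htop : V = ⊤
  · intro a ha
    apply Matrix.ext_of_mulVec_single
    intro i
    rw [zero_mulVec]
    have : (Pi.single i 1 : Fin d → 𝕜) ∈ V := by rw [htop]; trivial
    exact this a ha
  · exfalso
    obtain ⟨v, hv, hav⟩ := flag_step N hmul hnil V
      (fun a ha u hu => by rw [hu a ha]; exact V.zero_mem) htop
    apply hv
    intro a ha
    have h2 := hQid _ (hav a ha)
    have h3 : Q *ᵥ (a *ᵥ v) = 0 := by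
      have : Q * a = Q * a * (1 - Q) + Q * (a * Q) := by noncomm_ring
      rw [mulVec_mulVec, this, h1 a ha, haQ a ha]; simp
    rw [← h2, h3]

lemma list_prod_mem_span_mul {ι : Type*} (A : ι → Matrix (Fin d) (Fin d) 𝕜) :
    ∀ a ∈ Submodule.span 𝕜 {M | ∃ w : List ι, w ≠ [] ∧ (w.map A).prod = M},
    ∀ b ∈ Submodule.span 𝕜 {M | ∃ w : List ι, w ≠ [] ∧ (w.map A).prod = M},
      a * b ∈ Submodule.span 𝕜 {M | ∃ w : List ι, w ≠ [] ∧ (w.map A).prod = M} := by
  intro a ha b hb
  induction ha using Submodule.span_induction with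
  | mem x hx =>
    obtain ⟨w, hw, rfl⟩ := hx
    induction hb using Submodule.span_induction with
    | mem y hy =>
      obtain ⟨w', hw', rfl⟩ := hy
      refine Submodule.subset_span ⟨w ++ w', by simp [hw], ?_⟩
      rw [List.map_append, List.prod_append]
    | zero => rw [mul_zero]; exact Submodule.zero_mem _
    | add y z _ _ hy hz => rw [mul_add]; exact Submodule.add_mem _ hy hz
    | smul c y _ hy => rw [mul_smul_comm]; exact Submodule.smul_mem _ _ hy
  | zero => rw [zero_mul]; exact Submodule.zero_mem _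
  | add y z _ _ hy hz => rw [add_mul]; exact Submodule.add_mem _ hy hz
  | smul c y _ hy => rw [smul_mul_assoc]; exact Submodule.smul_mem _ _ hy

lemma zero_of_traces {ι : Type*} (A : ι → Matrix (Fin d) (Fin d) 𝕜)
    (htr : ∀ w : List ι, w ≠ [] → ((w.map A).prod).trace = 0) (hss : OrthSS A) :
    ∀ i, A i = 0 := by
  set N := Submodule.span 𝕜 {M | ∃ w : List ι, w ≠ [] ∧ (w.map A).prod = M} with hN
  have hmul := list_prod_mem_span_mul (𝕜 := 𝕜) A
  have htr0 : ∀ a ∈ N, a.trace = 0 := by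
    intro a ha
    induction ha using Submodule.span_induction with
    | mem x hx => obtain ⟨w, hw, rfl⟩ := hx; exact htr w hw
    | zero => exact trace_zero _ _
    | add y z _ _ hy hz => rw [trace_add, hy, hz, add_zero]
    | smul c y _ hy => rw [trace_smul, hy, smul_zero]
  have hnil : ∀ a ∈ N, IsNilpotent a := by
    intro a ha
    apply isNilpotent_of_trace_pow
    intro j hj
    apply htr0
    obtain ⟨j, rfl⟩ : ∃ k, j = k + 1 := ⟨j - 1, by omega⟩
    clear hj
    induction j with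
    | zero => simpa using ha
    | succ j ih => rw [pow_succ]; exact hmul _ ih _ ha
  have hAN : ∀ i, A i ∈ N := fun i => Submodule.subset_span ⟨[i], by simp, by simp⟩
  have key := ker_lemma N hmul hnil (by
    intro Q hQ hQQ haQ _ a ha
    have hQA : ∀ i, Q * A i * (1 - Q) = 0 :=
      hss Q hQ hQQ (fun i => by rw [mul_assoc, haQ _ (hAN i), mul_zero])
    induction ha using Submodule.span_induction with
    | mem x hx =>
      obtain ⟨w, hw, rfl⟩ := hx
      obtain ⟨i, w, rfl⟩ := List.exists_cons_of_ne_nil hw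
      rw [List.map_cons, List.prod_cons]
      have e : Q * (A i * (List.map A w).prod) * (1 - Q) =
          (Q * A i * (1 - Q)) * ((List.map A w).prod * (1 - Q)) +
          Q * (A i * Q) * ((List.map A w).prod * (1 - Q)) := by noncomm_ring
      rw [e, hQA i, haQ _ (hAN i)]; simp
    | zero => simp
    | add y z _ _ hy hz => rw [mul_add, add_mul, hy, hz, add_zero]
    | smul c y _ hy => rw [mul_smul_comm, smul_mul_assoc, hy, smul_zero])
  exact fun i => key _ (hAN i)

end ker
end Pool.Agent.SimpleAnosov
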