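import Mathlib

/-!
# Linear algebra for character varieties
-/

open Matrix Polynomial

namespace Pool.Agent.SimpleAnosov

section nilp
variable {𝕜 : Type*} [Field 𝕜] {d : ℕ}

lemma trace_aeval_X_mul (M : Matrix (Fin d) (Fin d) 𝕜) (h : ∀ j, 0 < j → (M ^ j).trace = 0)
    (p : 𝕜[X]) : (aeval M (X * p)).trace = 0 := by
  induction p using Polynomial.induction_on' with
  | add p q hp hq => rw [mul_add, map_add, trace_add, hp, hq, add_zero]
  | monomial n a =>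
    rw [X_mul_monomial, aeval_monomial, ← Algebra.smul_def, trace_smul, h _ (Nat.succ_pos n),
      smul_zero]

lemma isNilpotent_of_trace_pow [CharZero 𝕜] (M : Matrix (Fin d) (Fin d) 𝕜)
    (h : ∀ j, 0 < j → (M ^ j).trace = 0) : IsNilpotent M := by
  classical
  have hint : IsIntegral 𝕜 M := Algebra.IsIntegral.isIntegral M
  have hne : minpoly 𝕜 M ≠ 0 := minpoly.ne_zero hint
  obtain ⟨q, hq, hXq⟩ := exists_eq_pow_rootMultiplicity_mul_and_not_dvd (minpoly 𝕜 M) hne 0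
  rw [map_zero, sub_zero] at hq hXq
  set m := rootMultiplicity 0 (minpoly 𝕜 M) with hm
  have hcop : IsCoprime (X ^ (m + 1)) q :=
    ((Polynomial.irreducible_X).coprime_iff_not_dvd.mpr hXq).pow_left
  obtain ⟨u, v, huv⟩ := hcop
  set e : Matrix (Fin d) (Fin d) 𝕜 := aeval M (u * X ^ (m + 1)) with he
  have h1 : aeval M (v * q) = 1 - e := by
    have h3 := congrArg (aeval M) huv
    rw [map_add, map_one, ← he] at h3
    exact eq_sub_of_add_eq' h3
  have hmin : aeval M (X ^ m * q) = 0 := by rw [← hq]; exact minpoly.aeval _ _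
  have h2 : e * (1 - e) = 0 := by
    rw [← h1, he, ← map_mul]
    have : u * X ^ (m + 1) * (v * q) = (u * X * v) * (X ^ m * q) := by ring
    rw [this, map_mul, hmin, mul_zero]
  have h3 : e * e = e := by
    rw [mul_sub, mul_one, sub_eq_zero] at h2; exact h2.symm
  have hid : IsIdempotentElem (Matrix.toLin' e) := by
    unfold IsIdempotentElem
    rw [Module.End.mul_eq_comp, ← Matrix.toLin'_mul, h3]
  have htr : e.trace = 0 := by
    have : u * X ^ (m + 1) = X * (u * X ^ m) := by ring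
    rw [he, this]; exact trace_aeval_X_mul M h _
  have he0 : e = 0 := by
    have := LinearMap.IsIdempotentElem.eq_zero_of_trace_eq_zero hid
      (by rw [Matrix.trace_toLin'_eq]; exact htr)
    exact (Matrix.toLin').map_eq_zero_iff.mp this
  refine ⟨m, ?_⟩
  have h4 : aeval M (v * q) = 1 := by rw [h1, he0, sub_zero]
  have : aeval M (X ^ m * (v * q)) = M ^ m := by
    rw [map_mul, h4, mul_one, map_pow, aeval_X]
  rw [← this]
  have h5 : X ^ m * (v * q) = v * (X ^ m * q) := by ring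
  rw [h5, map_mul, hmin, mul_zero]
end nilp

section flag
variable {𝕜 : Type*} [Field 𝕜] {d : ℕ}

/-- evaluation at a vector -/
def evAt (u : Fin d → 𝕜) : Matrix (Fin d) (Fin d) 𝕜 →ₗ[𝕜] (Fin d → 𝕜) where
  toFun M := M *ᵥ u
  map_add' A B := by rw [add_mulVec]
  map_smul' c A := by simp [smul_mulVec]

lemma flag_step (N : Submodule 𝕜 (Matrix (Fin d) (Fin d) 𝕜))
    (hmul : ∀ a ∈ N, ∀ b ∈ N, a * b ∈ N) (hnil : ∀ a ∈ N, IsNilpotent a)
    (U : Submodule 𝕜 (Fin d → 𝕜)) (hU : ∀ a ∈ N, ∀ u ∈ U, a *ᵥ u ∈ U) (hne : U ≠ ⊤) :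
    ∃ v, v ∉ U ∧ ∀ a ∈ N, a *ᵥ v ∈ U := by
  classical
  have hex : ∃ n, ∃ u, u ∉ U ∧ Module.finrank 𝕜 ↥((N.map (evAt u)) ⊔ U) = n := by
    by_contra hcon
    apply hne
    rw [eq_top_iff]
    intro v _
    by_contra hv
    exact hcon ⟨_, v, hv, rfl⟩
  obtain ⟨u, hu, hfin⟩ := Nat.find_spec hex
  refine ⟨u, hu, ?_⟩
  by_contra hcon
  push Not at hcon
  obtain ⟨a, ha, hau⟩ := hcon
  set x := a *ᵥ u with hx
  have hle : (N.map (evAt x)) ⊔ U ≤ (N.map (evAt u)) ⊔ U := by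
    refine sup_le_sup_right ?_ U
    rintro _ ⟨b, hb, rfl⟩
    exact ⟨b * a, hmul b hb a ha, by simp [evAt, hx, mulVec_mulVec]⟩
  have hge : Module.finrank 𝕜 ↥((N.map (evAt u)) ⊔ U) ≤
      Module.finrank 𝕜 ↥((N.map (evAt x)) ⊔ U) := by
    rw [hfin]
    exact Nat.find_min' hex ⟨x, hau, rfl⟩
  have heq := Submodule.eq_of_le_of_finrank_le hle hge
  have hxm : x ∈ (N.map (evAt x)) ⊔ U := by
    rw [heq]
    exact Submodule.mem_sup_left ⟨a, ha, rfl⟩
  obtain ⟨y, ⟨b, hb, rfl⟩, w, hw, hyw⟩ := Submodule.mem_sup.mp hxm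
  have hb' : x - b *ᵥ x ∈ U := by
    have : x - b *ᵥ x = w := by
      rw [← hyw]
      change (b *ᵥ x + w) - b *ᵥ (b *ᵥ x + w) = w
      have h2 : b *ᵥ x + w = x := hyw
      rw [h2]
      nth_rewrite 1 [← h2]
      abel
    rw [this]; exact hw
  have hpow : ∀ j : ℕ, x - (b ^ j) *ᵥ x ∈ U := by
    intro j
    induction j with
    | zero => simp
    | succ j ih =>
      have h3 : x - (b ^ (j + 1)) *ᵥ x = (x - b *ᵥ x) + b *ᵥ (x - (b ^ j) *ᵥ x) := by
        have h4 : (b ^ (j + 1)) *ᵥ x = b *ᵥ ((b ^ j) *ᵥ x) := by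
          rw [pow_succ', ← mulVec_mulVec]
        rw [mulVec_sub, h4]
        abel
      rw [h3]
      exact U.add_mem hb' (hU b hb _ ih)
  obtain ⟨m, hm⟩ := hnil b hb
  have := hpow m
  rw [hm, zero_mulVec, sub_zero] at this
  exact hau this

end flag

section proj
variable {𝕜 : Type*} [RCLike 𝕜] {d : ℕ}

lemma exists_proj (U : Submodule 𝕜 (Fin d → 𝕜)) :
    ∃ Q : Matrix (Fin d) (Fin d) 𝕜, Qᴴ = Q ∧ Q * Q = Q ∧ (∀ v, Q *ᵥ v ∈ U) ∧
      ∀ v ∈ U, Q *ᵥ v = v := by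
  set U' : Submodule 𝕜 (EuclideanSpace 𝕜 (Fin d)) :=
    U.comap (WithLp.linearEquiv 2 𝕜 (Fin d → 𝕜)).toLinearMap with hU'
  set T := U'.starProjection with hT
  set Q := (Matrix.toEuclideanCLM (n := Fin d) (𝕜 := 𝕜)).symm T with hQ
  have hQT : Matrix.toEuclideanCLM (n := Fin d) (𝕜 := 𝕜) Q = T := by
    rw [hQ]; exact StarAlgEquiv.apply_symm_apply _ _
  have hv : ∀ v : Fin d → 𝕜, Q *ᵥ v = WithLp.ofLp (T (WithLp.toLp 2 v)) := by
    intro v
    rw [← hQT]
    rfl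
  refine ⟨Q, ?_, ?_, ?_, ?_⟩
  · have h1 : star T = T := isSelfAdjoint_starProjection U'
    have : star Q = Q := by
      rw [hQ, ← map_star, h1]
    exact this
  · rw [hQ, ← map_mul]
    congr 1
    exact U'.isIdempotentElem_starProjection
  · intro v
    rw [hv]
    have := U'.starProjection_apply_mem (WithLp.toLp 2 v)
    exact this
  · intro v hvU
    rw [hv, hT, Submodule.starProjection_eq_self_iff.mpr]
    exact hvU

end proj

section kn
variable {𝕜 : Type*} [RCLike 𝕜] {d : ℕ}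

/-- squared Frobenius norm -/
noncomputable def nsq (A : Matrix (Fin d) (Fin d) 𝕜) : ℝ := ∑ i, ∑ j, ‖A i j‖ ^ 2

lemma nsq_nonneg (A : Matrix (Fin d) (Fin d) 𝕜) : 0 ≤ nsq A :=
  Finset.sum_nonneg fun i _ => Finset.sum_nonneg fun j _ => by positivity

lemma trace_conj_mul (A : Matrix (Fin d) (Fin d) 𝕜) : (Aᴴ * A).trace = ((nsq A : ℝ) : 𝕜) := by
  simp only [trace, diag_apply, mul_apply, conjTranspose_apply, nsq]
  rw [Finset.sum_comm]
  push_cast
  refine Finset.sum_congr rfl fun i _ => Finset.sum_congr rfl fun j _ => ?_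
  rw [RCLike.star_def, RCLike.conj_mul]

lemma nsq_eq_zero {A : Matrix (Fin d) (Fin d) 𝕜} (h : nsq A = 0) : A = 0 := by
  have h1 := (Finset.sum_eq_zero_iff_of_nonneg
    (fun i _ => Finset.sum_nonneg fun j _ => by positivity)).mp h
  ext i j
  have h2 := (Finset.sum_eq_zero_iff_of_nonneg (fun j _ => by positivity)).mp
    (h1 i (Finset.mem_univ _)) j (Finset.mem_univ _)
  simpa using h2

/-- orthogonal semisimplicity of a family of matrices: the orthogonal complement of an invariant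
subspace is invariant. -/
def OrthSS {ι : Type*} (A : ι → Matrix (Fin d) (Fin d) 𝕜) : Prop :=
  ∀ Q : Matrix (Fin d) (Fin d) 𝕜, Qᴴ = Q → Q * Q = Q → (∀ i, (1 - Q) * A i * Q = 0) →
    ∀ i, Q * A i * (1 - Q) = 0

lemma nsq_block (Q A : Matrix (Fin d) (Fin d) 𝕜) (hQ : Qᴴ = Q) (hQQ : Q * Q = Q)
    (hA : (1 - Q) * A * Q = 0) (r : ℝ) (g gi : Matrix (Fin d) (Fin d) 𝕜) (hr : r ≠ 0)
    (hg : g = (r : 𝕜) • Q + (1 - Q)) (hgi : gi = ((r : 𝕜)⁻¹) • Q + (1 - Q)) :
    nsq (g * A * gi) = nsq (Q * A * Q + (1 - Q) * A * (1 - Q)) +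
      r ^ 2 * nsq (Q * A * (1 - Q)) := by
  set B := Q * A * Q + (1 - Q) * A * (1 - Q) with hB
  set C := Q * A * (1 - Q) with hC
  have hr' : (r : 𝕜) ≠ 0 := by exact_mod_cast hr
  have h1 : g * A * gi = B + (r : 𝕜) • C := by
    have : g * A * gi = Q * A * Q + (1 - Q) * A * (1 - Q) + (r : 𝕜) • (Q * A * (1 - Q))
        + ((r : 𝕜)⁻¹) • ((1 - Q) * A * Q) := by
      rw [hg, hgi]
      simp only [add_mul, mul_add, smul_mul_assoc, mul_smul_comm]
      rw [smul_add, smul_smul, inv_mul_cancel₀ hr', one_smul]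
      abel
    rw [this, hA, smul_zero, add_zero]
  have hQ1 : (1 - Q) * Q = 0 := by rw [sub_mul, one_mul, hQQ, sub_self]
  have hQ2 : Q * (1 - Q) = 0 := by rw [mul_sub, mul_one, hQQ, sub_self]
  have hBC : (Bᴴ * C).trace = 0 := by
    have e1 : Bᴴ * C = (Q * Aᴴ * Q * Q * A) * (1 - Q) := by
      rw [hB, hC, conjTranspose_add, conjTranspose_mul, conjTranspose_mul, conjTranspose_mul,
        conjTranspose_mul, conjTranspose_sub, conjTranspose_one, hQ, add_mul]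
      have e2 : (1 - Q) * (Aᴴ * (1 - Q)) * (Q * A * (1 - Q)) = 0 := by
        have : (1 - Q) * (Aᴴ * (1 - Q)) * (Q * A * (1 - Q)) =
          (1 - Q) * (Aᴴ * ((1 - Q) * Q) * (A * (1 - Q))) := by noncomm_ring
        rw [this, hQ1]; simp
      rw [e2, add_zero]
      noncomm_ring
    rw [e1, Matrix.trace_mul_comm]
    have : (1 - Q) * (Q * Aᴴ * Q * Q * A) = ((1 - Q) * Q) * (Aᴴ * Q * Q * A) := by noncomm_ring
    rw [this, hQ1]; simp
  have hCB : (Cᴴ * B).trace = 0 := by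
    have := congrArg star hBC
    rw [← trace_conjTranspose, conjTranspose_mul, conjTranspose_conjTranspose, star_zero] at this
    exact this
  clear_value B C
  have key : ((nsq (g * A * gi) : ℝ) : 𝕜) = ((nsq B + r ^ 2 * nsq C : ℝ) : 𝕜) := by
    rw [← trace_conj_mul, h1, conjTranspose_add, conjTranspose_smul, add_mul, mul_add, mul_add]
    simp only [smul_mul_assoc, mul_smul_comm, trace_add, trace_smul, hBC, hCB, smul_zero,
      add_zero, zero_add]
    rw [trace_conj_mul, trace_conj_mul]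
    push_cast
    rw [RCLike.star_def, RCLike.conj_ofReal, smul_eq_mul, smul_eq_mul]
    ring
  exact_mod_cast key

lemma orthSS_of_minimal {ι : Type*} [Fintype ι] (A : ι → Matrix (Fin d) (Fin d) 𝕜)
    (hmin : ∀ g gi : Matrix (Fin d) (Fin d) 𝕜, g * gi = 1 → gi * g = 1 →
      ∑ i, nsq (A i) ≤ ∑ i, nsq (g * A i * gi)) : OrthSS A := by
  intro Q hQ hQQ hA
  have h2 : ((1 / 2 : ℝ)) ≠ 0 := by norm_num
  have h2' : (((1 / 2 : ℝ)) : 𝕜) ≠ 0 := by exact_mod_cast h2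
  have hQ1 : (1 - Q) * Q = 0 := by rw [sub_mul, one_mul, hQQ, sub_self]
  have hQ2 : Q * (1 - Q) = 0 := by rw [mul_sub, mul_one, hQQ, sub_self]
  have hQ3 : (1 - Q) * (1 - Q) = 1 - Q := by rw [mul_sub, mul_one, hQ1, sub_zero]
  have hinv : ∀ a b : 𝕜, a * b = 1 → (a • Q + (1 - Q)) * (b • Q + (1 - Q)) = 1 := by
    intro a b hab
    rw [add_mul, mul_add, mul_add, hQ3]
    simp only [smul_mul_assoc, mul_smul_comm, smul_smul, hQQ, hQ1, hQ2, smul_zero]
    rw [mul_comm b a, hab]; simp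
  have hm := hmin (((1 / 2 : ℝ) : 𝕜) • Q + (1 - Q)) ((((1 / 2 : ℝ) : 𝕜)⁻¹) • Q + (1 - Q))
    (hinv _ _ (mul_inv_cancel₀ h2')) (hinv _ _ (inv_mul_cancel₀ h2'))
  have e1 : ∀ i, nsq ((((1 / 2 : ℝ) : 𝕜) • Q + (1 - Q)) * A i *
      ((((1 / 2 : ℝ) : 𝕜)⁻¹) • Q + (1 - Q))) =
      nsq (Q * A i * Q + (1 - Q) * A i * (1 - Q)) + (1 / 2) ^ 2 * nsq (Q * A i * (1 - Q)) :=
    fun i => nsq_block Q (A i) hQ hQQ (hA i) (1 / 2) _ _ h2 rfl rfl
  have e2 : ∀ i, nsq (A i) =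
      nsq (Q * A i * Q + (1 - Q) * A i * (1 - Q)) + 1 ^ 2 * nsq (Q * A i * (1 - Q)) := by
    intro i
    have := nsq_block Q (A i) hQ hQQ (hA i) 1 1 1 one_ne_zero (by simp) (by simp)
    rw [one_mul, mul_one] at this
    exact this
  have e3 : ∑ i, nsq (Q * A i * (1 - Q)) = 0 := by
    have h3 : ∑ i, nsq (A i) = ∑ i, nsq (Q * A i * Q + (1 - Q) * A i * (1 - Q)) +
        ∑ i, nsq (Q * A i * (1 - Q)) := by
      rw [← Finset.sum_add_distrib]
      exact Finset.sum_congr rfl fun i _ => by rw [e2 i]; ring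
    have h4 : ∑ i, nsq ((((1 / 2 : ℝ) : 𝕜) • Q + (1 - Q)) * A i *
      ((((1 / 2 : ℝ) : 𝕜)⁻¹) • Q + (1 - Q))) =
        ∑ i, nsq (Q * A i * Q + (1 - Q) * A i * (1 - Q)) +
        (1 / 4) * ∑ i, nsq (Q * A i * (1 - Q)) := by
      rw [Finset.mul_sum, ← Finset.sum_add_distrib]
      exact Finset.sum_congr rfl fun i _ => by rw [e1 i]; ring
    have h5 : 0 ≤ ∑ i, nsq (Q * A i * (1 - Q)) := Finset.sum_nonneg fun i _ => nsq_nonneg _
    rw [h3, h4] at hm
    linarith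
  intro i
  exact nsq_eq_zero ((Finset.sum_eq_zero_iff_of_nonneg (fun i _ => nsq_nonneg _)).mp e3 i
    (Finset.mem_univ _))

end kn

end Pool.Agent.SimpleAnosov
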